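import Pool.Agent.helper21.GN.Ram

/-! Approximation at the places over a point, and local bases. -/

namespace WildG

open Polynomial WildRat WildS WildV

variable {K : Type} [Field K] [Algebra ℂ K]

private theorem Apx_ord_iff {B : Type} [CommRing B]
    [IsDedekindDomain B] [Algebra B K] [IsFractionRing B K] (P : Pl K) (q : IsDedekindDomain.HeightOneSpectrum B)
    (h : P.v = q.valuation K) {b : B} (hb : b ≠ 0) (n : ℕ) :
    (n : ℤ) ≤ P.ord (algebraMap B K b) ↔ b ∈ q.asIdeal ^ n := by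
  rw [← q.intValuation_le_pow_iff_mem b n]
  unfold Pl.ord
  rw [h, IsDedekindDomain.HeightOneSpectrum.valuation_of_algebraMap]
  have h0 : q.intValuation b ≠ 0 := q.intValuation_ne_zero b hb
  generalize q.intValuation b = w at *
  conv_rhs => rw [← WithZero.exp_log h0, WithZero.exp_le_exp]
  omega

/-- Elements with a prescribed order at one place over `a`, and a large order at the others.

Proof.  `B = integralClosure ℂ[X] K` (setup as in WS/Norm.lean `norm_formula` or `DInt_aux`), a Dedekind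
domain; the places over `a` correspond to distinct maximal ideals `p_P` of `B`
(`exists_prime_of_pl`, WS/Chart.lean).  Choose `u0 ∈ p_0 ^ ν` not in `p_0 ^ (ν + 1)`, and by the Chinese
remainder theorem `u ∈ B` with `u ≡ u0 mod p_0 ^ (ν + 1)`, `u ≡ 0 mod p_P ^ N` for the other `P`. -/
theorem exists_apx (φ : E →ₐ[ℂ] K) (hφ : FinC φ) (a : ℂ) {P0 : Pl K} (hP0 : P0 ∈ fib φ a)
    (ν N : ℕ) : ∃ u : K, u ≠ 0 ∧ P0.ord u = ν ∧ ∀ P ∈ fib φ a, P ≠ P0 → (N : ℤ) ≤ P.ord u := by
  classical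
  let _ : Algebra E K := φ.toRingHom.toAlgebra
  let _ : Algebra ℂ[X] K := (φ.toRingHom.comp (algebraMap ℂ[X] E)).toAlgebra
  have : IsScalarTower ℂ[X] E K := IsScalarTower.of_algebraMap_eq' rfl
  have : FiniteDimensional E K := hφ
  have : CharZero E := inferInstance
  have : Algebra.IsSeparable E K := inferInstance
  have : IsDedekindDomain (integralClosure ℂ[X] K) :=
    integralClosure.isDedekindDomain ℂ[X] E K
  have : IsFractionRing (integralClosure ℂ[X] K) K :=
    integralClosure.isFractionRing_of_finite_extension E K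
  have hmap : algebraMap ℂ[X] K = (aeval (φ RatFunc.X) : ℂ[X] →ₐ[ℂ] K).toRingHom := by
    apply RingHom.ext
    intro p
    exact coord_poly φ p
  have hB : ∀ w : K, IsIntegral ℂ[X] w ↔ Integ (φ RatFunc.X) w := by
    intro w
    unfold IsIntegral Integ
    rw [hmap]
  have hnon : ∀ P ∈ fib φ a, ∀ r : integralClosure ℂ[X] K,
      0 ≤ P.ord (algebraMap (integralClosure ℂ[X] K) K r) := by
    intro P hP r
    exact DInt_integ P (P.ord_nonneg_of_value hP) ((hB _).mp r.2)
  obtain ⟨p0, hp0⟩ := exists_prime_of_pl P0 (hnon P0 hP0)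
  have hex : ∀ P : Pl K, ∃ p : IsDedekindDomain.HeightOneSpectrum (integralClosure ℂ[X] K),
      P ∈ fib φ a → P.v = p.valuation K := by
    intro P
    by_cases hP : P ∈ fib φ a
    · obtain ⟨p, hp⟩ := exists_prime_of_pl P (hnon P hP)
      exact ⟨p, fun _ => hp⟩
    · exact ⟨p0, fun h => absurd h hP⟩
  choose p hp using hex
  obtain ⟨u0, hu0, hu1⟩ := Ideal.exists_mem_pow_notMem_pow_succ (p P0).asIdeal (p P0).ne_bot
    (p P0).isPrime.ne_top ν
  obtain ⟨y, hy⟩ := IsDedekindDomain.exists_forall_sub_mem_ideal (s := fibS φ hφ a)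
    (fun P => (p P).asIdeal) (fun P => if P = P0 then ν + 1 else N)
    (fun P _ => (p P).prime)
    (by
      intro P hP Q hQ hne heq
      apply hne
      have h1 : p P = p Q := IsDedekindDomain.HeightOneSpectrum.ext heq
      apply Pl.ext'
      intro u
      rw [hp P (mem_fibS.1 hP), hp Q (mem_fibS.1 hQ), h1])
    (fun P => if P.1 = P0 then u0 else 0)
  have hy0 := hy P0 (mem_fibS.2 hP0)
  simp only [if_true] at hy0
  have hyν : y ∈ (p P0).asIdeal ^ ν := by
    have h1 : y - u0 ∈ (p P0).asIdeal ^ ν := Ideal.pow_le_pow_right (Nat.le_succ ν) hy0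
    have h2 := Ideal.add_mem _ h1 hu0
    rwa [sub_add_cancel] at h2
  have hyν1 : y ∉ (p P0).asIdeal ^ (ν + 1) := by
    intro h
    apply hu1
    have h2 := Ideal.sub_mem _ h hy0
    rwa [sub_sub_cancel] at h2
  have hyne : y ≠ 0 := by
    rintro rfl
    exact hyν1 (Ideal.zero_mem _)
  refine ⟨algebraMap (integralClosure ℂ[X] K) K y, ?_, ?_, ?_⟩
  · intro h
    apply hyne
    exact (map_eq_zero_iff _ (IsFractionRing.injective _ K)).1 h
  · have h1 := (Apx_ord_iff P0 (p P0) (hp P0 hP0) hyne ν).2 hyν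
    have h2 : ¬ ((ν + 1 : ℕ) : ℤ) ≤ P0.ord (algebraMap (integralClosure ℂ[X] K) K y) :=
      fun h => hyν1 ((Apx_ord_iff P0 (p P0) (hp P0 hP0) hyne (ν + 1)).1 h)
    push_cast at h2
    omega
  · intro P hP hne
    rw [Apx_ord_iff P (p P) (hp P hP) hyne N]
    have h1 := hy P (mem_fibS.2 hP)
    simp only [if_neg hne, sub_zero] at h1
    exact h1

/-- Regular at all places over `a`. -/
def Oa (φ : E →ₐ[ℂ] K) (a : ℂ) (u : K) : Prop := ∀ P ∈ fib φ a, 0 ≤ P.ord u

/-- `b` is a basis of the ring of the elements regular over `a`, over the local ring of `E` at `a`. -/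
structure LB (φ : E →ₐ[ℂ] K) (a : ℂ) {ι : Type} [Fintype ι] (b : ι → K) : Prop where
  reg : ∀ i, Oa φ a (b i)
  span : ∀ u, Oa φ a u → ∃ q : ι → E, (∀ i, 0 ≤ (plE a).ord (q i)) ∧ u = ∑ i, φ (q i) * b i
  indep : ∀ q : ι → E, ∑ i, φ (q i) * b i = 0 → ∀ i, q i = 0

private theorem Apx_sne (φ : E →ₐ[ℂ] K) (a : ℂ) : φ RatFunc.X - algebraMap ℂ K a ≠ 0 :=
  coord_sub_ne φ a

private theorem Apx_Ds {φ : E →ₐ[ℂ] K} (D : Derivation ℂ K K)
    (hD : D (φ RatFunc.X) = 1) (a : ℂ) : D (φ RatFunc.X - algebraMap ℂ K a) = 1 := by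
  rw [map_sub, D.map_algebraMap, sub_zero, hD]

/-- The logarithmic derivation `(x - a) D`.

Proof.  Let `κ` be the number of `exists_kappa`, `κ = 1 - ram φ P` (`ram_kappa`), `e = ram φ P` the order
of `s = φ X - a`.  (1) If `0 ≤ P.ord w`, then `P.ord (s * D w) ≥ e + κ = 1` (or `D w = 0`).
(2) For `u ≠ 0`, `ν = P.ord u`: the element `w = u ^ e / s ^ ν` has order zero and
`s D w / w = e s D u / u - ν` (`D s = 1`), so `e s D u - ν u = u * (s D w / w)` is zero or has order at
least `ν + 1`. -/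
theorem log_scalar {φ : E →ₐ[ℂ] K} (hφ : FinC φ) (D : Derivation ℂ K K)
    (hD : D (φ RatFunc.X) = 1) {a : ℂ} {P : Pl K} (hP : P ∈ fib φ a) {u : K} (hu : u ≠ 0) :
    (ram φ P : K) * ((φ RatFunc.X - algebraMap ℂ K a) * D u) - (P.ord u : K) * u = 0 ∨
    P.ord u + 1 ≤ P.ord ((ram φ P : K) * ((φ RatFunc.X - algebraMap ℂ K a) * D u) -
      (P.ord u : K) * u) := by
  obtain ⟨κ, h1, h2⟩ := exists_kappa φ hφ D ⟨φ RatFunc.X, by rw [hD]; exact one_ne_zero⟩ P
  have hκ : κ = 1 - ram φ P := (ram_kappa hφ D hD P h1).1 (P.ord_nonneg_of_value hP)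
  have he : P.ord (φ RatFunc.X - algebraMap ℂ K a) = ram φ P := (ram_fib hP).symm
  have hs0 := Apx_sne φ a
  have hDs := Apx_Ds D hD a
  generalize φ RatFunc.X - algebraMap ℂ K a = s at *
  generalize ram φ P = e at *
  set ν := P.ord u with hν
  set w : K := u ^ e * s ^ (-ν) with hw
  have hue : u ^ e ≠ 0 := zpow_ne_zero _ hu
  have hsν : s ^ (-ν) ≠ 0 := zpow_ne_zero _ hs0
  have hw0 : w ≠ 0 := mul_ne_zero hue hsν
  have hwo : P.ord w = 0 := by
    rw [hw, P.ord_mul hue hsν, RH_ord_zpow, RH_ord_zpow, he, ← hν]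
    ring
  have hDw : (e : K) * (s * D u) - (ν : K) * u = u * (s * D w) * w⁻¹ := by
    have hDw1 : D w = w * ((e : K) * D u * u⁻¹ - (ν : K) * s⁻¹) := by
      rw [hw, D.leibniz, D.leibniz_zpow, D.leibniz_zpow, hDs]
      simp only [smul_eq_mul, zsmul_eq_mul]
      have e1 : u ^ e = u ^ (e - 1) * u := by
        rw [← zpow_add_one₀ hu, sub_add_cancel]
      have e2 : s ^ (-ν) = s ^ (-ν - 1) * s := by
        rw [← zpow_add_one₀ hs0, sub_add_cancel]
      rw [e1, e2]
      push_cast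
      field_simp
      ring
    rw [hDw1]
    field_simp
  rw [hDw]
  by_cases hz : D w = 0
  · left
    rw [hz]
    ring
  · right
    have h3 := h2 w hwo.ge hz
    rw [P.ord_mul (mul_ne_zero hu (mul_ne_zero hs0 hz)) (inv_ne_zero hw0), P.ord_inv, hwo,
      P.ord_mul hu (mul_ne_zero hs0 hz), P.ord_mul hs0 hz, he]
    omega

/-- The index set of the adapted basis: pairs of a place over `a` and a number `ν < ram`. -/
abbrev AI (φ : E →ₐ[ℂ] K) (hφ : FinC φ) (a : ℂ) : Type :=
  Σ P : {P : Pl K // P ∈ fibS φ hφ a}, Fin (ram φ P.1).toNat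

private theorem Apx_mono {P : Pl K} {n m : ℤ} (h : n ≤ m) {u : K} (hu : Bdd_big P m u) :
    Bdd_big P n u := by
  rcases hu with hu | hu
  · exact Or.inl hu
  · exact Or.inr (h.trans hu)

private theorem Apx_neg {P : Pl K} {n : ℤ} {u : K} (hu : Bdd_big P n u) :
    Bdd_big P n (-u) := by
  rcases hu with hu | hu
  · exact Or.inl (by rw [hu, neg_zero])
  · exact Or.inr (by rw [P.ord_neg]; exact hu)

private theorem Apx_sub {P : Pl K} {n : ℤ} {u w : K} (hu : Bdd_big P n u) (hw : Bdd_big P n w) :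
    Bdd_big P n (u - w) := by
  rw [sub_eq_add_neg]
  exact Bdd_big_add P hu (Apx_neg hw)

private theorem Apx_sum {P : Pl K} {n : ℤ} {ι : Type} (t : Finset ι) (f : ι → K)
    (h : ∀ i ∈ t, Bdd_big P n (f i)) : Bdd_big P n (∑ i ∈ t, f i) := by
  classical
  induction t using Finset.induction_on with
  | empty => exact Or.inl Finset.sum_empty
  | insert a t ha ih =>
    rw [Finset.sum_insert ha]
    exact Bdd_big_add P (h a (Finset.mem_insert_self a t))
      (ih fun i hi => h i (Finset.mem_insert_of_mem hi))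

private theorem Apx_const {P : Pl K} {n : ℤ} (z : ℂ) {u : K} (hu : Bdd_big P n u) :
    Bdd_big P n (algebraMap ℂ K z * u) := by
  have := Bdd_big_mul P (n := 0) (u := algebraMap ℂ K z) (Or.inr (P.ord_C z).ge) hu
  rwa [zero_add] at this

private theorem Apx_zero {P : Pl K} {u : K} (h : 0 ≤ P.ord u) : Bdd_big P 0 u := Or.inr h

private theorem Apx_zero' {P : Pl K} {u : K} (h : Bdd_big P 0 u) : 0 ≤ P.ord u :=
  Bdd_big_le P le_rfl h

/-- the properties of the adapted basis used in the proofs -/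
private structure Apx_C (φ : E →ₐ[ℂ] K) (hφ : FinC φ) (a : ℂ) (c : AI φ hφ a → K) : Prop where
  ne : ∀ i : AI φ hφ a, c i ≠ 0
  ord : ∀ i : AI φ hφ a, i.1.1.ord (c i) = ((i.2 : ℕ) : ℤ)
  big : ∀ i : AI φ hφ a, ∀ P ∈ fib φ a, P ≠ i.1.1 → ram φ P ≤ P.ord (c i)

private theorem Apx_exists {φ : E →ₐ[ℂ] K} (hφ : FinC φ) (a : ℂ) :
    ∃ c : AI φ hφ a → K, Apx_C φ hφ a c := by
  have h : ∀ i : AI φ hφ a, ∃ u : K, u ≠ 0 ∧ i.1.1.ord u = ((i.2 : ℕ) : ℤ) ∧
      ∀ P ∈ fib φ a, P ≠ i.1.1 → ram φ P ≤ P.ord u := by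
    intro i
    obtain ⟨u, h1, h2, h3⟩ := exists_apx φ hφ a (mem_fibS.1 i.1.2) (i.2 : ℕ)
      (∑ P ∈ fibS φ hφ a, (ram φ P).toNat)
    refine ⟨u, h1, h2, fun P hP hne => le_trans ?_ (h3 P hP hne)⟩
    have h4 : (ram φ P).toNat ≤ ∑ P ∈ fibS φ hφ a, (ram φ P).toNat :=
      Finset.single_le_sum (f := fun P => (ram φ P).toNat) (fun _ _ => Nat.zero_le _)
        (mem_fibS.2 hP)
    have h5 := Int.self_le_toNat (ram φ P)
    have h6 : ((ram φ P).toNat : ℤ) ≤ ((∑ P ∈ fibS φ hφ a, (ram φ P).toNat : ℕ) : ℤ) := by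
      exact_mod_cast h4
    exact h5.trans h6
  choose c hc using h
  exact ⟨c, fun i => (hc i).1, fun i => (hc i).2.1, fun i => (hc i).2.2⟩

variable {φ : E →ₐ[ℂ] K} {hφ : FinC φ} {a : ℂ} {c : AI φ hφ a → K}

private theorem Apx_ords {P : Pl K} (hP : P ∈ fib φ a) :
    P.ord (φ RatFunc.X - algebraMap ℂ K a) = ram φ P := (ram_fib hP).symm

private theorem Apx_reg (hc : Apx_C φ hφ a c) (i : AI φ hφ a) : Oa φ a (c i) := by
  intro P hP
  by_cases h : P = i.1.1
  · rw [h, hc.ord i]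
    exact Int.natCast_nonneg _
  · have h1 := hc.big i P hP h
    have h2 := ram_pos hφ P
    omega

private theorem Apx_MI (hc : Apx_C φ hφ a c) (l : AI φ hφ a → ℂ) {u' : K} (hu' : Oa φ a u')
    (h : ∑ i, algebraMap ℂ K (l i) * c i = (φ RatFunc.X - algebraMap ℂ K a) * u') :
    ∀ i, l i = 0 := by
  classical
  have key : ∀ (P : {P : Pl K // P ∈ fibS φ hφ a}) (n : ℕ) (hn : n < (ram φ P.1).toNat),
      l ⟨P, ⟨n, hn⟩⟩ = 0 := by
    intro P n
    induction n using Nat.strong_induction_on with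
    | _ n ih =>
    intro hn
    by_contra hne
    have hPf : P.1 ∈ fib φ a := mem_fibS.1 P.2
    have hcoe : ((n + 1 : ℕ) : ℤ) ≤ ram φ P.1 := by omega
    set i0 : AI φ hφ a := ⟨P, ⟨n, hn⟩⟩ with hi0
    have h1 : algebraMap ℂ K (l i0) * c i0 = (φ RatFunc.X - algebraMap ℂ K a) * u' -
        ∑ i ∈ Finset.univ.erase i0, algebraMap ℂ K (l i) * c i := by
      rw [← h, ← Finset.add_sum_erase _ _ (Finset.mem_univ i0)]
      ring
    have h2 : Bdd_big P.1 ((n + 1 : ℕ) : ℤ) (algebraMap ℂ K (l i0) * c i0) := by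
      rw [h1]
      refine Apx_sub ?_ (Apx_sum _ _ ?_)
      · refine Apx_mono hcoe ?_
        have := Bdd_big_mul P.1 (n := ram φ P.1) (m := 0) (Or.inr (Apx_ords hPf).ge)
          (Apx_zero (hu' P.1 hPf))
        rwa [add_zero] at this
      · rintro ⟨Q, m, hm⟩ hi
        have hne2 := (Finset.mem_erase.1 hi).1
        by_cases hQ : Q = P
        · subst hQ
          rcases lt_trichotomy m n with h3 | h3 | h3
          · left
            rw [ih m h3 hm, map_zero, zero_mul]
          · subst h3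
            exact absurd rfl hne2
          · refine Apx_const _ (Or.inr ?_)
            have h5 := hc.ord (⟨Q, ⟨m, hm⟩⟩ : AI φ hφ a)
            change Q.1.ord (c ⟨Q, ⟨m, hm⟩⟩) = (m : ℤ) at h5
            rw [h5]
            exact_mod_cast h3
        · refine Apx_const _ (Or.inr ?_)
          refine hcoe.trans (hc.big ⟨Q, m, hm⟩ P.1 hPf ?_)
          intro h4
          exact hQ (Subtype.ext h4.symm)
    have h0 : algebraMap ℂ K (l i0) ≠ 0 := by
      rw [_root_.map_ne_zero]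
      exact hne
    rcases h2 with h2 | h2
    · exact mul_ne_zero h0 (hc.ne i0) h2
    · rw [P.1.ord_mul h0 (hc.ne i0), P.1.ord_C, zero_add] at h2
      have h5 := hc.ord i0
      rw [hi0] at h5
      change P.1.ord (c ⟨P, ⟨n, hn⟩⟩) = (n : ℤ) at h5
      rw [hi0, h5] at h2
      push_cast at h2
      omega
  rintro ⟨P, n, hn⟩
  exact key P n hn

private theorem Apx_t (a : ℂ) : (plE a).ord ((RatFunc.X : E) - algebraMap ℂ E a) = 1 ∧
    (RatFunc.X : E) - algebraMap ℂ E a ≠ 0 := by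
  have h1 : (RatFunc.X : E) - algebraMap ℂ E a = algebraMap ℂ[X] E (X - C a) := by
    rw [map_sub, RatFunc.algebraMap_X, algC_E]
  have h2 : (X - C a : ℂ[X]) ≠ 0 := X_sub_C_ne_zero a
  rw [h1, plE_poly a h2, rootMultiplicity_X_sub_C_self]
  refine ⟨rfl, ?_⟩
  intro h
  exact h2 ((map_eq_zero_iff _ (RatFunc.algebraMap_injective ℂ)).1 h)

private theorem Apx_phi_t (φ : E →ₐ[ℂ] K) (a : ℂ) :
    φ ((RatFunc.X : E) - algebraMap ℂ E a) = φ RatFunc.X - algebraMap ℂ K a := by
  rw [map_sub, coord_C]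

private theorem Apx_phi_reg {P : Pl K} (hP : P ∈ fib φ a) (hφ : FinC φ) {q : E}
    (hq : 0 ≤ (plE a).ord q) : 0 ≤ P.ord (φ q) := by
  by_cases h : q = 0
  · rw [h, map_zero, P.ord_zero]
  · rw [ord_coord hP h, Apx_ords hP]
    have := ram_pos hφ P
    exact mul_nonneg hq (by omega)

private theorem Apx_sum_reg (hc : Apx_C φ hφ a c) (q : AI φ hφ a → E)
    (hq : ∀ i, 0 ≤ (plE a).ord (q i)) : Oa φ a (∑ i, φ (q i) * c i) := by
  intro P hP
  refine Apx_zero' (Apx_sum _ _ fun i _ => ?_)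
  exact Apx_zero (P.ord_nonneg_mul (Apx_phi_reg hP hφ (hq i)) (Apx_reg hc i P hP))

private theorem Apx_U0 (hc : Apx_C φ hφ a c) (q : AI φ hφ a → E) {u' : K} (hu' : Oa φ a u')
    (h : ∑ i, φ (q i) * c i = (φ RatFunc.X - algebraMap ℂ K a) * u')
    (hq : ∀ i, 0 ≤ (plE a).ord (q i)) : ∀ i, Bdd_big (plE a) 1 (q i) := by
  have hres : ∀ i, ∃ z : ℂ, q i = algebraMap ℂ E z ∨ 0 < (plE a).ord (q i - algebraMap ℂ E z) :=
    fun i => exists_res (AlgHom.id ℂ E) RatK_finC_id (plE a) (q i) (hq i)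
  choose l hl using hres
  obtain ⟨ht1, ht0⟩ := Apx_t a
  set t : E := (RatFunc.X : E) - algebraMap ℂ E a with ht
  have hr : ∀ i, 0 ≤ (plE a).ord ((q i - algebraMap ℂ E (l i)) * t⁻¹) := by
    intro i
    by_cases h0 : q i - algebraMap ℂ E (l i) = 0
    · rw [h0, zero_mul, Pl.ord_zero]
    · rw [Pl.ord_mul _ h0 (inv_ne_zero ht0), Pl.ord_inv, ht1]
      rcases hl i with h1 | h1
      · exact absurd (sub_eq_zero.2 h1) h0
      · omega
  have hsplit : ∑ i, algebraMap ℂ K (l i) * c i = (φ RatFunc.X - algebraMap ℂ K a) *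
      (u' - ∑ i, φ ((q i - algebraMap ℂ E (l i)) * t⁻¹) * c i) := by
    rw [mul_sub, ← h, Finset.mul_sum, ← Finset.sum_sub_distrib]
    refine Finset.sum_congr rfl fun i _ => ?_
    have e1 : (φ RatFunc.X - algebraMap ℂ K a) * φ ((q i - algebraMap ℂ E (l i)) * t⁻¹) =
        φ (q i) - algebraMap ℂ K (l i) := by
      rw [← Apx_phi_t, ← map_mul, ← ht, mul_comm t, mul_assoc, inv_mul_cancel₀ ht0, mul_one,
        map_sub, coord_C]
    rw [← mul_assoc, e1]
    ring
  have hreg : Oa φ a (u' - ∑ i, φ ((q i - algebraMap ℂ E (l i)) * t⁻¹) * c i) := by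
    intro P hP
    exact P.ord_nonneg_sub (hu' P hP) (Apx_sum_reg hc _ hr P hP)
  have h0 := Apx_MI hc l hreg hsplit
  intro i
  rcases hl i with h1 | h1
  · left
    rw [h1, h0 i, map_zero]
  · right
    rw [h0 i, map_zero, sub_zero] at h1
    omega

private theorem Apx_Un (hc : Apx_C φ hφ a c) (n : ℕ) : ∀ (q : AI φ hφ a → E) {u' : K}
    (_ : Oa φ a u') (_ : ∑ i, φ (q i) * c i = (φ RatFunc.X - algebraMap ℂ K a) ^ n * u')
    (_ : ∀ i, 0 ≤ (plE a).ord (q i)), ∀ i, Bdd_big (plE a) n (q i) := by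
  induction n with
  | zero =>
    intro q u' _ _ hq i
    exact Or.inr (hq i)
  | succ n ih =>
    intro q u' hu' h hq i
    obtain ⟨ht1, ht0⟩ := Apx_t a
    have hs : Oa φ a ((φ RatFunc.X - algebraMap ℂ K a) ^ n * u') := by
      intro P hP
      refine P.ord_nonneg_mul ?_ (hu' P hP)
      rw [P.ord_pow, Apx_ords hP]
      have := ram_pos hφ P
      positivity
    have h1 := Apx_U0 hc q hs (by rw [h, pow_succ]; ring) hq
    set t : E := (RatFunc.X : E) - algebraMap ℂ E a with ht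
    have hr : ∀ i, Bdd_big (plE a) 0 (q i * t⁻¹) := by
      intro i
      have := Bdd_big_mul (plE a) (h1 i) (m := -1) (w := t⁻¹) (Or.inr (by rw [Pl.ord_inv, ht1]))
      rwa [add_neg_cancel] at this
    have h2 := ih (fun i => q i * t⁻¹) hu' (by
      have hs0 := Apx_sne φ a
      have e1 : ∀ i, φ (q i * t⁻¹) * c i =
          (φ (q i) * c i) * (φ RatFunc.X - algebraMap ℂ K a)⁻¹ := by
        intro i
        rw [map_mul, map_inv₀, ht, Apx_phi_t]
        ring
      rw [Finset.sum_congr rfl fun i _ => e1 i, ← Finset.sum_mul, h, pow_succ]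
      field_simp) (fun i => Apx_zero' (hr i)) i
    have h3 := Bdd_big_mul (plE a) h2 (m := 1) (w := t) (Or.inr ht1.ge)
    rw [mul_assoc, inv_mul_cancel₀ ht0, mul_one] at h3
    push_cast
    exact h3

private theorem Apx_U (hc : Apx_C φ hφ a c) (k : ℤ) (q : AI φ hφ a → E) {u' : K}
    (hu' : Oa φ a u') (h : ∑ i, φ (q i) * c i = (φ RatFunc.X - algebraMap ℂ K a) ^ k * u') :
    ∀ i, Bdd_big (plE a) k (q i) := by
  obtain ⟨ht1, ht0⟩ := Apx_t a
  set t : E := (RatFunc.X : E) - algebraMap ℂ E a with ht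
  set m : ℕ := k.natAbs + ∑ i, ((plE a).ord (q i)).natAbs with hm
  have hk : 0 ≤ (m : ℤ) + k := by omega
  obtain ⟨n, hn⟩ := Int.eq_ofNat_of_zero_le hk
  have hs0 := Apx_sne φ a
  have h1 := Apx_Un hc n (fun i => t ^ m * q i) hu' (by
    have e1 : ∀ i, φ (t ^ m * q i) * c i =
        (φ RatFunc.X - algebraMap ℂ K a) ^ m * (φ (q i) * c i) := by
      intro i
      rw [map_mul, map_pow, ht, Apx_phi_t]
      ring
    rw [Finset.sum_congr rfl fun i _ => e1 i, ← Finset.mul_sum, h, ← mul_assoc]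
    congr 1
    have e2 : (φ RatFunc.X - algebraMap ℂ K a) ^ m =
      (φ RatFunc.X - algebraMap ℂ K a) ^ (m : ℤ) := (zpow_natCast _ m).symm
    rw [e2, ← zpow_add₀ hs0, hn]
    exact zpow_natCast _ n) (by
    intro i
    by_cases h0 : q i = 0
    · rw [h0, mul_zero, Pl.ord_zero]
    · rw [Pl.ord_mul _ (pow_ne_zero _ ht0) h0, Pl.ord_pow, ht1]
      have h2 : ((plE a).ord (q i)).natAbs ≤ ∑ i, ((plE a).ord (q i)).natAbs :=
        Finset.single_le_sum (f := fun i => ((plE a).ord (q i)).natAbs)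
          (fun _ _ => Nat.zero_le _) (Finset.mem_univ i)
      have h3 : ((plE a).ord (q i)).natAbs ≤ m := by omega
      omega)
  intro i
  have h2 := Bdd_big_mul (plE a) (h1 i) (m := -(m : ℤ)) (w := (t ^ m)⁻¹)
    (Or.inr (by rw [Pl.ord_inv, Pl.ord_pow, ht1, mul_one]))
  have e3 : t ^ m * q i * (t ^ m)⁻¹ = q i := by
    have := pow_ne_zero m ht0
    field_simp
  rw [e3] at h2
  refine Apx_mono ?_ h2
  have : ((n : ℕ) : ℤ) = (m : ℤ) + k := hn.symm
  omega

private theorem Apx_card : (Fintype.card (AI φ hφ a) : ℤ) = deg φ := by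
  rw [← sum_self φ hφ a, Fintype.card_sigma]
  push_cast
  simp only [Fintype.card_fin]
  rw [Finset.univ_eq_attach, Finset.sum_attach (fibS φ hφ a) (fun P => ((ram φ P).toNat : ℤ))]
  refine Finset.sum_congr rfl fun P hP => ?_
  rw [Apx_ords (mem_fibS.1 hP)]
  have := ram_pos hφ P
  exact Int.toNat_of_nonneg (by omega)

private theorem Apx_indep (hc : Apx_C φ hφ a c) (q : AI φ hφ a → E)
    (h : ∑ i, φ (q i) * c i = 0) : ∀ i, q i = 0 := by
  intro i
  have h0 : Oa φ a (0 : K) := fun P _ => by rw [P.ord_zero]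
  have h1 := Apx_U hc ((plE a).ord (q i) + 1) q h0 (by rw [h, mul_zero]) i
  rcases h1 with h1 | h1
  · exact h1
  · omega

private theorem Apx_LB (hc : Apx_C φ hφ a c) : LB φ a c := by
  refine ⟨Apx_reg hc, ?_, Apx_indep hc⟩
  intro u hu
  let _ : Algebra E K := φ.toRingHom.toAlgebra
  have hfin : FiniteDimensional E K := hφ
  have hsm : ∀ (q : E) (x : K), q • x = φ q * x := fun q x => rfl
  have hli : LinearIndependent E c := by
    rw [Fintype.linearIndependent_iff]
    intro g hg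
    exact Apx_indep hc g hg
  have hcard : Fintype.card (AI φ hφ a) = Module.finrank E K := by
    have := Apx_card (φ := φ) (hφ := hφ) (a := a)
    exact_mod_cast this
  have hspan := hli.span_eq_top_of_card_eq_finrank' hcard
  have hmem : u ∈ Submodule.span E (Set.range c) := by
    rw [hspan]
    exact Submodule.mem_top
  obtain ⟨q, hq⟩ := (Submodule.mem_span_range_iff_exists_fun E).1 hmem
  have hq' : ∑ i, φ (q i) * c i = u := hq
  have h1 := Apx_U hc 0 q hu (by rw [hq', zpow_zero, one_mul])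
  exact ⟨q, fun i => Apx_zero' (h1 i), hq'.symm⟩

private theorem Apx_sD (D : Derivation ℂ K K) (hD : D (φ RatFunc.X) = 1) (hφ : FinC φ)
    {P : Pl K} (hP : P ∈ fib φ a) {u : K} (hu : u ≠ 0) :
    Bdd_big P (P.ord u) ((φ RatFunc.X - algebraMap ℂ K a) * D u) := by
  have h1 := log_scalar hφ D hD hP hu
  have he := ram_pos hφ P
  have hcast : (ram φ P : K) = algebraMap ℂ K (ram φ P : ℂ) := (map_intCast _ _).symm
  have hcast2 : (P.ord u : K) = algebraMap ℂ K (P.ord u : ℂ) := (map_intCast _ _).symm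
  have h2 : Bdd_big P (P.ord u) ((ram φ P : K) * ((φ RatFunc.X - algebraMap ℂ K a) * D u) -
      (P.ord u : K) * u) := Apx_mono (by omega) h1
  have h3 : Bdd_big P (P.ord u) ((P.ord u : K) * u) := by
    rw [hcast2]
    exact Apx_const _ (Or.inr le_rfl)
  have h4 := Bdd_big_add P h2 h3
  rw [sub_add_cancel] at h4
  have h5 := Apx_const (P := P) ((ram φ P : ℂ)⁻¹) h4
  rw [hcast, ← mul_assoc, ← map_mul, inv_mul_cancel₀, map_one, one_mul] at h5
  · exact h5
  · have : (ram φ P : ℤ) ≠ 0 := by omega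
    exact_mod_cast this

private theorem Apx_sD_reg (hc : Apx_C φ hφ a c) (D : Derivation ℂ K K)
    (hD : D (φ RatFunc.X) = 1) (i : AI φ hφ a) :
    Oa φ a ((φ RatFunc.X - algebraMap ℂ K a) * D (c i)) := by
  intro P hP
  exact Apx_zero' (Apx_mono (Apx_reg hc i P hP) (Apx_sD D hD hφ hP (hc.ne i)))

private theorem Apx_R (hc : Apx_C φ hφ a c) (P : {P : Pl K // P ∈ fibS φ hφ a}) (d : ℕ) :
    ∀ (n : ℕ) (w : K) (_ : (ram φ P.1).toNat ≤ n + d) (_ : Bdd_big P.1 (n : ℤ) w)
    (_ : ∀ Q ∈ fib φ a, Q ≠ P.1 → Bdd_big Q (ram φ Q) w),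
    ∃ (l : AI φ hφ a → ℂ) (u' : K), Oa φ a u' ∧
      w = ∑ i, algebraMap ℂ K (l i) * c i + (φ RatFunc.X - algebraMap ℂ K a) * u' ∧
      ∀ i : AI φ hφ a, i.1 = P → (i.2 : ℕ) < n → l i = 0 := by
  classical
  have hPf : P.1 ∈ fib φ a := mem_fibS.1 P.2
  have hbase : ∀ (n : ℕ) (w : K) (_ : (ram φ P.1).toNat ≤ n) (_ : Bdd_big P.1 (n : ℤ) w)
    (_ : ∀ Q ∈ fib φ a, Q ≠ P.1 → Bdd_big Q (ram φ Q) w),
    ∃ (l : AI φ hφ a → ℂ) (u' : K), Oa φ a u' ∧
      w = ∑ i, algebraMap ℂ K (l i) * c i + (φ RatFunc.X - algebraMap ℂ K a) * u' ∧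
      ∀ i : AI φ hφ a, i.1 = P → (i.2 : ℕ) < n → l i = 0 := by
    intro n w hn hw hw2
    refine ⟨fun _ => 0, (φ RatFunc.X - algebraMap ℂ K a)⁻¹ * w, ?_, ?_, fun _ _ _ => rfl⟩
    · intro Q hQ
      have h1 : Bdd_big Q (ram φ Q) w := by
        by_cases hQP : Q = P.1
        · rw [hQP]
          refine Apx_mono ?_ hw
          have := ram_pos hφ P.1
          omega
        · exact hw2 Q hQ hQP
      have h2 := Bdd_big_mul Q (n := -ram φ Q) (u := (φ RatFunc.X - algebraMap ℂ K a)⁻¹)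
        (Or.inr (by rw [Q.ord_inv, Apx_ords hQ])) h1
      rw [neg_add_cancel] at h2
      exact Apx_zero' h2
    · have := Apx_sne φ a
      simp only [map_zero, zero_mul, Finset.sum_const_zero, zero_add]
      rw [← mul_assoc, mul_inv_cancel₀ this, one_mul]
  induction d with
  | zero => exact fun n w hn hw hw2 => hbase n w (by omega) hw hw2
  | succ d ih =>
    intro n w hn hw hw2
    by_cases hcase : (ram φ P.1).toNat ≤ n
    · exact hbase n w hcase hw hw2
    · have hlt : n < (ram φ P.1).toNat := by omega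
      set i1 : AI φ hφ a := ⟨P, ⟨n, hlt⟩⟩ with hi1
      have ho1 : P.1.ord (c i1) = (n : ℤ) := hc.ord i1
      have hv : Bdd_big P.1 0 (w * (c i1)⁻¹) := by
        have := Bdd_big_mul P.1 hw (m := -(n : ℤ)) (w := (c i1)⁻¹)
          (Or.inr (by rw [P.1.ord_inv, ho1]))
        rwa [add_neg_cancel] at this
      obtain ⟨z, hz⟩ := exists_res φ hφ P.1 (w * (c i1)⁻¹) (Apx_zero' hv)
      have hz' : Bdd_big P.1 1 (w * (c i1)⁻¹ - algebraMap ℂ K z) := by
        rcases hz with hz | hz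
        · left
          rw [hz, sub_self]
        · right
          omega
      have hw' : w - algebraMap ℂ K z * c i1 = (w * (c i1)⁻¹ - algebraMap ℂ K z) * c i1 := by
        have := hc.ne i1
        field_simp
      have h1 : Bdd_big P.1 ((n + 1 : ℕ) : ℤ) (w - algebraMap ℂ K z * c i1) := by
        rw [hw']
        have := Bdd_big_mul P.1 hz' (m := (n : ℤ)) (w := c i1) (Or.inr ho1.ge)
        push_cast
        rwa [add_comm] at this
      have h2 : ∀ Q ∈ fib φ a, Q ≠ P.1 → Bdd_big Q (ram φ Q) (w - algebraMap ℂ K z * c i1) := by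
        intro Q hQ hne
        refine Apx_sub (hw2 Q hQ hne) (Apx_const _ (Or.inr (hc.big i1 Q hQ hne)))
      obtain ⟨l, u', hu', hwl, hl⟩ := ih (n + 1) _ (by omega) h1 h2
      refine ⟨fun i => l i + if i = i1 then z else 0, u', hu', ?_, ?_⟩
      · have e1 : ∑ i, algebraMap ℂ K (l i + if i = i1 then z else 0) * c i =
            ∑ i, algebraMap ℂ K (l i) * c i + algebraMap ℂ K z * c i1 := by
          have e2 : ∀ i, algebraMap ℂ K (l i + if i = i1 then z else 0) * c i =
              algebraMap ℂ K (l i) * c i + if i = i1 then algebraMap ℂ K z * c i else 0 := by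
            intro i
            split_ifs <;> simp [add_mul]
          rw [Finset.sum_congr rfl fun i _ => e2 i, Finset.sum_add_distrib]
          simp
        rw [e1]
        linear_combination hwl
      · intro i hi1' hi2
        have h3 := hl i hi1' (by omega)
        have h4 : i ≠ i1 := by
          rintro rfl
          exact lt_irrefl _ hi2
        show l i + (if i = i1 then z else 0) = 0
        rw [h3, if_neg h4, add_zero]

/-- **The adapted basis.**  There are elements `c (P, ν)` with order exactly `ν` at `P` and order at least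
the ramification number at the other places over `a`; they form a local basis, and the matrix of
`(x - a) D` in this basis is regular at `a` with diagonal entries congruent to `ν / ram`.

Proof.  `c` from `exists_apx`.  (MI) If `λ` are complex numbers and `∑ λ c = s * u'` with `Oa φ a u'`,
`s = φ X - a`, then `λ = 0`: at a place `P` with some `λ (P, ν) ≠ 0` the sum has as order the least such
`ν < ram φ P` (the terms of the other places have order at least `ram φ P`), but the right side has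
order at least `ram φ P`.
Independence over `E`: given a relation with coefficients `q`, not all zero, multiply by a power of
`X - a` so that all `q` are regular at `a` and some `q (a) ≠ 0`; write `q = q(a) + (X - a) q'`; (MI).
The number of indices is `∑ ram = deg φ` (`sum_self`), so `c` is a basis of `K` over `E`.
Span: write `u = ∑ φ (q) c` with `q ∈ E`; if some `q` has a pole at `a`, multiply by `(X - a) ^ k`, `k` the
maximal pole order: `s ^ k u ∈ s Oa` and (MI) gives a contradiction.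
Matrix: `s D (c (P, ν))` is regular over `a`, and `ram φ P * s D (c (P, ν)) - ν c (P, ν)` has order `≥ ν + 1`
at `P` and order at least `ram` at the other places (`log_scalar`; note `s D u` has order at least that
of `u`).  Subtracting a suitable complex combination of the `c (P, ν')`, `ν' > ν`, makes the order at `P`
at least `ram φ P` too (`exists_res`), so the difference is in `s Oa`; by uniqueness (MI) the
coefficient of `c (P, ν)` in `s D (c (P, ν))` is `ν / ram φ P` modulo `X - a`. -/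
theorem adapted_basis {φ : E →ₐ[ℂ] K} (hφ : FinC φ) (D : Derivation ℂ K K)
    (hD : D (φ RatFunc.X) = 1) (a : ℂ) :
    ∃ c : AI φ hφ a → K, LB φ a c ∧ ∃ M : AI φ hφ a → AI φ hφ a → E,
      (∀ i, (φ RatFunc.X - algebraMap ℂ K a) * D (c i) = ∑ j, φ (M i j) * c j) ∧
      (∀ i j, 0 ≤ (plE a).ord (M i j)) ∧
      ∀ i, M i i = algebraMap ℂ E ((i.2 : ℕ) / (ram φ i.1.1 : ℂ)) ∨
        0 < (plE a).ord (M i i - algebraMap ℂ E ((i.2 : ℕ) / (ram φ i.1.1 : ℂ))) := by
  classical
  obtain ⟨c, hc⟩ := Apx_exists hφ a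
  have hLB := Apx_LB hc
  have hM : ∀ i, ∃ q : AI φ hφ a → E, (∀ j, 0 ≤ (plE a).ord (q j)) ∧
      (φ RatFunc.X - algebraMap ℂ K a) * D (c i) = ∑ j, φ (q j) * c j :=
    fun i => hLB.span _ (Apx_sD_reg hc D hD i)
  choose M hM0 hM1 using hM
  refine ⟨c, hLB, M, hM1, hM0, ?_⟩
  intro i
  have hPf : i.1.1 ∈ fib φ a := mem_fibS.1 i.1.2
  have he := ram_pos hφ i.1.1
  have he0 : (ram φ i.1.1 : ℂ) ≠ 0 := by
    have : (ram φ i.1.1 : ℤ) ≠ 0 := by omega
    exact_mod_cast this
  set w : K := (ram φ i.1.1 : K) * ((φ RatFunc.X - algebraMap ℂ K a) * D (c i)) -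
    (i.1.1.ord (c i) : K) * c i with hw
  have hw1 : Bdd_big i.1.1 (((i.2 : ℕ) + 1 : ℕ) : ℤ) w := by
    have := log_scalar hφ D hD hPf (hc.ne i)
    rcases this with h | h
    · exact Or.inl h
    · right
      have h' : i.1.1.ord (c i) + 1 ≤ i.1.1.ord w := h
      have h'' := hc.ord i
      push_cast
      omega
  have hcast : (ram φ i.1.1 : K) = algebraMap ℂ K (ram φ i.1.1 : ℂ) := (map_intCast _ _).symm
  have hcast2 : (i.1.1.ord (c i) : K) = algebraMap ℂ K ((i.2 : ℕ) : ℂ) := by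
    rw [hc.ord i]
    simp
  have hw2 : ∀ Q ∈ fib φ a, Q ≠ i.1.1 → Bdd_big Q (ram φ Q) w := by
    intro Q hQ hne
    have h1 := hc.big i Q hQ hne
    rw [hw, hcast, hcast2]
    exact Apx_sub (Apx_const _ (Apx_mono h1 (Apx_sD D hD hφ hQ (hc.ne i))))
      (Apx_const _ (Or.inr h1))
  obtain ⟨l, u', hu', hwl, hl⟩ := Apx_R hc i.1 (ram φ i.1.1).toNat ((i.2 : ℕ) + 1) w
    (by omega) hw1 hw2
  have hli := hl i rfl (Nat.lt_succ_self _)
  have hsum : ∑ j, φ (algebraMap ℂ E (ram φ i.1.1 : ℂ) * M i j -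
      (if j = i then algebraMap ℂ E ((i.2 : ℕ) : ℂ) else 0) - algebraMap ℂ E (l j)) * c j =
      (φ RatFunc.X - algebraMap ℂ K a) ^ (1 : ℤ) * u' := by
    have e1 : ∀ j, φ (algebraMap ℂ E (ram φ i.1.1 : ℂ) * M i j -
        (if j = i then algebraMap ℂ E ((i.2 : ℕ) : ℂ) else 0) - algebraMap ℂ E (l j)) * c j =
        algebraMap ℂ K (ram φ i.1.1 : ℂ) * (φ (M i j) * c j) -
        (if j = i then algebraMap ℂ K ((i.2 : ℕ) : ℂ) * c j else 0) -
        algebraMap ℂ K (l j) * c j := by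
      intro j
      rw [map_sub, map_sub, map_mul, coord_C, coord_C]
      split_ifs
      · rw [coord_C]; ring
      · rw [map_zero]; ring
    rw [Finset.sum_congr rfl fun j _ => e1 j, Finset.sum_sub_distrib, Finset.sum_sub_distrib,
      ← Finset.mul_sum, ← hM1 i, zpow_one]
    rw [hw, hcast, hcast2] at hwl
    simp only [Finset.sum_ite_eq', Finset.mem_univ, if_true]
    linear_combination hwl
  have hfin := Apx_U hc 1 _ hu' hsum i
  simp only [if_true, hli, map_zero, sub_zero] at hfin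
  have h5 := Apx_const (P := plE a) ((ram φ i.1.1 : ℂ)⁻¹) hfin
  have h6 : algebraMap ℂ E ((ram φ i.1.1 : ℂ)⁻¹) * (algebraMap ℂ E (ram φ i.1.1 : ℂ) * M i i -
      algebraMap ℂ E ((i.2 : ℕ) : ℂ)) =
      M i i - algebraMap ℂ E ((i.2 : ℕ) / (ram φ i.1.1 : ℂ)) := by
    rw [mul_sub, ← mul_assoc, ← map_mul, ← map_mul, inv_mul_cancel₀ he0, map_one, one_mul,
      div_eq_inv_mul]
  rw [h6] at h5
  rcases h5 with h5 | h5
  · exact Or.inl (sub_eq_zero.1 h5)
  · exact Or.inr (by omega)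

end WildG
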