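import Pool.Agent.helper21.GN.Apx

/-! Global bases of the ring of the elements regular at all finite places. -/

namespace WildG

open Polynomial WildRat WildS WildV

variable {K : Type} [Field K] [Algebra ℂ K]

/-- Regular at all places over finite points. -/
def Og (φ : E →ₐ[ℂ] K) (u : K) : Prop := ∀ a, Oa φ a u

/-- A basis of the ring of the elements regular at all finite places, over the polynomials. -/
structure GB (φ : E →ₐ[ℂ] K) {n : ℕ} (b : Fin n → K) : Prop where
  reg : ∀ i, Og φ (b i)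
  span : ∀ u, Og φ u → ∃ p : Fin n → ℂ[X], u = ∑ i, φ (algebraMap ℂ[X] E (p i)) * b i
  indep : ∀ q : Fin n → E, ∑ i, φ (q i) * b i = 0 → ∀ i, q i = 0

theorem Og.add {φ : E →ₐ[ℂ] K} {u w : K} (hu : Og φ u) (hw : Og φ w) : Og φ (u + w) :=
  fun a P hP => P.ord_nonneg_add (hu a P hP) (hw a P hP)

theorem Og.mul {φ : E →ₐ[ℂ] K} {u w : K} (hu : Og φ u) (hw : Og φ w) : Og φ (u * w) :=
  fun a P hP => P.ord_nonneg_mul (hu a P hP) (hw a P hP)

/-- Polynomials in `φ X` are regular.  Proof: `ord_coord` and `plE_poly`. -/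
theorem Og.poly (φ : E →ₐ[ℂ] K) (p : ℂ[X]) : Og φ (φ (algebraMap ℂ[X] E p)) := by
  intro a P hP
  rw [coord_poly]
  exact DInt_aeval P (P.ord_nonneg_of_value hP) p

theorem Bas_zero (φ : E →ₐ[ℂ] K) : Og φ 0 := by
  intro a P _
  rw [P.ord_zero]

theorem Og.sum {φ : E →ₐ[ℂ] K} {ι : Type} (s : Finset ι) (f : ι → K) (h : ∀ i ∈ s, Og φ (f i)) :
    Og φ (∑ i ∈ s, f i) := by
  classical
  induction s using Finset.induction_on with
  | empty =>
    rw [Finset.sum_empty]
    exact Bas_zero φ
  | insert i s hi ih =>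
    rw [Finset.sum_insert hi]
    exact (h i (Finset.mem_insert_self i s)).add
      (ih fun j hj => h j (Finset.mem_insert_of_mem hj))

/-- The elements regular at all finite places are the elements integral over the polynomials.

Proof.  With `B = integralClosure ℂ[X] K` (setup of the instances as in WV/Bdd.lean `deriv_bdd`): integral
elements are regular at the places with `0 ≤ P.ord (φ X)` (`DInt_integ`).  Conversely let `u` be regular.
For a height one prime `p` of `B` there is a place `P` with `P.v = p.valuation K` (`exists_pl_of_prime`,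
WS/Chart.lean); `φ X` lies in `B`, so `0 ≤ P.ord (φ X)`, and `P ∈ fib φ a` for some `a` (`exists_value`), so
`0 ≤ P.ord u`, i.e. `p.valuation K u ≤ 1` (`Pl.ord_nonneg_iff`).  So `u ∈ B`
(`IsDedekindDomain.HeightOneSpectrum.mem_integers_of_valuation_le_one`). -/
theorem Og_iff {φ : E →ₐ[ℂ] K} (hφ : FinC φ) (u : K) : Og φ u ↔ Integ (φ RatFunc.X) u := by
  refine ⟨fun hu => ?_, fun hu a P hP => DInt_integ P (P.ord_nonneg_of_value hP) hu⟩
  let _ : Algebra E K := φ.toRingHom.toAlgebra
  let _ : Algebra ℂ[X] K := ((algebraMap E K).comp (algebraMap ℂ[X] E)).toAlgebra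
  have _ : IsScalarTower ℂ[X] E K := IsScalarTower.of_algebraMap_eq fun _ => rfl
  have _ : IsScalarTower ℂ ℂ[X] K := IsScalarTower.of_algebraMap_eq fun c => by
    change algebraMap ℂ K c = φ (algebraMap ℂ[X] E (C c))
    rw [← algC_E, coord_C]
  have _ : FiniteDimensional E K := hφ
  have _ : Algebra.IsSeparable E K := inferInstance
  have _ : IsDedekindDomain (integralClosure ℂ[X] K) :=
    integralClosure.isDedekindDomain ℂ[X] E K
  have _ : IsFractionRing (integralClosure ℂ[X] K) K :=
    integralClosure.isFractionRing_of_finite_extension E K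
  have hmap : algebraMap ℂ[X] K = (aeval (φ RatFunc.X) : ℂ[X] →ₐ[ℂ] K).toRingHom := by
    apply RingHom.ext
    intro p
    exact coord_poly φ p
  have hB : ∀ w : K, IsIntegral ℂ[X] w ↔ Integ (φ RatFunc.X) w := by
    intro w
    unfold IsIntegral Integ
    rw [hmap]
  rw [← hB]
  have h1 : u ∈ (algebraMap (integralClosure ℂ[X] K) K).range := by
    refine IsDedekindDomain.HeightOneSpectrum.mem_integers_of_valuation_le_one K u fun v => ?_
    obtain ⟨P, hP⟩ := exists_pl_of_prime (K := K) v
    have h2 : 0 ≤ P.ord (φ RatFunc.X) := by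
      rw [P.ord_nonneg_iff, hP]
      have h3 : φ RatFunc.X = algebraMap (integralClosure ℂ[X] K) K
          (algebraMap ℂ[X] (integralClosure ℂ[X] K) X) := by
        change φ RatFunc.X = φ (algebraMap ℂ[X] E X)
        rw [RatFunc.algebraMap_X]
      rw [h3]
      exact v.valuation_le_one _
    obtain ⟨a, ha⟩ := exists_value φ hφ P h2
    have h4 := hu a P ha
    rw [P.ord_nonneg_iff, hP] at h4
    exact h4
  obtain ⟨w, rfl⟩ := h1
  exact w.2

/-- Proof: `B = integralClosure ℂ[X] K` is a finite torsion-free module over the principal ideal domain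
`ℂ[X]`, hence free, and its rank is `[K : E] = deg φ` (localisation: a basis of `B` over `ℂ[X]` is a basis
of `K` over `E`, for instance `Basis.localizationLocalization` or
`IsIntegralClosure.rank`, `IsLocalization.finrank_eq`...).  `Og_iff`. -/
theorem exists_GB (φ : E →ₐ[ℂ] K) (hφ : FinC φ) : ∃ b : Fin (deg φ) → K, GB φ b := by
  let _ : Algebra E K := φ.toRingHom.toAlgebra
  let _ : Algebra ℂ[X] K := ((algebraMap E K).comp (algebraMap ℂ[X] E)).toAlgebra
  have _ : IsScalarTower ℂ[X] E K := IsScalarTower.of_algebraMap_eq fun _ => rfl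
  have _ : IsScalarTower ℂ ℂ[X] K := IsScalarTower.of_algebraMap_eq fun c => by
    change algebraMap ℂ K c = φ (algebraMap ℂ[X] E (C c))
    rw [← algC_E, coord_C]
  have _ : FiniteDimensional E K := hφ
  have _ : Algebra.IsSeparable E K := inferInstance
  have _ : IsDedekindDomain (integralClosure ℂ[X] K) :=
    integralClosure.isDedekindDomain ℂ[X] E K
  have _ : IsFractionRing (integralClosure ℂ[X] K) K :=
    integralClosure.isFractionRing_of_finite_extension E K
  have hmap : algebraMap ℂ[X] K = (aeval (φ RatFunc.X) : ℂ[X] →ₐ[ℂ] K).toRingHom := by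
    apply RingHom.ext
    intro p
    exact coord_poly φ p
  have hB : ∀ w : K, IsIntegral ℂ[X] w ↔ Integ (φ RatFunc.X) w := by
    intro w
    unfold IsIntegral Integ
    rw [hmap]
  have _ : Module.IsTorsionFree ℂ[X] K :=
    Module.isTorsionFree_iff_algebraMap_injective.2 (by
      change Function.Injective (φ.toRingHom.comp (algebraMap ℂ[X] E))
      exact φ.toRingHom.injective.comp (RatFunc.algebraMap_injective ℂ))
  have _ : Module.Finite ℂ[X] (integralClosure ℂ[X] K) :=
    IsIntegralClosure.finite ℂ[X] E K (integralClosure ℂ[X] K)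
  have _ : Module.Free ℂ[X] (integralClosure ℂ[X] K) :=
    IsIntegralClosure.module_free ℂ[X] E K (integralClosure ℂ[X] K)
  have hrank : Module.finrank ℂ[X] (integralClosure ℂ[X] K) = deg φ :=
    IsIntegralClosure.rank ℂ[X] E K (integralClosure ℂ[X] K)
  let b := Module.finBasisOfFinrankEq ℂ[X] (integralClosure ℂ[X] K) hrank
  have hinj : Function.Injective (algebraMap (integralClosure ℂ[X] K) K) :=
    IsFractionRing.injective (integralClosure ℂ[X] K) K
  have hsmul : ∀ (p : ℂ[X]) (w : integralClosure ℂ[X] K),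
      algebraMap (integralClosure ℂ[X] K) K (p • w) =
        φ (algebraMap ℂ[X] E p) * algebraMap (integralClosure ℂ[X] K) K w := by
    intro p w
    rw [Algebra.smul_def, map_mul]
    rfl
  refine ⟨fun i => algebraMap (integralClosure ℂ[X] K) K (b i), ?_, ?_, ?_⟩
  · intro i
    rw [Og_iff hφ, ← hB]
    exact (b i).2
  · intro u hu
    rw [Og_iff hφ, ← hB] at hu
    refine ⟨fun i => b.repr ⟨u, hu⟩ i, ?_⟩
    have h1 := congrArg (algebraMap (integralClosure ℂ[X] K) K) (b.sum_repr ⟨u, hu⟩)
    rw [map_sum] at h1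
    have h2 : u = algebraMap (integralClosure ℂ[X] K) K ⟨u, hu⟩ := rfl
    refine h2.trans (h1.symm.trans (Finset.sum_congr rfl fun i _ => ?_))
    rw [hsmul]
  · have hli : LinearIndependent ℂ[X]
        (fun i => algebraMap (integralClosure ℂ[X] K) K (b i)) := by
      rw [Fintype.linearIndependent_iff]
      intro g hg i
      have h1 : algebraMap (integralClosure ℂ[X] K) K (∑ i, g i • b i) = 0 := by
        rw [map_sum, ← hg]
        refine Finset.sum_congr rfl fun i _ => ?_
        rw [hsmul, Algebra.smul_def]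
        rfl
      have h2 : ∑ i, g i • b i = 0 := hinj (by rw [h1, map_zero])
      exact Fintype.linearIndependent_iff.1 b.linearIndependent g h2 i
    have hli2 : LinearIndependent E (fun i => algebraMap (integralClosure ℂ[X] K) K (b i)) :=
      (LinearIndependent.iff_fractionRing ℂ[X] E).1 hli
    intro q hq i
    refine Fintype.linearIndependent_iff.1 hli2 q ?_ i
    rw [← hq]
    refine Finset.sum_congr rfl fun i _ => ?_
    rw [Algebra.smul_def]
    rfl

/-- Proof.  By `Product_nonneg` there is a finite set `A` such that `u` is regular over all points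
outside `A`; the places over a point are finitely many (`fibS`), so there is `N` with `-N ≤ P.ord u` for
all places over points of `A`.  Take `h = ∏ a' ∈ A.erase a, (X - a') ^ N`, and use
`ord_coord`, `plE_poly`. -/
theorem exists_clear (φ : E →ₐ[ℂ] K) (hφ : FinC φ) {a : ℂ} {u : K} (hu : Oa φ a u) :
    ∃ h : ℂ[X], h.eval a ≠ 0 ∧ Og φ (φ (algebraMap ℂ[X] E h) * u) := by
  classical
  obtain ⟨A, hA⟩ := Product_nonneg φ hφ u
  set N : ℕ := ∑ c ∈ A, ∑ P ∈ fibS φ hφ c, (P.ord u).natAbs with hN
  have hNle : ∀ c ∈ A, ∀ P ∈ fib φ c, -(N : ℤ) ≤ P.ord u := by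
    intro c hc P hP
    have h1 : (P.ord u).natAbs ≤ ∑ P ∈ fibS φ hφ c, (P.ord u).natAbs :=
      Finset.single_le_sum (f := fun P : Pl K => (P.ord u).natAbs) (fun _ _ => Nat.zero_le _)
        (mem_fibS.2 hP)
    have h2 : ∑ P ∈ fibS φ hφ c, (P.ord u).natAbs ≤ N :=
      Finset.single_le_sum (f := fun c : ℂ => ∑ P ∈ fibS φ hφ c, (P.ord u).natAbs)
        (fun _ _ => Nat.zero_le _) hc
    omega
  have hne : ∏ c ∈ A.erase a, (X - C c) ^ N ≠ 0 :=
    Finset.prod_ne_zero_iff.2 fun c _ => pow_ne_zero _ (X_sub_C_ne_zero c)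
  refine ⟨∏ c ∈ A.erase a, (X - C c) ^ N, ?_, ?_⟩
  · rw [eval_prod]
    refine Finset.prod_ne_zero_iff.2 fun c hc => ?_
    rw [eval_pow, eval_sub, eval_X, eval_C]
    exact pow_ne_zero _ (sub_ne_zero.2 (Finset.ne_of_mem_erase hc).symm)
  · intro c P hP
    have hpoly := Og.poly φ (∏ c ∈ A.erase a, (X - C c) ^ N) c P hP
    by_cases hca : c = a
    · subst hca
      exact P.ord_nonneg_mul hpoly (hu P hP)
    · by_cases hcA : c ∈ A
      · by_cases hu0 : u = 0
        · rw [hu0, mul_zero, P.ord_zero]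
        · have hE : algebraMap ℂ[X] E (∏ c ∈ A.erase a, (X - C c) ^ N) ≠ 0 := by
            rw [Ne, FaithfulSMul.algebraMap_eq_zero_iff]
            exact hne
          have hφE : φ (algebraMap ℂ[X] E (∏ c ∈ A.erase a, (X - C c) ^ N)) ≠ 0 :=
            fun h0 => hE (coord_inj φ (by rw [h0, map_zero]))
          rw [P.ord_mul hφE hu0, ord_coord hP hE, plE_poly c hne]
          have h1 : N ≤ (∏ c ∈ A.erase a, (X - C c) ^ N).rootMultiplicity c := by
            rw [le_rootMultiplicity_iff hne]
            exact Finset.dvd_prod_of_mem (fun c => (X - C c) ^ N)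
              (Finset.mem_erase.2 ⟨hca, hcA⟩)
          have h2 : (0 : ℤ) < P.ord (φ RatFunc.X - algebraMap ℂ K c) := hP
          have h3 := hNle c hcA P hP
          have h4 : (N : ℤ) ≤ ((∏ c ∈ A.erase a, (X - C c) ^ N).rootMultiplicity c : ℤ) := by
            exact_mod_cast h1
          nlinarith
      · exact P.ord_nonneg_mul hpoly (hA c hcA P hP)

/-- The same for an arbitrary element. -/
theorem exists_clear' (φ : E →ₐ[ℂ] K) (hφ : FinC φ) (u : K) :
    ∃ h : ℂ[X], h ≠ 0 ∧ Og φ (φ (algebraMap ℂ[X] E h) * u) := by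
  obtain ⟨A, hA⟩ := Product_nonneg φ hφ u
  obtain ⟨a, ha⟩ := Infinite.exists_notMem_finset A
  obtain ⟨h, h1, h2⟩ := exists_clear φ hφ (a := a) (u := u) (hA a ha)
  exact ⟨h, fun h0 => h1 (by rw [h0, eval_zero]), h2⟩

/-- A global basis is a local basis everywhere.  Proof: `exists_clear`: `u = ∑ φ (p i / h) b i`. -/
theorem GB.lb {φ : E →ₐ[ℂ] K} (hφ : FinC φ) {n : ℕ} {b : Fin n → K} (hb : GB φ b) (a : ℂ) :
    LB φ a b := by
  refine ⟨fun i P hP => hb.reg i a P hP, fun u hu => ?_, hb.indep⟩
  obtain ⟨h, h1, h2⟩ := exists_clear φ hφ hu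
  obtain ⟨p, hp⟩ := hb.span _ h2
  have h0 : h ≠ 0 := fun h0 => h1 (by rw [h0, eval_zero])
  have hE : algebraMap ℂ[X] E h ≠ 0 := by
    rw [Ne, FaithfulSMul.algebraMap_eq_zero_iff]
    exact h0
  have hφE : φ (algebraMap ℂ[X] E h) ≠ 0 := fun h3 => hE (coord_inj φ (by rw [h3, map_zero]))
  refine ⟨fun i => algebraMap ℂ[X] E (p i) / algebraMap ℂ[X] E h, fun i => ?_, ?_⟩
  · show 0 ≤ (plE a).ord (algebraMap ℂ[X] E (p i) / algebraMap ℂ[X] E h)
    by_cases hpi : p i = 0
    · rw [hpi, map_zero, zero_div, Pl.ord_zero]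
    · have hpE : algebraMap ℂ[X] E (p i) ≠ 0 := by
        rw [Ne, FaithfulSMul.algebraMap_eq_zero_iff]
        exact hpi
      rw [Pl.ord_div _ hpE hE, plE_poly a hpi, plE_poly a h0,
        rootMultiplicity_eq_zero (p := h) (x := a) h1]
      simp
  · have h3 : u = (φ (algebraMap ℂ[X] E h))⁻¹ * (φ (algebraMap ℂ[X] E h) * u) := by
      rw [← mul_assoc, inv_mul_cancel₀ hφE, one_mul]
    rw [h3, hp, Finset.mul_sum]
    refine Finset.sum_congr rfl fun i _ => ?_
    rw [map_div₀, div_eq_inv_mul, mul_assoc]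

end WildG
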