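import Pool.Agent.helper21.GN.Ram
import Pool.Agent.helper44.Wild.Quartic

/-! Function fields of degree at most two over `ℂ(x)`. -/

namespace WildG

open Polynomial WildRat WildS WildV

variable {K : Type} [Field K] [Algebra ℂ K]

private theorem QuadF_finrank {χ : E →ₐ[ℂ] K} :
    deg χ = @Module.finrank E K _ _ χ.toRingHom.toAlgebra.toModule := rfl

/-- If the degree is at least two, `χ` is not surjective. -/
private theorem QuadF_out {χ : E →ₐ[ℂ] K} (h : deg χ ≠ 1) : ∃ u : K, ∀ p : E, u ≠ χ p := by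
  by_contra hcon
  push Not at hcon
  apply h
  let _ : Algebra E K := χ.toRingHom.toAlgebra
  change Module.finrank E K = 1
  rw [finrank_eq_one_iff_of_nonzero' (1 : K) one_ne_zero]
  intro w
  obtain ⟨p, hp⟩ := hcon w
  refine ⟨p, ?_⟩
  rw [Algebra.smul_def, mul_one]
  exact hp.symm

/-- In degree two, `1` and an element outside the range generate. -/
private theorem QuadF_gen {χ : E →ₐ[ℂ] K} (hχ : FinC χ) (h : deg χ = 2) {w : K}
    (hw : ∀ p : E, w ≠ χ p) (u : K) : ∃ p q : E, u = χ p + χ q * w := by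
  let _ : Algebra E K := χ.toRingHom.toAlgebra
  have hfd : FiniteDimensional E K := hχ
  have hfr : Module.finrank E K = 2 := h
  have hsm : ∀ (a : E) (v : K), a • v = χ a * v := fun a v => Algebra.smul_def a v
  have hli : LinearIndependent E ![(1 : K), w] := by
    rw [LinearIndependent.pair_iff]
    intro a b hab
    rw [hsm, hsm, mul_one] at hab
    by_cases hb : b = 0
    · subst hb
      rw [map_zero, zero_mul, add_zero] at hab
      refine ⟨?_, rfl⟩
      rw [← map_zero χ] at hab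
      exact coord_inj χ hab
    · exfalso
      apply hw (-(a / b))
      have hb' : χ b ≠ 0 := by
        rw [_root_.map_ne_zero]
        exact hb
      rw [map_neg, map_div₀]
      field_simp
      linear_combination hab
  have hspan := hli.span_eq_top_of_card_eq_finrank (by rw [hfr]; rfl)
  have hu : u ∈ Submodule.span E (Set.range ![(1 : K), w]) := by
    rw [hspan]
    exact Submodule.mem_top
  rw [Matrix.range_cons, Matrix.range_cons, Matrix.range_empty, Set.union_empty] at hu
  rw [← Set.insert_eq, Submodule.mem_span_pair] at hu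
  obtain ⟨a, b, hab⟩ := hu
  rw [hsm, hsm, mul_one] at hab
  exact ⟨a, b, hab.symm⟩

/-- Degree one: `K = ℂ(x)`.  Proof: `χ` is injective (`coord_inj`) and surjective
(`Module.finrank E K = 1`, `finrank_eq_one_iff'` or `Subalgebra.bot_eq_top_of_finrank_eq_one`). -/
theorem deg_one_iso {χ : E →ₐ[ℂ] K} (h : deg χ = 1) : Nonempty (K ≃ₐ[ℂ] E) := by
  have hsurj : Function.Surjective χ := by
    let _ : Algebra E K := χ.toRingHom.toAlgebra
    have hfr : Module.finrank E K = 1 := h
    rw [finrank_eq_one_iff_of_nonzero' (1 : K) one_ne_zero] at hfr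
    intro w
    obtain ⟨c, hc⟩ := hfr w
    refine ⟨c, ?_⟩
    rw [Algebra.smul_def, mul_one] at hc
    exact hc
  exact ⟨(AlgEquiv.ofBijective χ ⟨coord_inj χ, hsurj⟩).symm⟩

/-- Degree two: `K = ℂ(x)(w)`, `w ^ 2 = f(x)` with `f` squarefree.

Proof.  Take `u0` outside the range of `χ` (if there is none, `deg χ = 1`).  `1, u0, u0 ^ 2` are
linearly dependent over `E` (degree two) and `1, u0` independent, so `u0 ^ 2 = χ b * u0 + χ c`; put
`w0 = u0 - χ b / 2`, `w0 ^ 2 = χ (c + b ^ 2 / 4) = χ h0`, `h0 ≠ 0`.  Write `h0 = p / q` with polynomials;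
`(q w0) ^ 2 = χ (p q)`.  Write `p q = g ^ 2 f` with `f` squarefree (`Nat`-style:
`exists_squarefree_mul_sq`-like statement for polynomials, or: choose the polynomial `f ≠ 0` of least
degree such that `χ f` is the square of an element outside the range; it is squarefree, since
`f = r ^ 2 f1` allows to replace `f` by `f1`).  `w = q w0 / g`.  `1, w` is a basis. -/
theorem exists_sqrt {χ : E →ₐ[ℂ] K} (hχ : FinC χ) (h : deg χ = 2) :
    ∃ (f : ℂ[X]) (w : K), Squarefree f ∧ w ^ 2 = χ (algebraMap ℂ[X] E f) ∧ (∀ p : E, w ≠ χ p) ∧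
      ∀ u : K, ∃ p q : E, u = χ p + χ q * w := by
  classical
  have hch : CharZero K := charZero_of_injective_algebraMap (algebraMap ℂ K).injective
  have h20 : (2 : K) ≠ 0 := two_ne_zero
  have h40 : (4 : K) ≠ 0 := by exact_mod_cast (Nat.cast_ne_zero (R := K)).2 (show 4 ≠ 0 by decide)
  obtain ⟨u₀, hu₀⟩ := QuadF_out (χ := χ) (by omega)
  obtain ⟨c, b, hcb⟩ := QuadF_gen hχ h hu₀ (u₀ ^ 2)
  -- completing the square
  set w₀ : K := u₀ - χ (b / 2) with hw₀
  have hb2 : χ (b / 2) = χ b / 2 := by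
    rw [map_div₀, map_ofNat]
  have hw₀sq : w₀ ^ 2 = χ (c + b ^ 2 / 4) := by
    have e1 : χ (c + b ^ 2 / 4) = χ c + χ b ^ 2 / 4 := by
      rw [map_add, map_div₀, map_pow, map_ofNat]
    rw [e1, hw₀, hb2, sub_sq, hcb]
    field_simp
    ring
  have hw₀out : ∀ p : E, w₀ ≠ χ p := by
    intro p hp
    apply hu₀ (p + b / 2)
    rw [map_add, ← hp, hw₀]
    ring
  have hw₀0 : w₀ ≠ 0 := by
    have := hw₀out 0
    rwa [map_zero] at this
  set h₀ : E := c + b ^ 2 / 4 with hh₀
  have hh₀0 : h₀ ≠ 0 := by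
    intro h0
    rw [h0, map_zero] at hw₀sq
    exact hw₀0 (pow_eq_zero_iff two_ne_zero |>.1 hw₀sq)
  -- the polynomials whose image is a square
  have hex : ∃ m : ℕ, ∃ (f : ℂ[X]) (w : K), f.natDegree = m ∧ f ≠ 0 ∧
      w ^ 2 = χ (algebraMap ℂ[X] E f) ∧ ∀ p : E, w ≠ χ p := by
    set N : ℂ[X] := RatFunc.num h₀ with hN
    set Dn : ℂ[X] := RatFunc.denom h₀ with hDn
    have hD0 : Dn ≠ 0 := RatFunc.denom_ne_zero h₀
    have hN0 : N ≠ 0 := RatFunc.num_ne_zero hh₀0
    have hD0' : algebraMap ℂ[X] E Dn ≠ 0 :=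
      (map_ne_zero_iff _ (RatFunc.algebraMap_injective ℂ)).2 hD0
    have hχD : χ (algebraMap ℂ[X] E Dn) ≠ 0 := by
      rw [_root_.map_ne_zero]
      exact hD0'
    refine ⟨_, N * Dn, χ (algebraMap ℂ[X] E Dn) * w₀, rfl, mul_ne_zero hN0 hD0, ?_, ?_⟩
    · rw [mul_pow, hw₀sq, ← map_pow, ← map_mul]
      congr 1
      have h3 : algebraMap ℂ[X] E N / algebraMap ℂ[X] E Dn = h₀ := RatFunc.num_div_denom h₀
      rw [map_mul, ← h3]
      field_simp
    · intro p hp
      apply hw₀out (p / algebraMap ℂ[X] E Dn)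
      rw [map_div₀, ← hp]
      field_simp
  obtain ⟨f, w, hfm, hf0, hwf, hwout⟩ := Nat.find_spec hex
  have hmin : ∀ (g : ℂ[X]) (v : K), g ≠ 0 → v ^ 2 = χ (algebraMap ℂ[X] E g) →
      (∀ p : E, v ≠ χ p) → f.natDegree ≤ g.natDegree := by
    intro g v hg hv hvo
    rw [hfm]
    exact Nat.find_min' hex ⟨g, v, rfl, hg, hv, hvo⟩
  refine ⟨f, w, ?_, hwf, hwout, fun u => QuadF_gen hχ h hwout u⟩
  intro r hr
  obtain ⟨f1, hf1⟩ := hr
  have hr0 : r ≠ 0 := by
    rintro rfl
    rw [zero_mul, zero_mul] at hf1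
    exact hf0 hf1
  have hf10 : f1 ≠ 0 := by
    rintro rfl
    rw [mul_zero] at hf1
    exact hf0 hf1
  have hr0' : algebraMap ℂ[X] E r ≠ 0 :=
    (map_ne_zero_iff _ (RatFunc.algebraMap_injective ℂ)).2 hr0
  have hχr : χ (algebraMap ℂ[X] E r) ≠ 0 := by
    rw [_root_.map_ne_zero]
    exact hr0'
  have h1 := hmin f1 (w / χ (algebraMap ℂ[X] E r)) hf10 (by
    rw [div_pow, hwf, hf1, map_mul, map_mul, map_mul, map_mul]
    field_simp) (by
    intro p hp
    apply hwout (p * algebraMap ℂ[X] E r)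
    rw [map_mul, ← hp]
    field_simp)
  rw [hf1, natDegree_mul (mul_ne_zero hr0 hr0) hf10, natDegree_mul hr0 hr0] at h1
  have h2 : r.natDegree = 0 := by omega
  obtain ⟨a, ha⟩ := natDegree_eq_zero.1 h2
  rw [← ha, isUnit_C, isUnit_iff_ne_zero]
  rintro rfl
  rw [map_zero] at ha
  exact hr0 ha.symm

/-- The number of branch points.

Proof.  For every root `a` of `f` (a simple root, as `f` is squarefree) there is a place `P` over `a`
(`sum_self`, `deg_pos`: the sum is `deg χ > 0`), and `2 P.ord w = P.ord (χ f) = ram χ P` (`ord_coord`,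
`plE_poly`, root multiplicity one, `ram_fib`), so `ram χ P ≥ 2` (it is even and positive).  Let `T` be the
set of these places, one for every root (they are distinct, `Pl.value_unique`).  So
`card roots ≤ ∑ P ∈ T, (ram χ P - 1) ≤ 2 deg χ = 4`, and `f` has `natDegree` many roots
(`Squarefree`, `ℂ` algebraically closed: `roots` has no duplicates and card `natDegree`). -/
theorem sqrt_deg {χ : E →ₐ[ℂ] K} (hχ : FinC χ) (h2 : deg χ = 2) (hg : GenusLe χ) {f : ℂ[X]}
    (hf : Squarefree f) {w : K} (hw : w ^ 2 = χ (algebraMap ℂ[X] E f)) : f.natDegree ≤ 4 := by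
  classical
  have hf0 : f ≠ 0 := hf.ne_zero
  have hsep : f.Separable := PerfectField.separable_iff_squarefree.2 hf
  have hf0' : algebraMap ℂ[X] E f ≠ 0 :=
    (map_ne_zero_iff _ (RatFunc.algebraMap_injective ℂ)).2 hf0
  have hχf : χ (algebraMap ℂ[X] E f) ≠ 0 := by
    rw [_root_.map_ne_zero]
    exact hf0'
  have hw0 : w ≠ 0 := by
    rintro rfl
    rw [zero_pow two_ne_zero] at hw
    exact hχf hw.symm
  have hpl : ∀ a : ℂ, ∃ P : Pl K, P ∈ fib χ a := by
    intro a
    have h1 := sum_self χ hχ a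
    have h3 := deg_pos hχ
    have h4 : (fibS χ hχ a).Nonempty := by
      rw [Finset.nonempty_iff_ne_empty]
      intro h5
      rw [h5, Finset.sum_empty] at h1
      omega
    obtain ⟨P, hP⟩ := h4
    exact ⟨P, mem_fibS.1 hP⟩
  choose Q hQ using hpl
  have hinj : Function.Injective Q := by
    intro a b hab
    have h1 := hQ a
    have h3 := hQ b
    rw [hab] at h1
    exact (Q b).value_unique h1 h3
  have hram : ∀ a ∈ f.roots.toFinset, 2 ≤ ram χ (Q a) := by
    intro a ha
    have hroot : f.IsRoot a := (mem_roots hf0).1 (Multiset.mem_toFinset.1 ha)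
    have hm : f.rootMultiplicity a = 1 :=
      le_antisymm (rootMultiplicity_le_one_of_separable hsep a)
        ((rootMultiplicity_pos hf0).2 hroot)
    have h1 := ord_coord (hQ a) hf0'
    rw [plE_poly a hf0, hm, ← hw, (Q a).ord_pow, ← ram_fib (hQ a)] at h1
    have h3 := ram_pos hχ (Q a)
    push_cast at h1
    omega
  have hcard : (f.roots.toFinset).card = f.natDegree := by
    rw [Multiset.toFinset_card_of_nodup (nodup_roots hsep)]
    exact IsAlgClosed.card_roots_eq_natDegree
  have hT := hg (f.roots.toFinset.image Q)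
  rw [Finset.sum_image fun x _ y _ hxy => hinj hxy, h2] at hT
  have h5 : ((f.roots.toFinset).card : ℤ) ≤ ∑ a ∈ f.roots.toFinset, (ram χ (Q a) - 1) := by
    rw [Finset.card_eq_sum_ones, Nat.cast_sum]
    refine Finset.sum_le_sum fun a ha => ?_
    have := hram a ha
    push_cast
    omega
  rw [hcard] at h5
  omega

/-- Homomorphisms from `K = ℂ(x)(w)`.

Proof.  Let `ζ : E →ₐ[ℂ] L`, `ζ X = x'` (`exists_subst`).  Every `u` is `χ p + χ q * w` with unique `p`, `q`
(`w` is not in the range), the map `u ↦ ζ p + ζ q * w'` is a homomorphism of algebras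
(`w ^ 2 = χ f`, `w' ^ 2 = ζ f = aeval x' f`).  (Either directly, or through `QuadraticAlgebra.lift`, or
`AdjoinRoot.lift` for `Y ^ 2 - f`.) -/
theorem quad_hom {χ : E →ₐ[ℂ] K} {f : ℂ[X]} {w : K} (hw : w ^ 2 = χ (algebraMap ℂ[X] E f))
    (hne : ∀ p : E, w ≠ χ p) (hgen : ∀ u : K, ∃ p q : E, u = χ p + χ q * w) {L : Type} [Field L]
    [Algebra ℂ L] {x' w' : L} (hx : NonConst x') (hw' : w' ^ 2 = aeval x' f) :
    Nonempty (K →ₐ[ℂ] L) := by
  obtain ⟨ζ, hζ⟩ := exists_subst hx
  have huniq : ∀ p q p' q' : E, χ p + χ q * w = χ p' + χ q' * w → p = p' ∧ q = q' := by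
    intro p q p' q' h
    by_cases hq : q = q'
    · refine ⟨?_, hq⟩
      rw [hq] at h
      exact coord_inj χ (add_right_cancel h)
    · exfalso
      have hq' : χ (q' - q) ≠ 0 := by
        rw [_root_.map_ne_zero]
        exact sub_ne_zero.2 (Ne.symm hq)
      apply hne ((p - p') / (q' - q))
      rw [map_div₀, eq_div_iff hq', map_sub, map_sub]
      linear_combination -h
  choose p q hpq using hgen
  have hF : ∀ a b : E, p (χ a + χ b * w) = a ∧ q (χ a + χ b * w) = b := by
    intro a b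
    have h1 := huniq _ _ _ _ (hpq (χ a + χ b * w))
    exact ⟨h1.1.symm, h1.2.symm⟩
  have hζf : w' ^ 2 = ζ (algebraMap ℂ[X] E f) := by
    rw [hw', coord_poly, hζ]
  have hone : (1 : K) = χ 1 + χ 0 * w := by
    rw [map_one, map_zero, zero_mul, add_zero]
  have hzero : (0 : K) = χ 0 + χ 0 * w := by
    rw [map_zero, zero_mul, add_zero]
  have hmul : ∀ u v : K, u * v = χ (p u * p v + q u * q v * algebraMap ℂ[X] E f) +
      χ (p u * q v + q u * p v) * w := by
    intro u v
    conv_lhs => rw [hpq u, hpq v]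
    rw [map_add, map_add, map_mul, map_mul, map_mul, map_mul, map_mul, ← hw]
    ring
  have hadd : ∀ u v : K, u + v = χ (p u + p v) + χ (q u + q v) * w := by
    intro u v
    conv_lhs => rw [hpq u, hpq v]
    rw [map_add, map_add]
    ring
  refine ⟨{ toFun := fun u => ζ (p u) + ζ (q u) * w'
            map_one' := ?_
            map_mul' := ?_
            map_zero' := ?_
            map_add' := ?_
            commutes' := ?_ }⟩
  · rw [hone, (hF 1 0).1, (hF 1 0).2, map_one, map_zero, zero_mul, add_zero]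
  · intro u v
    rw [hmul u v, (hF _ _).1, (hF _ _).2, map_add, map_add, map_mul, map_mul, map_mul, map_mul,
      map_mul, ← hζf]
    ring
  · rw [hzero, (hF 0 0).1, (hF 0 0).2, map_zero, zero_mul, add_zero]
  · intro u v
    rw [hadd u v, (hF _ _).1, (hF _ _).2, map_add, map_add]
    ring
  · intro c
    have hc : algebraMap ℂ K c = χ (algebraMap ℂ E c) + χ 0 * w := by
      rw [map_zero, zero_mul, add_zero, coord_C]
    rw [hc, (hF _ _).1, (hF _ _).2, map_zero, zero_mul, add_zero, coord_C]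

/-- Proof: `exists_sqrt`, `sqrt_deg`, `sq_all` (helper44/Wild/Quartic.lean), `quad_hom`; for the
second alternative the field structure on `KF g` comes from `kf_fact` (see
`main_hard1` in helper21/WV/Final.lean for the instance). -/
theorem deg_two_hom {χ : E →ₐ[ℂ] K} (hχ : FinC χ) (h2 : deg χ = 2) (hg : GenusLe χ) :
    Nonempty (K →ₐ[ℂ] E) ∨
      ∃ f : ℂ[X], f.natDegree = 3 ∧ Squarefree f ∧ Nonempty (K →ₐ[ℂ] KF f) := by
  obtain ⟨f, w, hf, hw, hne, hgen⟩ := exists_sqrt hχ h2
  have h4 := sqrt_deg hχ h2 hg hf hw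
  rcases sq_all f hf.ne_zero h4 with ⟨x', w', hx, hw'⟩ | ⟨g, hg3, hgs, x', w', hx, hw'⟩
  · exact Or.inl (quad_hom hw hne hgen hx hw')
  · have := kf_fact g (by rw [hg3]; decide)
    exact Or.inr ⟨g, hg3, hgs, quad_hom hw hne hgen hx hw'⟩

end WildG
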