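import Pool.Agent.helper21.GN.Riem
import Pool.Agent.helper21.GN.QuadF

/-! Function fields with `2g - 2 ≤ 0`. -/

namespace WildG

open Polynomial WildRat WildS WildV

variable {K : Type} [Field K] [Algebra ℂ K]

/-- **A function field with `2g - 2 ≤ 0` embeds into `ℂ(x)` or into the function field of a
nonsingular cubic.** -/
theorem genus_le_one {φ : E →ₐ[ℂ] K} (hφ : FinC φ) (h : GenusLe φ) :
    Nonempty (K →ₐ[ℂ] E) ∨
      ∃ f : ℂ[X], f.natDegree = 3 ∧ Squarefree f ∧ Nonempty (K →ₐ[ℂ] KF f) := by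
  obtain ⟨χ, hχ, hd⟩ := exists_deg_two hφ h
  have hpos := deg_pos hχ
  rcases Nat.lt_or_ge (deg χ) 2 with h1 | h1
  · obtain ⟨e⟩ := deg_one_iso (χ := χ) (by omega)
    exact Or.inl ⟨e.toAlgHom⟩
  · exact deg_two_hom hχ (by omega) (h.other hφ)

private theorem Genus_sol {A : RF} (hn : 1 ≤ A.n) {φ ψ : E →ₐ[ℂ] K} (hne : φ ≠ ψ)
    (hA : φ (elt A) = ψ (elt A)) {L : Type} [Field L] [Algebra ℂ L] (θ : K →ₐ[ℂ] L) :
    A.SolIn L := by
  have hU : NonConst ((θ.comp φ) RatFunc.X) := coord_nonConst (θ.comp φ)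
  have hV : NonConst ((θ.comp ψ) RatFunc.X) := coord_nonConst (θ.comp ψ)
  refine ⟨(θ.comp φ) RatFunc.X, (θ.comp ψ) RatFunc.X, hU, ?_, ?_⟩
  · intro h
    exact coord_ne hne (θ.toRingHom.injective h)
  · have h1 : (θ.comp φ) (elt A) = (θ.comp ψ) (elt A) := congrArg θ hA
    rw [coord_elt, coord_elt] at h1
    unfold RF.app at h1
    have hQ : A.Q ≠ 0 := A.Q_ne_zero hn
    rw [div_eq_div_iff (hU.aeval_ne_zero hQ) (hV.aeval_ne_zero hQ)] at h1
    exact h1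

/-- A pair of distinct coordinates with `φ (elt A) = ψ (elt A)` on a field with `2g - 2 ≤ 0` makes `A`
wild.

Proof.  `genus_le_one` gives `θ : K →ₐ[ℂ] E` or `K →ₐ[ℂ] KF f`, injective (`K` is a field and the target is
nontrivial), and `U = θ (φ X)`, `V = θ (ψ X)` is a solution: `U` is not constant, `U ≠ V`
(`coord_ext`), and `P(U) Q(V) = P(V) Q(U)` from `coord_elt` (clear the denominators
`aeval (φ X) A.Q ≠ 0`). -/
theorem wild_of_pair {A : RF} (hn : 1 ≤ A.n) {φ ψ : E →ₐ[ℂ] K} (hφ : FinC φ) (h : GenusLe φ)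
    (hne : φ ≠ ψ) (hA : φ (elt A) = ψ (elt A)) : A.Wild := by
  rcases genus_le_one hφ h with ⟨⟨θ⟩⟩ | ⟨f, hf3, hsq, ⟨θ⟩⟩
  · exact Or.inl (Genus_sol hn hne hA θ)
  · have := kf_fact f (by rw [hf3]; decide)
    exact Or.inr ⟨f, hf3, hsq, Genus_sol hn hne hA θ⟩

end WildG
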