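import Pool.Agent.helper21.GN.Riem

/-! The genus is not negative. author: helper11 -/

namespace WildG

open Polynomial WildRat WildS WildV

variable {K : Type} [Field K] [Algebra ℂ K]

/-- An element without poles is constant.  Proof: if `u` is not constant, it is `χ X` for a finite
coordinate `χ` (`exists_subst`, `finC_all`), which has a pole (`sum_poles`, `deg_pos`).  For the
places over finite points use `Og`, for the places over infinity the bound with `k = 0`
(`exists_value` for the case distinction). -/
theorem Lk_zero_const {φ : E →ₐ[ℂ] K} (hφ : FinC φ) {u : K} (hu : Lk φ 0 u) :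
    ∃ c : ℂ, u = algebraMap ℂ K c := by
  classical
  by_contra hcon
  have hnc : NonConst u := fun c hc => hcon ⟨c, hc⟩
  obtain ⟨χ, hχ⟩ := exists_subst hnc
  have hχf : FinC χ := finC_all φ hφ χ
  have hχi : FinC (χ.comp invE) := finC_comp hχf finC_invE
  have h1 := sum_poles χ hχf hχi
  have hemp : fibS (χ.comp invE) hχi 0 = ∅ := by
    rw [Finset.eq_empty_iff_forall_notMem]
    intro P hP
    have h2 : P.ord (χ RatFunc.X) < 0 := (mem_fib_inv χ P).1 (mem_fibS.1 hP)
    rw [hχ] at h2
    rcases lt_or_ge (P.ord (φ RatFunc.X)) 0 with h3 | h3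
    · have h4 := hu.2 P h3
      rw [Nat.cast_zero, zero_mul] at h4
      omega
    · obtain ⟨a, ha⟩ := exists_value φ hφ P h3
      have h4 := hu.1 a P ha
      omega
  rw [hemp, Finset.sum_empty] at h1
  have h2 := deg_pos hχf
  omega

/-- At most one of the degrees of a reduced basis is zero.  Proof: if `d i = d j = 0`, then `b i`, `b j` are
constants (`Lk_zero_const`), nonzero, so a linear relation with constant coefficients contradicts
`GB.indep`. -/
theorem RB_zero {φ : E →ₐ[ℂ] K} (hφ : FinC φ) {n : ℕ} {b : Fin n → K} {d : Fin n → ℕ}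
    (h : RB φ b d) {i j : Fin n} (hi : d i = 0) (hj : d j = 0) : i = j := by
  classical
  have hne : ∀ k, b k ≠ 0 := by
    intro k hk
    have h1 := h.gb.indep (Pi.single k 1) (by
      rw [Finset.sum_eq_single k]
      · rw [hk, mul_zero]
      · intro l _ hl
        rw [Pi.single_eq_of_ne hl, map_zero, zero_mul]
      · intro h2
        exact absurd (Finset.mem_univ _) h2) k
    rw [Pi.single_eq_same] at h1
    exact one_ne_zero h1
  obtain ⟨c, hc⟩ := Lk_zero_const hφ (by have := h.mem i; rwa [hi] at this)
  obtain ⟨c', hc'⟩ := Lk_zero_const hφ (by have := h.mem j; rwa [hj] at this)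
  by_contra hij
  have h1 := h.gb.indep (Pi.single i (algebraMap ℂ E c') + Pi.single j (-algebraMap ℂ E c)) (by
    have e : ∀ k, φ ((Pi.single i (algebraMap ℂ E c') + Pi.single j (-algebraMap ℂ E c) :
        Fin n → E) k) * b k = φ ((Pi.single i (algebraMap ℂ E c') : Fin n → E) k) * b k +
        φ ((Pi.single j (-algebraMap ℂ E c) : Fin n → E) k) * b k := by
      intro k
      rw [Pi.add_apply, map_add, add_mul]
    simp only [e]
    rw [Finset.sum_add_distrib, Finset.sum_eq_single i, Finset.sum_eq_single j, Pi.single_eq_same,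
      Pi.single_eq_same, map_neg, coord_C, coord_C, hc, hc']
    · ring
    · intro l _ hl
      rw [Pi.single_eq_of_ne hl, map_zero, zero_mul]
    · intro h2
      exact absurd (Finset.mem_univ _) h2
    · intro l _ hl
      rw [Pi.single_eq_of_ne hl, map_zero, zero_mul]
    · intro h2
      exact absurd (Finset.mem_univ _) h2) i
  rw [Pi.add_apply, Pi.single_eq_same, Pi.single_eq_of_ne hij, add_zero] at h1
  apply hne j
  rw [hc']
  rw [map_eq_zero] at h1
  rw [h1, map_zero]

/-- **The genus is not negative.**  Proof: `exists_RB`, `RB.sum`, and `∑ d i ≥ n - 1` with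
`n = deg φ` (`RB_zero`). -/
theorem genus_nonneg {φ : E →ₐ[ℂ] K} (hφ : FinC φ) :
    ∃ T : Finset (Pl K), 2 * (deg φ : ℤ) - 2 ≤ ∑ P ∈ T, (ram φ P - 1) := by
  classical
  obtain ⟨b, d, hb⟩ := exists_RB φ hφ
  obtain ⟨T, hT⟩ := RB.sum hφ hb
  have h1 : deg φ ≤ (∑ i, d i) + 1 := by
    have h2 : (Finset.univ.filter fun i => d i = 0).card ≤ 1 := by
      rw [Finset.card_le_one]
      intro i hi j hj
      exact RB_zero hφ hb (Finset.mem_filter.1 hi).2 (Finset.mem_filter.1 hj).2
    have h3 : ∑ i : Fin (deg φ), 1 ≤ ∑ i, (d i + if d i = 0 then 1 else 0) :=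
      Finset.sum_le_sum fun i _ => by
        by_cases h4 : d i = 0
        · rw [if_pos h4]
          omega
        · rw [if_neg h4]
          omega
    rw [Finset.sum_add_distrib, Finset.sum_const, Finset.card_univ, Fintype.card_fin,
      smul_eq_mul, mul_one, ← Finset.card_filter] at h3
    omega
  refine ⟨T, ?_⟩
  have h2 : (deg φ : ℤ) ≤ (∑ i, (d i : ℤ)) + 1 := by exact_mod_cast h1
  rw [← hT]
  linarith

end WildG
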