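import Pool.Agent.helper21.WV.Bdd

/-!
# Genus theory for function fields of genus at most one (helper21, MP_11236d_an, stage 3)

The ramification number of a coordinate at a place.
-/

namespace WildG

open Polynomial WildRat WildS WildV

variable {K : Type} [Field K] [Algebra ℂ K]

open Classical in
/-- The ramification number of the coordinate `φ` at the place `P`: the order of `φ X - a` if `φ X` has
the finite value `a` at `P`, and the pole order otherwise. -/
noncomputable def ram (φ : E →ₐ[ℂ] K) (P : Pl K) : ℤ :=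
  if h : ∃ a, P ∈ fib φ a then P.ord (φ RatFunc.X - algebraMap ℂ K h.choose)
  else - P.ord (φ RatFunc.X)

/-- Proof: `Pl.value_unique`. -/
theorem ram_fib {φ : E →ₐ[ℂ] K} {P : Pl K} {a : ℂ} (h : P ∈ fib φ a) :
    ram φ P = P.ord (φ RatFunc.X - algebraMap ℂ K a) := by
  have hex : ∃ a, P ∈ fib φ a := ⟨a, h⟩
  have h1 : P ∈ fib φ hex.choose := hex.choose_spec
  have h2 : hex.choose = a := P.value_unique h1 h
  unfold ram
  rw [dif_pos hex, h2]

/-- Proof: at a pole there is no value (`Pl.ord_nonneg_of_value`). -/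
theorem ram_pole {φ : E →ₐ[ℂ] K} {P : Pl K} (h : P.ord (φ RatFunc.X) < 0) :
    ram φ P = - P.ord (φ RatFunc.X) := by
  have hex : ¬ ∃ a, P ∈ fib φ a := by
    rintro ⟨a, ha⟩
    have h1 : 0 ≤ P.ord (φ RatFunc.X) := P.ord_nonneg_of_value ha
    omega
  unfold ram
  rw [dif_neg hex]

/-- Proof: `exists_value`. -/
theorem ram_pos {φ : E →ₐ[ℂ] K} (hφ : FinC φ) (P : Pl K) : 1 ≤ ram φ P := by
  rcases le_or_gt 0 (P.ord (φ RatFunc.X)) with h | h
  · obtain ⟨a, ha⟩ := exists_value φ hφ P h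
    rw [ram_fib ha]
    have h1 : 0 < P.ord (φ RatFunc.X - algebraMap ℂ K a) := ha
    omega
  · rw [ram_pole h]
    omega

/-- The coordinate `1 / x` has the same ramification numbers.  Proof: if `x` has the value `a ≠ 0`, then
`1 / x - 1 / a = - (x - a) / (a x)`; value zero and pole are exchanged. -/
theorem ram_inv {φ : E →ₐ[ℂ] K} (hφ : FinC φ) (P : Pl K) : ram (φ.comp invE) P = ram φ P := by
  have hX : (φ.comp invE) RatFunc.X = (φ RatFunc.X)⁻¹ := by
    rw [AlgHom.comp_apply, invE_X, map_inv₀]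
  rcases le_or_gt 0 (P.ord (φ RatFunc.X)) with h | h
  · obtain ⟨a, ha⟩ := exists_value φ hφ P h
    have ha' : 0 < P.ord (φ RatFunc.X - algebraMap ℂ K a) := ha
    rw [ram_fib ha]
    by_cases h0 : a = 0
    · subst h0
      rw [map_zero, sub_zero] at ha' ⊢
      rw [ram_pole (by rw [hX, P.ord_inv]; omega), hX, P.ord_inv, neg_neg]
    · obtain ⟨hx0, hx⟩ := P.ord_sub_of_ne ha' h0
      rw [map_zero, sub_zero] at hx0 hx
      have hc : algebraMap ℂ K a ≠ 0 := by
        rw [_root_.map_ne_zero]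
        exact h0
      have hsub : φ RatFunc.X - algebraMap ℂ K a ≠ 0 := coord_sub_ne φ a
      have e1 : (φ.comp invE) RatFunc.X - algebraMap ℂ K a⁻¹ =
          -(φ RatFunc.X - algebraMap ℂ K a) / (algebraMap ℂ K a * φ RatFunc.X) := by
        rw [hX, map_inv₀]
        field_simp
        ring
      have e2 : P.ord ((φ.comp invE) RatFunc.X - algebraMap ℂ K a⁻¹) =
          P.ord (φ RatFunc.X - algebraMap ℂ K a) := by
        rw [e1, P.ord_div (neg_ne_zero.2 hsub) (mul_ne_zero hc hx0), P.ord_neg,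
          P.ord_mul hc hx0, P.ord_C, hx]
        ring
      have hmem : P ∈ fib (φ.comp invE) a⁻¹ := by
        change 0 < P.ord ((φ.comp invE) RatFunc.X - algebraMap ℂ K a⁻¹)
        rw [e2]
        exact ha'
      rw [ram_fib hmem, e2]
  · rw [ram_pole h, ram_fib ((mem_fib_inv φ P).2 h), map_zero, sub_zero, hX, P.ord_inv]

/-- The genus defined through the coordinate `φ` is at most one. -/
def GenusLe (φ : E →ₐ[ℂ] K) : Prop :=
  ∀ T : Finset (Pl K), ∑ P ∈ T, (ram φ P - 1) ≤ 2 * (deg φ : ℤ)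

/-- The exponents of the derivation `d / dx`: with `D (φ X) = 1` and the number `κ` of `exists_kappa`
at `P`: `κ = 1 - ram φ P` if `φ X` is finite at `P`, `κ = 1 + ram φ P` at a pole.

Proof: apply the first property of `κ` to `φ X - a` (`D (φ X - a) = 1`), respectively to `φ X`. -/
theorem ram_kappa {φ : E →ₐ[ℂ] K} (hφ : FinC φ) (D : Derivation ℂ K K)
    (hD : D (φ RatFunc.X) = 1) (P : Pl K) {κ : ℤ}
    (hκ : ∀ u : K, u ≠ 0 → P.ord u ≠ 0 → D u ≠ 0 ∧ P.ord (D u) = P.ord u - 1 + κ) :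
    (0 ≤ P.ord (φ RatFunc.X) → κ = 1 - ram φ P) ∧
    (P.ord (φ RatFunc.X) < 0 → κ = 1 + ram φ P) := by
  constructor
  · intro h
    obtain ⟨a, ha⟩ := exists_value φ hφ P h
    have ha' : 0 < P.ord (φ RatFunc.X - algebraMap ℂ K a) := ha
    have h1 := (hκ _ (coord_sub_ne φ a) ha'.ne').2
    rw [map_sub, D.map_algebraMap, sub_zero, hD, P.ord_one] at h1
    rw [ram_fib ha]
    omega
  · intro h
    have h0 : φ RatFunc.X ≠ 0 := by
      intro h0
      rw [h0, P.ord_zero] at h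
      exact lt_irrefl _ h
    have h1 := (hκ _ h0 h.ne).2
    rw [hD, P.ord_one] at h1
    rw [ram_pole h]
    omega

/-- The number `∑ (ram - 1) - 2 deg` does not depend on the coordinate: for every finite set `T0` there
is a finite set `S ⊇ T0` with equality.

Proof.  Let `D` be the derivation with `D (φ X) = 1` (`exists_deriv`), so `v = D (ψ X) ≠ 0`.  Let `S`
contain `T0`, the support of `v` (`product_formula`), and the poles of `φ X` and `ψ X`.
`∑ P ∈ S, P.ord v = 0`.  With `κ` from `exists_kappa` at `P`: `P.ord v = ram ψ P - 1 + κ` if `ψ X` is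
finite at `P` (apply it to `ψ X - b`), and `- ram ψ P - 1 + κ` at a pole; `κ` is given by
`ram_kappa`.  The sum of `ram ψ P` over the poles of `ψ X` is `deg ψ` (`sum_poles`), the same for
`φ`. -/
theorem ram_invariance {φ ψ : E →ₐ[ℂ] K} (hφ : FinC φ) (T0 : Finset (Pl K)) :
    ∃ S : Finset (Pl K), T0 ⊆ S ∧
      ∑ P ∈ S, (ram ψ P - 1) - 2 * (deg ψ : ℤ) = ∑ P ∈ S, (ram φ P - 1) - 2 * (deg φ : ℤ) := by
  classical
  have hψ : FinC ψ := finC_all φ hφ ψ
  have hφi : FinC (φ.comp invE) := finC_comp hφ finC_invE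
  have hψi : FinC (ψ.comp invE) := finC_comp hψ finC_invE
  obtain ⟨D, hD1, hD2⟩ := exists_deriv φ hφ
  have hv := hD2 ψ
  obtain ⟨hfin, hsum⟩ := product_formula φ hφ hv
  set Pφ : Finset (Pl K) := fibS (φ.comp invE) hφi 0 with hPφ
  set Pψ : Finset (Pl K) := fibS (ψ.comp invE) hψi 0 with hPψ
  set S : Finset (Pl K) := T0 ∪ hfin.toFinset ∪ Pφ ∪ Pψ with hS
  have hT : T0 ⊆ S := by
    intro P hP
    simp only [hS, Finset.mem_union]
    tauto
  have hSφ : Pφ ⊆ S := by
    intro P hP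
    simp only [hS, Finset.mem_union]
    tauto
  have hSψ : Pψ ⊆ S := by
    intro P hP
    simp only [hS, Finset.mem_union]
    tauto
  have h0 : ∑ P ∈ S, P.ord (D (ψ RatFunc.X)) = 0 := by
    apply hsum
    intro P hP
    simp only [hS, Finset.mem_union, Set.Finite.mem_toFinset]
    left
    left
    right
    exact hP
  have memφ : ∀ P : Pl K, P ∈ Pφ ↔ P.ord (φ RatFunc.X) < 0 := fun P => by
    rw [hPφ, mem_fibS]
    exact mem_fib_inv φ P
  have memψ : ∀ P : Pl K, P ∈ Pψ ↔ P.ord (ψ RatFunc.X) < 0 := fun P => by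
    rw [hPψ, mem_fibS]
    exact mem_fib_inv ψ P
  have key : ∀ P ∈ S, P.ord (D (ψ RatFunc.X)) = (ram ψ P - 1) - (ram φ P - 1) -
      2 * (if P ∈ Pψ then ram ψ P else 0) + 2 * (if P ∈ Pφ then ram φ P else 0) := by
    intro P _
    obtain ⟨κ, hκ, -⟩ := exists_kappa φ hφ D ⟨_, hv⟩ P
    obtain ⟨k1, k2⟩ := ram_kappa hφ D hD1 P hκ
    have hκe : κ = - (ram φ P - 1) + 2 * (if P ∈ Pφ then ram φ P else 0) := by
      by_cases h : P.ord (φ RatFunc.X) < 0
      · rw [if_pos ((memφ P).2 h), k2 h]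
        ring
      · rw [if_neg (fun h' => h ((memφ P).1 h')), k1 (not_lt.1 h)]
        ring
    have hve : P.ord (D (ψ RatFunc.X)) =
        (ram ψ P - 1) - 2 * (if P ∈ Pψ then ram ψ P else 0) + κ := by
      by_cases h : P.ord (ψ RatFunc.X) < 0
      · rw [if_pos ((memψ P).2 h), ram_pole h]
        have h0 : ψ RatFunc.X ≠ 0 := by
          intro h0
          rw [h0, P.ord_zero] at h
          exact lt_irrefl _ h
        rw [(hκ _ h0 h.ne).2]
        ring
      · rw [if_neg (fun h' => h ((memψ P).1 h'))]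
        obtain ⟨b, hb⟩ := exists_value ψ hψ P (not_lt.1 h)
        have hb' : 0 < P.ord (ψ RatFunc.X - algebraMap ℂ K b) := hb
        have h1 := (hκ _ (coord_sub_ne ψ b) hb'.ne').2
        rw [map_sub, D.map_algebraMap, sub_zero] at h1
        rw [h1, ram_fib hb]
        ring
    rw [hve, hκe]
    ring
  have sφ : ∑ P ∈ S, (if P ∈ Pφ then ram φ P else 0) = (deg φ : ℤ) := by
    rw [Finset.sum_ite_mem, Finset.inter_eq_right.2 hSφ]
    have h1 := sum_poles φ hφ hφi
    rw [← hPφ] at h1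
    have h2 : ∑ P ∈ Pφ, ram φ P = ∑ P ∈ Pφ, - P.ord (φ RatFunc.X) :=
      Finset.sum_congr rfl fun P hP => ram_pole ((memφ P).1 hP)
    rw [h2, Finset.sum_neg_distrib, h1, neg_neg]
  have sψ : ∑ P ∈ S, (if P ∈ Pψ then ram ψ P else 0) = (deg ψ : ℤ) := by
    rw [Finset.sum_ite_mem, Finset.inter_eq_right.2 hSψ]
    have h1 := sum_poles ψ hψ hψi
    rw [← hPψ] at h1
    have h2 : ∑ P ∈ Pψ, ram ψ P = ∑ P ∈ Pψ, - P.ord (ψ RatFunc.X) :=
      Finset.sum_congr rfl fun P hP => ram_pole ((memψ P).1 hP)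
    rw [h2, Finset.sum_neg_distrib, h1, neg_neg]
  refine ⟨S, hT, ?_⟩
  rw [Finset.sum_congr rfl key, Finset.sum_add_distrib, Finset.sum_sub_distrib,
    Finset.sum_sub_distrib, ← Finset.mul_sum, ← Finset.mul_sum, sφ, sψ] at h0
  linarith

/-- Proof: `ram_invariance` and `ram_pos`. -/
theorem GenusLe.other {φ ψ : E →ₐ[ℂ] K} (hφ : FinC φ) (h : GenusLe φ) : GenusLe ψ := by
  intro T
  obtain ⟨S, hTS, hS⟩ := ram_invariance (ψ := ψ) hφ T
  have h1 := h S
  have h2 : ∑ P ∈ T, (ram ψ P - 1) ≤ ∑ P ∈ S, (ram ψ P - 1) := by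
    apply Finset.sum_le_sum_of_subset_of_nonneg hTS
    intro P _ _
    have := ram_pos (finC_all φ hφ ψ) P
    omega
  linarith

end WildG
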