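import Pool.Agent.helper21.GN.Bas

/-! Reduced bases: the degree at infinity. -/

namespace WildG

open Polynomial WildRat WildS WildV

variable {K : Type} [Field K] [Algebra ℂ K]

/-- `u` is regular at the finite places, and at the places over infinity its poles have order at
most `k` times the ramification number. -/
def Lk (φ : E →ₐ[ℂ] K) (k : ℕ) (u : K) : Prop :=
  Og φ u ∧ ∀ P : Pl K, P.ord (φ RatFunc.X) < 0 → (k : ℤ) * P.ord (φ RatFunc.X) ≤ P.ord u

theorem Red_bound_nonpos {k : ℕ} {o : ℤ} (ho : o < 0) : (k : ℤ) * o ≤ 0 :=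
  mul_nonpos_of_nonneg_of_nonpos (Int.natCast_nonneg k) ho.le

theorem Lk.add {φ : E →ₐ[ℂ] K} {k : ℕ} {u w : K} (hu : Lk φ k u) (hw : Lk φ k w) :
    Lk φ k (u + w) := by
  refine ⟨hu.1.add hw.1, fun P hP => ?_⟩
  by_cases h : u + w = 0
  · rw [h, P.ord_zero]
    exact Red_bound_nonpos hP
  · rcases P.ord_add h with h1 | h1 | h1
    · exact (le_min (hu.2 P hP) (hw.2 P hP)).trans h1
    · rw [h1, zero_add]; exact hw.2 P hP
    · rw [h1, add_zero]; exact hu.2 P hP

theorem Lk.zero (φ : E →ₐ[ℂ] K) (k : ℕ) : Lk φ k 0 := by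
  refine ⟨fun a P _ => ?_, fun P hP => ?_⟩
  · rw [P.ord_zero]
  · rw [P.ord_zero]
    exact Red_bound_nonpos hP

theorem Lk.sum {φ : E →ₐ[ℂ] K} {k : ℕ} {ι : Type} (s : Finset ι) (f : ι → K)
    (h : ∀ i ∈ s, Lk φ k (f i)) : Lk φ k (∑ i ∈ s, f i) := by
  classical
  induction s using Finset.induction_on with
  | empty => rw [Finset.sum_empty]; exact Lk.zero φ k
  | insert a s ha ih =>
    rw [Finset.sum_insert ha]
    exact (h a (Finset.mem_insert_self a s)).add
      (ih fun i hi => h i (Finset.mem_insert_of_mem hi))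

theorem Lk.mono {φ : E →ₐ[ℂ] K} {k l : ℕ} (h : k ≤ l) {u : K} (hu : Lk φ k u) : Lk φ l u := by
  refine ⟨hu.1, fun P hP => le_trans ?_ (hu.2 P hP)⟩
  have h1 : (k : ℤ) ≤ l := by exact_mod_cast h
  exact mul_le_mul_of_nonpos_right h1 hP.le

/-- Proof: `ord_coord_pole`. -/
theorem Lk.poly {φ : E →ₐ[ℂ] K} {k : ℕ} {u : K} (hu : Lk φ k u) (p : ℂ[X]) {m : ℕ}
    (hp : p.natDegree + k ≤ m) : Lk φ m (φ (algebraMap ℂ[X] E p) * u) := by
  by_cases hp0 : p = 0
  · rw [hp0, map_zero, map_zero, zero_mul]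
    exact Lk.zero φ m
  by_cases hu0 : u = 0
  · rw [hu0, mul_zero]
    exact Lk.zero φ m
  have hne : φ (algebraMap ℂ[X] E p) ≠ 0 := by
    rw [map_ne_zero_iff φ (coord_inj φ), map_ne_zero_iff _ (RatFunc.algebraMap_injective ℂ)]
    exact hp0
  refine ⟨(Og.poly φ p).mul hu.1, fun P hP => ?_⟩
  rw [P.ord_mul hne hu0, ord_coord_pole hP hp0]
  have h1 := hu.2 P hP
  have h2 : ((p.natDegree : ℤ) + k) ≤ m := by exact_mod_cast hp
  nlinarith

/-- Every regular element lies in some `Lk`.  Proof: the places over infinity are finitely many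
(`mem_fib_inv`, `fibS` of `φ.comp invE`), `P.ord (φ X) ≤ -1` there. -/
theorem Lk.exists {φ : E →ₐ[ℂ] K} (hφ : FinC φ) {u : K} (hu : Og φ u) : ∃ k, Lk φ k u := by
  have h : FinC (φ.comp invE) := finC_comp hφ finC_invE
  refine ⟨(fibS (φ.comp invE) h 0).sup fun P => (P.ord u).natAbs, hu, fun P hP => ?_⟩
  have h1 : P ∈ fibS (φ.comp invE) h 0 := mem_fibS.2 ((mem_fib_inv φ P).2 hP)
  have h2 : (P.ord u).natAbs ≤ (fibS (φ.comp invE) h 0).sup fun P => (P.ord u).natAbs :=
    Finset.le_sup (f := fun P : Pl K => (P.ord u).natAbs) h1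
  have h3 : |P.ord u| ≤ (((fibS (φ.comp invE) h 0).sup fun P => (P.ord u).natAbs : ℕ) : ℤ) := by
    rw [← Int.natCast_natAbs]
    exact_mod_cast h2
  have h4 := neg_abs_le (P.ord u)
  nlinarith [abs_nonneg (P.ord u)]

/-- If `x ^ j * u` lies in `Lk m` with `m < j`, and `u` is regular at the finite places, then
`u = 0`.

Proof.  Suppose `u ≠ 0`.  At the places over infinity `P.ord u ≥ (m - j) P.ord (φ X) > 0`, at the other
places `P.ord u ≥ 0` (`exists_value`).  There is a place over infinity (`sum_poles`, `deg_pos`), so the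
sum of all orders is positive, contradicting `product_formula`. -/
theorem Lk.eq_zero {φ : E →ₐ[ℂ] K} (hφ : FinC φ) {u : K} (hu : Og φ u) {j m : ℕ} (hmj : m < j)
    (h : Lk φ m (φ (algebraMap ℂ[X] E (X ^ j)) * u)) : u = 0 := by
  classical
  by_contra hu0
  have hne : φ (algebraMap ℂ[X] E (X ^ j)) ≠ 0 := by
    rw [map_ne_zero_iff φ (coord_inj φ), map_ne_zero_iff _ (RatFunc.algebraMap_injective ℂ)]
    exact pow_ne_zero _ X_ne_zero
  have hpole : ∀ P : Pl K, P.ord (φ RatFunc.X) < 0 → 0 < P.ord u := by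
    intro P hP
    have h1 := h.2 P hP
    rw [P.ord_mul hne hu0, ord_coord_pole hP (pow_ne_zero _ X_ne_zero), natDegree_X_pow] at h1
    have h2 : (m : ℤ) + 1 ≤ j := by exact_mod_cast hmj
    nlinarith
  have hall : ∀ P : Pl K, 0 ≤ P.ord u := by
    intro P
    rcases lt_or_ge (P.ord (φ RatFunc.X)) 0 with hP | hP
    · exact (hpole P hP).le
    · obtain ⟨a, ha⟩ := exists_value φ hφ P hP
      exact hu a P ha
  have hF : FinC (φ.comp invE) := finC_comp hφ finC_invE
  have hsum := sum_poles φ hφ hF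
  obtain ⟨P0, hP0⟩ : (fibS (φ.comp invE) hF 0).Nonempty := by
    by_contra hemp
    rw [Finset.not_nonempty_iff_eq_empty] at hemp
    rw [hemp, Finset.sum_empty] at hsum
    have := deg_pos hφ
    omega
  have hP0' : 0 < P0.ord u := hpole P0 ((mem_fib_inv φ P0).1 (mem_fibS.1 hP0))
  obtain ⟨hfin, hprod⟩ := product_formula φ hφ hu0
  have h5 := hprod hfin.toFinset fun P hP => by simpa using hP
  have h6 : 0 < ∑ P ∈ hfin.toFinset, P.ord u :=
    Finset.sum_pos' (fun P _ => hall P) ⟨P0, by simpa using hP0'.ne', hP0'⟩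
  omega

/-- If `x ^ j * u` lies in `Lk m` with `j ≤ m`, and `u` is regular at the finite places, then `u` lies in
`Lk (m - j)`. -/
theorem Lk.div {φ : E →ₐ[ℂ] K} {u : K} (hu : Og φ u) {j m : ℕ} (hmj : j ≤ m)
    (h : Lk φ m (φ (algebraMap ℂ[X] E (X ^ j)) * u)) : Lk φ (m - j) u := by
  by_cases hu0 : u = 0
  · rw [hu0]; exact Lk.zero φ _
  have hne : φ (algebraMap ℂ[X] E (X ^ j)) ≠ 0 := by
    rw [map_ne_zero_iff φ (coord_inj φ), map_ne_zero_iff _ (RatFunc.algebraMap_injective ℂ)]
    exact pow_ne_zero _ X_ne_zero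
  refine ⟨hu, fun P hP => ?_⟩
  have h1 := h.2 P hP
  rw [P.ord_mul hne hu0, ord_coord_pole hP (pow_ne_zero _ X_ne_zero), natDegree_X_pow] at h1
  rw [Nat.cast_sub hmj]
  linarith

/-- A reduced basis. -/
structure RB (φ : E →ₐ[ℂ] K) {n : ℕ} (b : Fin n → K) (d : Fin n → ℕ) : Prop where
  gb : GB φ b
  mem : ∀ i, Lk φ (d i) (b i)
  red : ∀ (p : Fin n → ℂ[X]) (k : ℕ), Lk φ k (∑ i, φ (algebraMap ℂ[X] E (p i)) * b i) →
    ∀ i, p i = 0 ∨ (p i).natDegree + d i ≤ k

/-- Replace one element of a global basis: `b' i0 = ∑ r i * b i` with `r i0` a nonzero constant. -/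
theorem GB.replace {φ : E →ₐ[ℂ] K} {n : ℕ} {b : Fin n → K} (hb : GB φ b) (i0 : Fin n)
    (r : Fin n → ℂ[X]) {c : ℂ} (hc : c ≠ 0) (hr : r i0 = C c) :
    GB φ (Function.update b i0 (∑ i, φ (algebraMap ℂ[X] E (r i)) * b i)) := by
  classical
  set w : K := ∑ i, φ (algebraMap ℂ[X] E (r i)) * b i with hw
  have hwOg : Og φ w := Og.sum _ _ fun i _ => (Og.poly φ (r i)).mul (hb.reg i)
  have hsplit : ∀ q : Fin n → E, ∑ i, φ (q i) * Function.update b i0 w i =
      φ (q i0) * w + ∑ i ∈ Finset.univ.erase i0, φ (q i) * b i := by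
    intro q
    rw [← Finset.add_sum_erase _ _ (Finset.mem_univ i0), Function.update_self]
    congr 1
    refine Finset.sum_congr rfl fun i hi => ?_
    rw [Function.update_of_ne (Finset.ne_of_mem_erase hi)]
  have hw' : w = algebraMap ℂ K c * b i0 +
      ∑ i ∈ Finset.univ.erase i0, φ (algebraMap ℂ[X] E (r i)) * b i := by
    rw [hw, ← Finset.add_sum_erase _ _ (Finset.mem_univ i0), hr, ← algC_E, coord_C]
  have hcK : algebraMap ℂ K c ≠ 0 := by simpa using hc
  refine ⟨fun i => ?_, fun u hu => ?_, fun q hq => ?_⟩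
  · by_cases hi : i = i0
    · rw [hi, Function.update_self]; exact hwOg
    · rw [Function.update_of_ne hi]; exact hb.reg i
  · obtain ⟨p, hp⟩ := hb.span u hu
    refine ⟨fun i => if i = i0 then C c⁻¹ * p i0 else p i - C c⁻¹ * p i0 * r i, ?_⟩
    rw [hsplit fun i => algebraMap ℂ[X] E (if i = i0 then C c⁻¹ * p i0
      else p i - C c⁻¹ * p i0 * r i)]
    simp only [if_true]
    have h1 : ∑ i ∈ Finset.univ.erase i0, φ (algebraMap ℂ[X] E (if i = i0 then C c⁻¹ * p i0
        else p i - C c⁻¹ * p i0 * r i)) * b i =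
        ∑ i ∈ Finset.univ.erase i0, φ (algebraMap ℂ[X] E (p i)) * b i -
          φ (algebraMap ℂ[X] E (C c⁻¹ * p i0)) *
            ∑ i ∈ Finset.univ.erase i0, φ (algebraMap ℂ[X] E (r i)) * b i := by
      rw [Finset.mul_sum, ← Finset.sum_sub_distrib]
      refine Finset.sum_congr rfl fun i hi => ?_
      rw [if_neg (Finset.ne_of_mem_erase hi)]
      simp only [map_sub, map_mul]
      ring
    rw [h1, hp, ← Finset.add_sum_erase _ _ (Finset.mem_univ i0), hw']
    have h2 : φ (algebraMap ℂ[X] E (C c⁻¹ * p i0)) =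
        (algebraMap ℂ K c)⁻¹ * φ (algebraMap ℂ[X] E (p i0)) := by
      rw [map_mul, map_mul, ← algC_E, coord_C, map_inv₀]
    rw [h2]
    field_simp
    ring
  · rw [hsplit q, hw'] at hq
    have h3 : ∑ i, φ (if i = i0 then algebraMap ℂ E c * q i0
        else q i + q i0 * algebraMap ℂ[X] E (r i)) * b i = 0 := by
      rw [← Finset.add_sum_erase _ _ (Finset.mem_univ i0), if_pos rfl]
      have h4 : ∑ i ∈ Finset.univ.erase i0, φ (if i = i0 then algebraMap ℂ E c * q i0
          else q i + q i0 * algebraMap ℂ[X] E (r i)) * b i =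
          ∑ i ∈ Finset.univ.erase i0, φ (q i) * b i +
          φ (q i0) * ∑ i ∈ Finset.univ.erase i0, φ (algebraMap ℂ[X] E (r i)) * b i := by
        rw [Finset.mul_sum, ← Finset.sum_add_distrib]
        refine Finset.sum_congr rfl fun i hi => ?_
        rw [if_neg (Finset.ne_of_mem_erase hi)]
        simp only [map_add, map_mul]
        ring
      rw [h4, map_mul, coord_C, ← hq]
      ring
    have h5 := hb.indep _ h3
    have h6 : q i0 = 0 := by
      have := h5 i0
      rw [if_pos rfl] at this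
      refine (mul_eq_zero.1 this).resolve_left ?_
      simpa using hc
    intro i
    by_cases hi : i = i0
    · rw [hi]; exact h6
    · have := h5 i
      rw [if_neg hi, h6, zero_mul, add_zero] at this
      exact this

/-- **Reduction.**  Proof.  Among all pairs `(b, d)` with `GB φ b`, `Lk φ (d i) (b i)` for all `i`
(`exists_GB`, `Lk.exists`) choose one with `∑ d i` minimal.  Suppose `Lk φ k (∑ φ (p i) b i)` and some
`p i ≠ 0` with `p i.natDegree + d i > k`.  Let `m` be the maximum of `(p i).natDegree + d i` over the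
`i` with `p i ≠ 0` (so `m > k`), `I` the set of the `i` with `p i ≠ 0` where it is attained, `i0 ∈ I` with
`d i0` maximal, `λ i` the leading coefficient of `p i`, and
`w = ∑ i ∈ I, λ i x ^ (d i0 - d i) b i`.  For `i ∈ I` put `p i = λ i x ^ (m - d i) + (lower terms)`; so
`x ^ (m - d i0) w = ∑ i ∈ I, λ i x ^ (m - d i) b i = ∑ p i b i - (terms in Lk (m - 1))` lies in `Lk (m - 1)`
(`Lk.poly`; `k ≤ m - 1`).  If `d i0 = 0`, `Lk.eq_zero` gives `w = 0`, contradicting `GB.indep` (the
coefficient `λ i0 ≠ 0`).  Otherwise `Lk.div` gives `Lk φ (d i0 - 1) w`, and replacing `b i0` by `w`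
(`GB.replace`) gives a smaller sum, a contradiction. -/
theorem exists_RB (φ : E →ₐ[ℂ] K) (hφ : FinC φ) :
    ∃ (b : Fin (deg φ) → K) (d : Fin (deg φ) → ℕ), RB φ b d := by
  classical
  have hex : ∃ s : ℕ, ∃ (b : Fin (deg φ) → K) (d : Fin (deg φ) → ℕ), GB φ b ∧
      (∀ i, Lk φ (d i) (b i)) ∧ ∑ i, d i = s := by
    obtain ⟨b, hb⟩ := exists_GB φ hφ
    choose d hd using fun i => Lk.exists hφ (hb.reg i)
    exact ⟨_, b, d, hb, hd, rfl⟩
  obtain ⟨b, d, hb, hd, hsum⟩ := Nat.find_spec hex
  refine ⟨b, d, hb, hd, fun p k hpk => ?_⟩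
  by_contra hno
  rw [not_forall] at hno
  obtain ⟨i1, hi1⟩ := hno
  rw [not_or, not_le] at hi1
  -- the maximal degree
  set J : Finset (Fin (deg φ)) := Finset.univ.filter fun i => p i ≠ 0 with hJ
  have hJne : J.Nonempty := ⟨i1, by simp [hJ, hi1.1]⟩
  obtain ⟨i2, hi2, hmax⟩ := J.exists_max_image (fun i => (p i).natDegree + d i) hJne
  set m : ℕ := (p i2).natDegree + d i2 with hm
  have hmk : k < m := hi1.2.trans_le (hmax i1 (by simp [hJ, hi1.1]))
  set I : Finset (Fin (deg φ)) := J.filter fun i => (p i).natDegree + d i = m with hI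
  have hIne : I.Nonempty := ⟨i2, Finset.mem_filter.2 ⟨hi2, rfl⟩⟩
  obtain ⟨i0, hi0, hdmax⟩ := I.exists_max_image d hIne
  have hI1 : ∀ i ∈ I, p i ≠ 0 := fun i hi =>
    (Finset.mem_filter.1 (Finset.mem_filter.1 hi).1).2
  have hI2 : ∀ i ∈ I, (p i).natDegree + d i = m := fun i hi => (Finset.mem_filter.1 hi).2
  have hm0 := hI2 i0 hi0
  set r : Fin (deg φ) → ℂ[X] := fun i =>
    if i ∈ I then C (p i).leadingCoeff * X ^ (d i0 - d i) else 0 with hr
  set w : K := ∑ i, φ (algebraMap ℂ[X] E (r i)) * b i with hw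
  have hri0 : r i0 = C (p i0).leadingCoeff := by
    simp only [hr, if_pos hi0, Nat.sub_self, pow_zero, mul_one]
  have hlc : (p i0).leadingCoeff ≠ 0 := leadingCoeff_ne_zero.2 (hI1 i0 hi0)
  have hwOg : Og φ w := Og.sum _ _ fun i _ => (Og.poly φ (r i)).mul (hb.reg i)
  -- `x ^ (m - d i0) * w` lies in `Lk (m - 1)`
  have hkey : Lk φ (m - 1) (φ (algebraMap ℂ[X] E (X ^ (m - d i0))) * w) := by
    have e1 : φ (algebraMap ℂ[X] E (X ^ (m - d i0))) * w =
        ∑ i, φ (algebraMap ℂ[X] E (p i)) * b i +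
          ∑ i, φ (algebraMap ℂ[X] E (X ^ (m - d i0) * r i - p i)) * b i := by
      rw [hw, Finset.mul_sum, ← Finset.sum_add_distrib]
      refine Finset.sum_congr rfl fun i _ => ?_
      simp only [map_sub, map_mul]
      ring
    rw [e1]
    refine (hpk.mono (by omega)).add (Lk.sum _ _ fun i _ => ?_)
    by_cases hi : i ∈ I
    · have e2 : X ^ (m - d i0) * r i - p i = -(p i).eraseLead := by
        have e3 : X ^ (m - d i0) * r i = C (p i).leadingCoeff * X ^ (p i).natDegree := by
          simp only [hr, if_pos hi]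
          have e4 := hdmax i hi
          have e5 := hI2 i hi
          have e6 : (p i).natDegree = (m - d i0) + (d i0 - d i) := by omega
          rw [e6, pow_add]
          ring
        rw [e3]
        have e7 := eraseLead_add_C_mul_X_pow (p i)
        linear_combination e7
      rw [e2]
      by_cases hz : (p i).eraseLead = 0
      · rw [hz, neg_zero, map_zero, map_zero, zero_mul]
        exact Lk.zero φ _
      · refine (hd i).poly _ ?_
        rw [natDegree_neg]
        have e8 : (p i).eraseLead.natDegree < (p i).natDegree := by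
          refine eraseLead_natDegree_lt_or_eraseLead_eq_zero (p i) |>.resolve_right hz
        have e9 := hI2 i hi
        omega
    · have e2 : X ^ (m - d i0) * r i - p i = -(p i) := by
        simp only [hr, if_neg hi, mul_zero, zero_sub]
      rw [e2]
      by_cases hz : p i = 0
      · rw [hz, neg_zero, map_zero, map_zero, zero_mul]
        exact Lk.zero φ _
      · refine (hd i).poly _ ?_
        rw [natDegree_neg]
        have e8 := hmax i (by simp [hJ, hz])
        have e9 : (p i).natDegree + d i ≠ m := fun h =>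
          hi (Finset.mem_filter.2 ⟨by simp [hJ, hz], h⟩)
        have e10 : (p i).natDegree + d i ≤ m := e8
        omega
  by_cases hd0 : d i0 = 0
  · have hw0 : w = 0 := Lk.eq_zero hφ hwOg (by omega) hkey
    have h1 := hb.indep (fun i => algebraMap ℂ[X] E (r i)) (by rw [← hw0])
      i0
    rw [map_eq_zero_iff _ (RatFunc.algebraMap_injective ℂ), hri0, C_eq_zero] at h1
    exact hlc h1
  · have hw1 : Lk φ (d i0 - 1) w := by
      have h1 := Lk.div hwOg (by omega) hkey
      have e1 : m - 1 - (m - d i0) = d i0 - 1 := by omega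
      rwa [e1] at h1
    have hmin := Nat.find_min' hex (m := ∑ i, Function.update d i0 (d i0 - 1) i)
      ⟨Function.update b i0 w, Function.update d i0 (d i0 - 1), hb.replace i0 r hlc hri0,
        fun i => by
          by_cases hi : i = i0
          · subst hi
            rw [Function.update_self, Function.update_self]
            exact hw1
          · rw [Function.update_of_ne hi, Function.update_of_ne hi]
            exact hd i, rfl⟩
    rw [← hsum, ← Finset.add_sum_erase _ _ (Finset.mem_univ i0),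
      ← Finset.add_sum_erase _ _ (Finset.mem_univ i0), Function.update_self] at hmin
    have e1 : ∑ i ∈ Finset.univ.erase i0, Function.update d i0 (d i0 - 1) i =
        ∑ i ∈ Finset.univ.erase i0, d i :=
      Finset.sum_congr rfl fun i hi => Function.update_of_ne (Finset.ne_of_mem_erase hi) _ _
    rw [e1] at hmin
    omega

/-- The local basis at infinity (the coordinate `φ.comp invE`, the point `0`).

Proof.  `reg`: `mem_fib_inv`, `RB.mem`.  `indep`: `(φ.comp invE) q = φ (invE q)`.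
`span`: let `u` be regular at the places over infinity; by `exists_clear'` there is a polynomial `h ≠ 0`
with `h u` regular at the finite places; `h u` lies in `Lk (natDegree h)` (`ord_coord_pole`), so
`h u = ∑ p i b i` with `p i = 0` or `(p i).natDegree + d i ≤ h.natDegree` (`RB.red`).  So
`u = ∑ φ (p i X ^ d i / h) * ((φ X)⁻¹ ^ d i * b i)`, and `q i = invE (p i X ^ d i / h)` is regular at `0`:
the order of `invE (p / h)` at `0` is `h.natDegree - p.natDegree` (apply `ord_coord_pole` to the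
coordinate `φ' = AlgHom.id`... or `invE` with the place `plE 0`: `(plE 0).ord (invE X) = -1`). -/
theorem RB.inf {φ : E →ₐ[ℂ] K} (hφ : FinC φ) {n : ℕ} {b : Fin n → K} {d : Fin n → ℕ}
    (h : RB φ b d) : LB (φ.comp invE) 0 (fun i => (φ RatFunc.X)⁻¹ ^ d i * b i) := by
  have hX0 : φ RatFunc.X ≠ 0 := by
    rw [map_ne_zero_iff φ (coord_inj φ)]
    exact RatFunc.X_ne_zero
  have hXE : (plE 0).ord (RatFunc.X : E) = 1 := by
    have h1 := plE_poly 0 (X_ne_zero (R := ℂ))
    rw [RatFunc.algebraMap_X] at h1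
    rw [h1]
    have h2 : (X : ℂ[X]).rootMultiplicity 0 = 1 := by
      have h3 := rootMultiplicity_X_sub_C_self (x := (0 : ℂ))
      rwa [C_0, sub_zero] at h3
    rw [h2]; rfl
  have hinv : (plE 0).ord (invE (RatFunc.X : E)) = -1 := by
    rw [invE_X, Pl.ord_inv, hXE]
  have hpol : ∀ q : ℂ[X], q ≠ 0 →
      (plE 0).ord (invE (algebraMap ℂ[X] E q)) = -(q.natDegree : ℤ) := by
    intro q hq
    have h1 := ord_coord_pole (φ := invE) (P := plE 0) (by rw [hinv]; norm_num) hq
    rw [h1, hinv]; ring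
  have hne : ∀ q : ℂ[X], q ≠ 0 → (algebraMap ℂ[X] E q) ≠ 0 := fun q hq => by
    rw [map_ne_zero_iff _ (RatFunc.algebraMap_injective ℂ)]
    exact hq
  refine ⟨fun i P hP => ?_, fun u hu => ?_, fun q hq => ?_⟩
  · have hP' := (mem_fib_inv φ P).1 hP
    by_cases hb0 : b i = 0
    · rw [hb0, mul_zero, P.ord_zero]
    · rw [P.ord_mul (pow_ne_zero _ (inv_ne_zero hX0)) hb0, P.ord_pow, P.ord_inv]
      have h1 := (h.mem i).2 P hP'
      linarith
  · obtain ⟨g, hg, hgu⟩ := exists_clear' φ hφ u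
    have hgK : φ (algebraMap ℂ[X] E g) ≠ 0 := by
      rw [map_ne_zero_iff φ (coord_inj φ)]
      exact hne g hg
    have hL : Lk φ g.natDegree (φ (algebraMap ℂ[X] E g) * u) := by
      refine ⟨hgu, fun P hP => ?_⟩
      by_cases hu0 : u = 0
      · rw [hu0, mul_zero, P.ord_zero]
        exact Red_bound_nonpos hP
      · rw [P.ord_mul hgK hu0, ord_coord_pole hP hg]
        have h1 := hu P ((mem_fib_inv φ P).2 hP)
        linarith
    obtain ⟨p, hp⟩ := h.gb.span _ hgu
    have hred := h.red p g.natDegree (by rw [← hp]; exact hL)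
    refine ⟨fun i => invE (algebraMap ℂ[X] E (p i * X ^ d i) / algebraMap ℂ[X] E g),
      fun i => ?_, ?_⟩
    · show 0 ≤ (plE 0).ord (invE (algebraMap ℂ[X] E (p i * X ^ d i) / algebraMap ℂ[X] E g))
      by_cases hp0 : p i = 0
      · rw [hp0, zero_mul, map_zero, zero_div, map_zero, Pl.ord_zero]
      · have h1 := (hred i).resolve_left hp0
        have h2 : p i * X ^ d i ≠ 0 := mul_ne_zero hp0 (pow_ne_zero _ X_ne_zero)
        have hi1 : invE (algebraMap ℂ[X] E (p i * X ^ d i)) ≠ 0 := by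
          rw [map_ne_zero_iff _ (coord_inj invE)]; exact hne _ h2
        have hi2 : invE (algebraMap ℂ[X] E g) ≠ 0 := by
          rw [map_ne_zero_iff _ (coord_inj invE)]; exact hne _ hg
        rw [map_div₀, Pl.ord_div _ hi1 hi2, hpol _ h2, hpol _ hg,
          natDegree_mul hp0 (pow_ne_zero _ X_ne_zero), natDegree_X_pow]
        have h3 : (((p i).natDegree + d i : ℕ) : ℤ) ≤ (g.natDegree : ℤ) := by exact_mod_cast h1
        linarith
    · have h4 : u = (φ (algebraMap ℂ[X] E g))⁻¹ * ∑ i, φ (algebraMap ℂ[X] E (p i)) * b i := by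
        rw [← hp, inv_mul_cancel_left₀ hgK]
      rw [h4, Finset.mul_sum]
      refine Finset.sum_congr rfl fun i _ => ?_
      rw [AlgHom.comp_apply, invE_invE, map_div₀, map_mul, map_mul, map_pow, map_pow,
        RatFunc.algebraMap_X, div_eq_mul_inv]
      have h5 : φ RatFunc.X ^ d i * (φ RatFunc.X)⁻¹ ^ d i = 1 := by
        rw [← mul_pow, mul_inv_cancel₀ hX0, one_pow]
      linear_combination (-(φ (algebraMap ℂ[X] E (p i)) * (φ (algebraMap ℂ[X] E g))⁻¹ * b i)) * h5
  · have h1 : ∑ i, φ (invE (q i) * (RatFunc.X : E)⁻¹ ^ d i) * b i = 0 := by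
      rw [← hq]
      refine Finset.sum_congr rfl fun i _ => ?_
      rw [AlgHom.comp_apply, map_mul, map_pow, map_inv₀]
      ring
    intro i
    have h2 := h.gb.indep _ h1 i
    have h3 : (RatFunc.X : E)⁻¹ ^ d i ≠ 0 := pow_ne_zero _ (inv_ne_zero RatFunc.X_ne_zero)
    have h4 := (mul_eq_zero.1 h2).resolve_right h3
    exact (map_eq_zero_iff _ (coord_inj invE)).1 h4

end WildG
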