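import Pool.Agent.helper21.GN.Apx

/-! The trace of the connection matrix of a local basis. -/

namespace WildG

open Polynomial WildRat WildS WildV

variable {K : Type} [Field K] [Algebra ℂ K]

/-- The derivation `d / dX` of `E`.  Proof: `exists_deriv` for `φ = AlgHom.id ℂ E`
(`RatK_finC_id`). -/
theorem exists_dE : ∃ d : Derivation ℂ E E, d RatFunc.X = 1 := by
  obtain ⟨D, hD, -⟩ := exists_deriv (AlgHom.id ℂ E) RatK_finC_id
  exact ⟨D, hD⟩

/-- The derivation `d / dX` of `E`. -/
noncomputable def dE : Derivation ℂ E E := Classical.choose exists_dE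

theorem dE_X : dE (RatFunc.X : E) = 1 := Classical.choose_spec exists_dE

/-- A derivation with `D (φ X) = 1` restricts to `d / dX`.

Proof.  The two sides are additive in `q`, satisfy the same Leibniz rule and agree at `X`; for a
polynomial use `Derivation.map_aeval` (`coord_poly`, `aeval_X_E`), for a quotient the rule for
quotients (or: `q * algebraMap denom = algebraMap num`, apply `D ∘ φ` and `φ ∘ dE`, and cancel). -/
theorem D_phi {φ : E →ₐ[ℂ] K} (D : Derivation ℂ K K) (hD : D (φ RatFunc.X) = 1) (q : E) :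
    D (φ q) = φ (dE q) := by
  have hpoly : ∀ p : ℂ[X], D (φ (algebraMap ℂ[X] E p)) = φ (dE (algebraMap ℂ[X] E p)) := by
    intro p
    have e1 : D (φ (algebraMap ℂ[X] E p)) = aeval (φ RatFunc.X) (derivative p) := by
      rw [coord_poly, Derivation.map_aeval, hD, smul_eq_mul, mul_one]
    have e2 : dE (algebraMap ℂ[X] E p) = algebraMap ℂ[X] E (derivative p) := by
      rw [← aeval_X_E, Derivation.map_aeval, dE_X, smul_eq_mul, mul_one, aeval_X_E]
    rw [e1, e2, coord_poly]
  have hden : algebraMap ℂ[X] E q.denom ≠ 0 := by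
    rw [Ne, FaithfulSMul.algebraMap_eq_zero_iff]
    exact q.denom_ne_zero
  have hq : q * algebraMap ℂ[X] E q.denom = algebraMap ℂ[X] E q.num := by
    have h := RatFunc.num_div_denom q
    rw [div_eq_iff hden] at h
    exact h.symm
  have h1 := hpoly q.num
  rw [← hq, map_mul, D.leibniz, dE.leibniz, hpoly q.denom] at h1
  simp only [smul_eq_mul, map_add, map_mul] at h1
  have h2 : φ (algebraMap ℂ[X] E q.denom) * D (φ q) =
      φ (algebraMap ℂ[X] E q.denom) * φ (dE q) := by
    linear_combination h1
  have h3 : φ (algebraMap ℂ[X] E q.denom) ≠ 0 := by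
    rw [Ne, map_eq_zero_iff φ (coord_inj φ)]
    exact hden
  exact mul_left_cancel₀ h3 h2

theorem Res_X_sub (a : ℂ) : (RatFunc.X - algebraMap ℂ E a : E) = algebraMap ℂ[X] E (X - C a) := by
  rw [map_sub, RatFunc.algebraMap_X, algC_E]

theorem Res_ord_X_sub (a : ℂ) : (plE a).ord (RatFunc.X - algebraMap ℂ E a) = 1 := by
  rw [Res_X_sub, plE_poly a (X_sub_C_ne_zero a), rootMultiplicity_X_sub_C_self]
  rfl

theorem Res_X_sub_ne (a : ℂ) : (RatFunc.X - algebraMap ℂ E a : E) ≠ 0 := by
  intro h
  have h1 := Res_ord_X_sub a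
  rw [h, Pl.ord_zero] at h1
  exact absurd h1 (by norm_num)

theorem Res_phi_X_sub (φ : E →ₐ[ℂ] K) (a : ℂ) :
    φ (RatFunc.X - algebraMap ℂ E a) = φ RatFunc.X - algebraMap ℂ K a := by
  rw [map_sub, coord_C]

theorem Res_Bdd_sum {ι : Type} (P : Pl K) {n : ℤ} (s : Finset ι) (f : ι → K)
    (h : ∀ i ∈ s, Bdd_big P n (f i)) : Bdd_big P n (∑ i ∈ s, f i) := by
  classical
  induction s using Finset.induction_on with
  | empty =>
    left
    simp
  | insert i s his ih =>
    rw [Finset.sum_insert his]
    exact Bdd_big_add P (h i (Finset.mem_insert_self i s))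
      (ih fun j hj => h j (Finset.mem_insert_of_mem hj))

/-- `d / dX` preserves the local rings.  Proof: `exists_kappa` for the coordinate `AlgHom.id ℂ E`; the
number `κ` at `plE a` is zero: apply its first property to `X - a`, of order one
(`plE_poly`, `D (X - a) = 1`).  If `dE q = 0` the order is zero. -/
theorem dE_reg (a : ℂ) {q : E} (h : 0 ≤ (plE a).ord q) : 0 ≤ (plE a).ord (dE q) := by
  obtain ⟨κ, h1, h2⟩ := exists_kappa (AlgHom.id ℂ E) RatK_finC_id dE
    ⟨RatFunc.X, by rw [dE_X]; exact one_ne_zero⟩ (plE a)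
  have h3 := (h1 (RatFunc.X - algebraMap ℂ E a) (Res_X_sub_ne a)
    (by rw [Res_ord_X_sub]; norm_num)).2
  rw [map_sub, dE.map_algebraMap, sub_zero, dE_X, Pl.ord_one, Res_ord_X_sub] at h3
  by_cases h4 : dE q = 0
  · rw [h4, Pl.ord_zero]
  · have h5 := h2 q h h4
    omega

/-- A local basis is a basis of `K` over `E`.  Proof: for `u` there is `k` such that
`(φ X - a) ^ k * u` is regular over `a` (finitely many places, `fibS`; every place over `a` has
`0 < P.ord (φ X - a)`). -/
theorem LB.coord {φ : E →ₐ[ℂ] K} (hφ : FinC φ) {a : ℂ} {ι : Type} [Fintype ι] {b : ι → K}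
    (hb : LB φ a b) (u : K) : ∃ q : ι → E, u = ∑ i, φ (q i) * b i := by
  by_cases hu : u = 0
  · refine ⟨fun _ => 0, ?_⟩
    rw [hu]
    simp
  set k : ℕ := ∑ P ∈ fibS φ hφ a, (P.ord u).natAbs with hk
  have hs0 : φ RatFunc.X - algebraMap ℂ K a ≠ 0 := coord_sub_ne φ a
  have hreg : Oa φ a ((φ RatFunc.X - algebraMap ℂ K a) ^ k * u) := by
    intro P hP
    have hP' : 0 < P.ord (φ RatFunc.X - algebraMap ℂ K a) := hP
    rw [P.ord_mul (pow_ne_zero _ hs0) hu, P.ord_pow]
    have h1 : (P.ord u).natAbs ≤ k :=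
      Finset.single_le_sum (f := fun P : Pl K => (P.ord u).natAbs) (fun _ _ => Nat.zero_le _)
        (mem_fibS.2 hP)
    have h2 : (k : ℤ) ≤ k * P.ord (φ RatFunc.X - algebraMap ℂ K a) := by
      have h3 : (0 : ℤ) ≤ k := by positivity
      nlinarith
    omega
  obtain ⟨q, -, hq⟩ := hb.span _ hreg
  refine ⟨fun i => q i / (RatFunc.X - algebraMap ℂ E a) ^ k, ?_⟩
  have h1 : u = ((φ RatFunc.X - algebraMap ℂ K a) ^ k)⁻¹ *
      ((φ RatFunc.X - algebraMap ℂ K a) ^ k * u) := by
    rw [inv_mul_cancel_left₀ (pow_ne_zero _ hs0)]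
  rw [h1, hq, Finset.mul_sum]
  apply Finset.sum_congr rfl
  intro i _
  rw [map_div₀, map_pow, Res_phi_X_sub]
  ring

/-- **The residue of the trace.**  For every local basis `b` with connection matrix `M`
(`D (b i) = ∑ M i j * b j`) the function `(X - a) * trace M` has at `a` the value
`∑ (ram P - 1) / 2` over the places `P` over `a`.

Proof.  Let `c`, `Mc` be the adapted basis with its matrix (`adapted_basis`).  By the two properties
`LB.span`: `b i = ∑ φ (T i j) c j`, `c j = ∑ φ (S j i) b i` with all `T i j`, `S j i` regular at `a`;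
`LB.indep` gives `T * S = 1` and `S * T = 1` (matrices with rows and columns in `ι` and `AI`).  With
`s = φ X - a = φ (X - a)`, `D_phi`:
`s D (b i) = ∑ φ ((X - a) dE (T i j)) c j + ∑ φ (T i j) φ (Mc j k) c k`, so by `hM` and `LB.indep`
`(X - a) M = ((X - a) dE T + T Mc) S`.  The trace is `(X - a) * ∑ dE (T i j) * S j i + trace Mc`
(`trace (T Mc S) = trace (Mc S T)`); the first term is zero or has order at least one at `a`
(`dE_reg`).  `trace Mc` has the value `∑ over AI of ν / ram P`, and `∑ over ν < r of ν / r = (r - 1) / 2`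
(`Fin.sum_univ_eq_sum_range`, `Finset.sum_range_id_mul_two`; `r = (ram φ P).toNat`, `ram_pos`). -/
theorem res_basis {φ : E →ₐ[ℂ] K} (hφ : FinC φ) (D : Derivation ℂ K K)
    (hD : D (φ RatFunc.X) = 1) {a : ℂ} {ι : Type} [Fintype ι] {b : ι → K} (hb : LB φ a b)
    {M : ι → ι → E} (hM : ∀ i, D (b i) = ∑ j, φ (M i j) * b j) :
    (RatFunc.X - algebraMap ℂ E a) * ∑ i, M i i =
        algebraMap ℂ E (∑ P ∈ fibS φ hφ a, ((ram φ P : ℂ) - 1) / 2) ∨
      0 < (plE a).ord ((RatFunc.X - algebraMap ℂ E a) * ∑ i, M i i -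
        algebraMap ℂ E (∑ P ∈ fibS φ hφ a, ((ram φ P : ℂ) - 1) / 2)) := by
  classical
  obtain ⟨c, hc, Mc, hMc, -, hdiag⟩ := adapted_basis hφ D hD a
  choose T hT hbT using fun i => hc.span (b i) (hb.reg i)
  choose S hS hcS using fun j => hb.span (c j) (hc.reg j)
  set Tm : Matrix ι (AI φ hφ a) E := Matrix.of T with hTm
  set Sm : Matrix (AI φ hφ a) ι E := Matrix.of S with hSm
  set Mm : Matrix ι ι E := Matrix.of M with hMm
  set Mcm : Matrix (AI φ hφ a) (AI φ hφ a) E := Matrix.of Mc with hMcm
  set x : E := RatFunc.X - algebraMap ℂ E a with hx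
  set dT : Matrix ι (AI φ hφ a) E := Matrix.of fun i j => dE (T i j) with hdT
  have hTS : Tm * Sm = 1 := by
    ext i k
    have h1 : ∑ k, φ ((Tm * Sm) i k - (1 : Matrix ι ι E) i k) * b k = 0 := by
      have h2 : ∑ k, φ ((Tm * Sm) i k) * b k = b i := by
        simp only [Matrix.mul_apply, map_sum, map_mul, Finset.sum_mul]
        rw [Finset.sum_comm]
        conv_rhs => rw [hbT i]
        apply Finset.sum_congr rfl
        intro j _
        conv_rhs => rw [hcS j]
        rw [Finset.mul_sum]
        apply Finset.sum_congr rfl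
        intro k _
        simp only [hTm, hSm, Matrix.of_apply]
        ring
      have h3 : ∑ k, φ ((1 : Matrix ι ι E) i k) * b k = b i := by
        rw [Finset.sum_eq_single i]
        · rw [Matrix.one_apply_eq, map_one, one_mul]
        · intro k _ hk
          rw [Matrix.one_apply_ne hk.symm, map_zero, zero_mul]
        · intro h
          exact absurd (Finset.mem_univ i) h
      simp only [map_sub, sub_mul, Finset.sum_sub_distrib]
      rw [h2, h3, sub_self]
    exact sub_eq_zero.1 (hb.indep _ h1 k)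
  have hST : Sm * Tm = 1 := by
    ext j l
    have h1 : ∑ l, φ ((Sm * Tm) j l - (1 : Matrix (AI φ hφ a) (AI φ hφ a) E) j l) * c l = 0 := by
      have h2 : ∑ l, φ ((Sm * Tm) j l) * c l = c j := by
        simp only [Matrix.mul_apply, map_sum, map_mul, Finset.sum_mul]
        rw [Finset.sum_comm]
        conv_rhs => rw [hcS j]
        apply Finset.sum_congr rfl
        intro i _
        conv_rhs => rw [hbT i]
        rw [Finset.mul_sum]
        apply Finset.sum_congr rfl
        intro k _
        simp only [hTm, hSm, Matrix.of_apply]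
        ring
      have h3 : ∑ l, φ ((1 : Matrix (AI φ hφ a) (AI φ hφ a) E) j l) * c l = c j := by
        rw [Finset.sum_eq_single j]
        · rw [Matrix.one_apply_eq, map_one, one_mul]
        · intro k _ hk
          rw [Matrix.one_apply_ne hk.symm, map_zero, zero_mul]
        · intro h
          exact absurd (Finset.mem_univ j) h
      simp only [map_sub, sub_mul, Finset.sum_sub_distrib]
      rw [h2, h3, sub_self]
    exact sub_eq_zero.1 (hc.indep _ h1 l)
  have hφx : φ x = φ RatFunc.X - algebraMap ℂ K a := Res_phi_X_sub φ a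
  have hMT : x • Mm * Tm = Tm * Mcm + x • dT := by
    ext i l
    have h1 : ∑ l, φ ((x • Mm * Tm) i l - (Tm * Mcm + x • dT) i l) * c l = 0 := by
      have h2 : ∑ l, φ ((x • Mm * Tm) i l) * c l = φ x * D (b i) := by
        rw [hM i, Finset.mul_sum]
        simp only [Matrix.mul_apply, map_sum, map_mul, Finset.sum_mul]
        rw [Finset.sum_comm]
        apply Finset.sum_congr rfl
        intro j _
        conv_rhs => rw [hbT j]
        rw [Finset.mul_sum, Finset.mul_sum]
        apply Finset.sum_congr rfl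
        intro k _
        simp only [hTm, hMm, Matrix.of_apply, Matrix.smul_apply, smul_eq_mul, map_mul]
        ring
      have h3 : ∑ l, φ ((Tm * Mcm + x • dT) i l) * c l = φ x * D (b i) := by
        have h4 : D (b i) = ∑ j, (φ (T i j) * D (c j) + c j * φ (dE (T i j))) := by
          conv_lhs => rw [hbT i]
          rw [map_sum]
          apply Finset.sum_congr rfl
          intro j _
          rw [D.leibniz, D_phi D hD]
          simp only [smul_eq_mul]
        rw [h4, Finset.mul_sum]
        simp only [Matrix.add_apply, Matrix.mul_apply, map_add, map_sum, map_mul, add_mul,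
          Finset.sum_mul, Finset.sum_add_distrib, mul_add]
        congr 1
        · rw [Finset.sum_comm]
          apply Finset.sum_congr rfl
          intro j _
          have h5 : φ x * (φ (T i j) * D (c j)) = φ (T i j) * ∑ k, φ (Mc j k) * c k := by
            rw [← hMc j, hφx]
            ring
          rw [h5, Finset.mul_sum]
          apply Finset.sum_congr rfl
          intro k _
          simp only [hTm, hMcm, Matrix.of_apply]
          ring
        · apply Finset.sum_congr rfl
          intro j _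
          simp only [hdT, Matrix.of_apply, Matrix.smul_apply, smul_eq_mul, map_mul]
          ring
      simp only [map_sub, sub_mul, Finset.sum_sub_distrib]
      rw [h2, h3, sub_self]
    exact sub_eq_zero.1 (hc.indep _ h1 l)
  have htr : x * ∑ i, M i i = ∑ j, Mc j j + x * ∑ i, ∑ j, dE (T i j) * S j i := by
    have h1 : x • Mm = Tm * Mcm * Sm + x • dT * Sm := by
      rw [← Matrix.add_mul, ← hMT, Matrix.mul_assoc, hTS, Matrix.mul_one]
    have h2 := congrArg Matrix.trace h1
    rw [Matrix.trace_smul, Matrix.trace_add, Matrix.smul_mul, Matrix.trace_smul,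
      Matrix.mul_assoc, Matrix.trace_mul_comm, Matrix.mul_assoc, hST, Matrix.mul_one] at h2
    simp only [Matrix.trace, Matrix.diag, Matrix.mul_apply, smul_eq_mul, hMm, hMcm, hdT, hSm,
      Matrix.of_apply] at h2
    exact h2
  have hsum : algebraMap ℂ E (∑ P ∈ fibS φ hφ a, ((ram φ P : ℂ) - 1) / 2) =
      ∑ i : AI φ hφ a, algebraMap ℂ E ((i.2 : ℕ) / (ram φ i.1.1 : ℂ)) := by
    rw [← map_sum]
    congr 1
    rw [Fintype.sum_sigma, ← Finset.sum_coe_sort]
    apply Finset.sum_congr rfl
    rintro ⟨P, hP⟩ _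
    have hr := ram_pos hφ P
    have hr2 : (ram φ P : ℂ) = ((ram φ P).toNat : ℂ) := by
      have h3 : ((ram φ P).toNat : ℤ) = ram φ P := Int.toNat_of_nonneg (by omega)
      conv_lhs => rw [← h3]
      rw [Int.cast_natCast]
    have hr3 : (1 : ℕ) ≤ (ram φ P).toNat := by omega
    simp only
    rw [hr2]
    generalize (ram φ P).toNat = r at *
    rw [← Finset.sum_div, Fin.sum_univ_eq_sum_range (fun i : ℕ => (i : ℂ)) r]
    have h4 := Finset.sum_range_id_mul_two r
    have h5 : (∑ i ∈ Finset.range r, (i : ℂ)) * 2 = r * ((r : ℂ) - 1) := by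
      have h6 : (((∑ i ∈ Finset.range r, i) * 2 : ℕ) : ℂ) = ((r * (r - 1) : ℕ) : ℂ) := by
        rw [h4]
      push_cast [Nat.cast_sub hr3] at h6
      exact h6
    have h7 : (r : ℂ) ≠ 0 := by
      have : (r : ℕ) ≠ 0 := by omega
      exact_mod_cast this
    field_simp
    linear_combination -h5
  have hfin : Bdd_big (plE a) 1 (x * ∑ i, M i i -
      algebraMap ℂ E (∑ P ∈ fibS φ hφ a, ((ram φ P : ℂ) - 1) / 2)) := by
    have h1 : x * ∑ i, M i i - algebraMap ℂ E (∑ P ∈ fibS φ hφ a, ((ram φ P : ℂ) - 1) / 2) =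
        (∑ j : AI φ hφ a, (Mc j j - algebraMap ℂ E ((j.2 : ℕ) / (ram φ j.1.1 : ℂ)))) +
          x * ∑ i, ∑ j, dE (T i j) * S j i := by
      rw [htr, hsum, Finset.sum_sub_distrib]
      ring
    rw [h1]
    apply Bdd_big_add
    · apply Res_Bdd_sum
      intro j _
      rcases hdiag j with h | h
      · left
        rw [h, sub_self]
      · right
        omega
    · have h2 : Bdd_big (plE a) 0 (∑ i, ∑ j, dE (T i j) * S j i) := by
        apply Res_Bdd_sum
        intro i _
        apply Res_Bdd_sum
        intro j _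
        have := Bdd_big_mul (plE a) (n := 0) (m := 0) (u := dE (T i j)) (w := S j i)
          (Or.inr (dE_reg a (hT i j))) (Or.inr (hS j i))
        rwa [add_zero] at this
      have h3 := Bdd_big_mul (plE a) (n := 1) (u := x) (Or.inr (Res_ord_X_sub a).ge) h2
      rwa [add_zero] at h3
  rcases hfin with h | h
  · left
    exact sub_eq_zero.1 h
  · right
    omega

end WildG
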