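import Pool.Agent.helper21.GN.Sum

/-! Riemann's inequality and a coordinate of degree at most two. -/

namespace WildG

open Polynomial WildRat WildS WildV

variable {K : Type} [Field K] [Algebra ℂ K]

/-- The elements with poles bounded by `m`. -/
def Lm (m : Pl K → ℕ) (u : K) : Prop := ∀ P : Pl K, -(m P : ℤ) ≤ P.ord u

theorem Riem_big (P : Pl K) {n : ℤ} {u : K} (h : n ≤ P.ord u) : Bdd_big P n u := Or.inr h

theorem Riem_const (P : Pl K) (c : ℂ) : Bdd_big P 0 (algebraMap ℂ K c) := by
  right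
  rw [P.ord_C]

theorem Riem_comb (P : Pl K) {n : ℤ} {u w : K} (c : ℂ) (hu : Bdd_big P n u)
    (hw : Bdd_big P n w) : Bdd_big P n (u - algebraMap ℂ K c * w) := by
  have h1 : Bdd_big P (0 + n) (algebraMap ℂ K (-c) * w) := Bdd_big_mul P (Riem_const P _) hw
  rw [zero_add] at h1
  have h2 := Bdd_big_add P hu h1
  rwa [map_neg, neg_mul, ← sub_eq_add_neg] at h2

theorem Riem_low (P : Pl K) {m : ℕ} (hm : 1 ≤ m) {t u : K} (ht0 : t ≠ 0) (ht1 : P.ord t = 1)
    (h : Bdd_big P 1 (t ^ m * u)) : -((m - 1 : ℕ) : ℤ) ≤ P.ord u := by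
  by_cases hu : u = 0
  · rw [hu, P.ord_zero]
    omega
  · rcases h with h | h
    · exact absurd h (mul_ne_zero (pow_ne_zero _ ht0) hu)
    · rw [P.ord_mul (pow_ne_zero _ ht0) hu, P.ord_pow, ht1] at h
      push_cast [Nat.cast_sub hm]
      omega

/-- Removing one point lowers the dimension by at most one.

Proof.  Let `t` be a uniformizer at `P` (`Pl.exists_unif`).  Every `v i` has a leading coefficient
`c i ∈ ℂ`: `t ^ (m P) * v i - c i` is zero or has positive order (`exists_res`; `0 ≤ P.ord (t ^ m * v i)`,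
also if `v i = 0`).  If all `c i = 0`, then all `v i` satisfy the bound with `m P - 1` (if
`t ^ m v i` has positive order or vanishes, `-(m P - 1) ≤ P.ord (v i)`), drop the last one.
Otherwise `c i0 ≠ 0`; for the others take `v i - (c i / c i0) v i0` (`Fin.succAbove i0`), which are
linearly independent.  The bounds at the other places are kept (`Pl.ord_nonneg_add` style
arguments, mind `P.ord 0 = 0`). -/
theorem Riem_drop {φ : E →ₐ[ℂ] K} (hφ : FinC φ) (m : Pl K → ℕ) {P : Pl K} (hP : 1 ≤ m P) {k : ℕ}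
    (h : ∃ v : Fin (k + 1) → K, LinearIndependent ℂ v ∧ ∀ i, Lm m (v i)) [DecidableEq (Pl K)] :
    ∃ v : Fin k → K, LinearIndependent ℂ v ∧ ∀ i, Lm (Function.update m P (m P - 1)) (v i) := by
  obtain ⟨v, hv, hL⟩ := h
  obtain ⟨t, ht0, ht1⟩ := P.exists_unif
  have hw : ∀ i, 0 ≤ P.ord (t ^ m P * v i) := by
    intro i
    by_cases h0 : v i = 0
    · rw [h0, mul_zero, P.ord_zero]
    · rw [P.ord_mul (pow_ne_zero _ ht0) h0, P.ord_pow, ht1]
      have := hL i P
      omega
  choose c hc using fun i => exists_res φ hφ P _ (hw i)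
  have hc' : ∀ i, Bdd_big P 1 (t ^ m P * v i - algebraMap ℂ K (c i)) := by
    intro i
    rcases hc i with h1 | h1
    · left
      rw [h1, sub_self]
    · right
      omega
  by_cases hall : ∀ i, c i = 0
  · refine ⟨fun i => v i.castSucc, hv.comp _ (Fin.castSucc_injective k), fun i Q => ?_⟩
    by_cases hQ : Q = P
    · subst hQ
      rw [Function.update_self]
      apply Riem_low Q hP ht0 ht1
      have := hc' i.castSucc
      rwa [hall, map_zero, sub_zero] at this
    · rw [Function.update_of_ne hQ]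
      exact hL _ Q
  · push Not at hall
    obtain ⟨i0, hi0⟩ := hall
    refine ⟨fun i => v (i0.succAbove i) - algebraMap ℂ K (c (i0.succAbove i) / c i0) * v i0,
      ?_, fun i Q => ?_⟩
    · rw [Fintype.linearIndependent_iff] at hv ⊢
      intro g hg i
      have h1 := hv (i0.insertNth (-∑ j, g j * (c (i0.succAbove j) / c i0)) g) (by
        rw [Fin.sum_univ_succAbove _ i0]
        simp only [Fin.insertNth_apply_same, Fin.insertNth_apply_succAbove]
        rw [← hg]
        simp only [smul_sub, Finset.sum_sub_distrib, neg_smul, Finset.sum_smul]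
        rw [neg_add_eq_sub]
        congr 1
        apply Finset.sum_congr rfl
        intro j _
        rw [mul_smul, Algebra.smul_def (c (i0.succAbove j) / c i0) (v i0)]) (i0.succAbove i)
      rwa [Fin.insertNth_apply_succAbove] at h1
    · by_cases hQ : Q = P
      · subst hQ
        rw [Function.update_self]
        apply Riem_low Q hP ht0 ht1
        have h2 := Riem_comb Q (c (i0.succAbove i) / c i0) (hc' (i0.succAbove i)) (hc' i0)
        have h3 : t ^ m Q * v (i0.succAbove i) - algebraMap ℂ K (c (i0.succAbove i)) -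
            algebraMap ℂ K (c (i0.succAbove i) / c i0) *
              (t ^ m Q * v i0 - algebraMap ℂ K (c i0)) =
            t ^ m Q * (v (i0.succAbove i) -
              algebraMap ℂ K (c (i0.succAbove i) / c i0) * v i0) := by
          have h4 : algebraMap ℂ K (c (i0.succAbove i) / c i0) * algebraMap ℂ K (c i0) =
              algebraMap ℂ K (c (i0.succAbove i)) := by
            rw [← map_mul, div_mul_cancel₀ _ hi0]
          linear_combination h4
        rwa [h3] at h2
      · rw [Function.update_of_ne hQ]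
        apply Bdd_big_le Q (by omega)
        exact Riem_comb Q _ (Or.inr (hL _ Q)) (Or.inr (hL _ Q))

/-- Induction: from degree `N` to degree two. -/
theorem Riem_two {φ : E →ₐ[ℂ] K} (hφ : FinC φ) {N : ℕ} (hN : 2 ≤ N) (S : Finset (Pl K))
    (m : Pl K → ℕ) (hm : ∀ P, P ∉ S → m P = 0) (hs : ∑ P ∈ S, m P = N)
    (h : ∃ v : Fin N → K, LinearIndependent ℂ v ∧ ∀ i, Lm m (v i)) :
    ∃ m' : Pl K → ℕ, (∀ P, P ∉ S → m' P = 0) ∧ ∑ P ∈ S, m' P = 2 ∧
      ∃ v : Fin 2 → K, LinearIndependent ℂ v ∧ ∀ i, Lm m' (v i) := by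
  classical
  induction N, hN using Nat.le_induction generalizing m with
  | base => exact ⟨m, hm, hs, h⟩
  | succ N hN ih =>
    obtain ⟨P, hPS, hP⟩ : ∃ P ∈ S, m P ≠ 0 := by
      by_contra hcon
      push Not at hcon
      rw [Finset.sum_eq_zero hcon] at hs
      omega
    have hP1 : 1 ≤ m P := Nat.one_le_iff_ne_zero.2 hP
    apply ih (Function.update m P (m P - 1))
    · intro Q hQ
      have hne : Q ≠ P := fun h1 => hQ (by rw [h1]; exact hPS)
      rw [Function.update_of_ne hne]
      exact hm Q hQ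
    · rw [Finset.sum_update_of_mem hPS]
      rw [← Finset.add_sum_erase S m hPS, ← Finset.sdiff_singleton_eq_erase] at hs
      omega
    · exact Riem_drop hφ m hP1 h

/-- A nonconstant element with at most two poles gives a coordinate of degree at most two.

Proof.  `v 0`, `v 1` are linearly independent, so one of them is not constant; it is `χ X` for a
coordinate `χ` (`exists_subst`), finite by `finC_all`.  `sum_poles` for `χ`: `deg χ` is the sum of
`- P.ord (χ X) ≤ m' P` over the poles, which lie in `S`. -/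
theorem Riem_deg {φ : E →ₐ[ℂ] K} (hφ : FinC φ) (S : Finset (Pl K)) (m : Pl K → ℕ)
    (hm : ∀ P, P ∉ S → m P = 0) (hs : ∑ P ∈ S, m P = 2)
    (h : ∃ v : Fin 2 → K, LinearIndependent ℂ v ∧ ∀ i, Lm m (v i)) :
    ∃ χ : E →ₐ[ℂ] K, FinC χ ∧ deg χ ≤ 2 := by
  classical
  obtain ⟨v, hv, hL⟩ := h
  obtain ⟨i, hi⟩ : ∃ i, NonConst (v i) := by
    by_contra hcon
    unfold NonConst at hcon
    push Not at hcon
    choose c hc using hcon
    rw [Fintype.linearIndependent_iff] at hv
    have h1 := hv ![c 1, - c 0] (by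
      rw [Fin.sum_univ_two]
      simp only [Matrix.cons_val_zero, Matrix.cons_val_one]
      rw [hc 0, hc 1, Algebra.smul_def, Algebra.smul_def, map_neg]
      ring)
    have h2 : c 1 = 0 := h1 0
    have h3 : c 0 = 0 := by
      have : - c 0 = 0 := h1 1
      rwa [neg_eq_zero] at this
    have h4 := hv ![1, 0] (by
      rw [Fin.sum_univ_two]
      simp only [Matrix.cons_val_zero, Matrix.cons_val_one]
      rw [hc 0, hc 1, h2, h3]
      simp) 0
    exact one_ne_zero h4
  obtain ⟨χ, hχ⟩ := exists_subst hi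
  have hχf : FinC χ := finC_all φ hφ χ
  refine ⟨χ, hχf, ?_⟩
  have hχi : FinC (χ.comp invE) := finC_comp hχf finC_invE
  have h1 := sum_poles χ hχf hχi
  have hmem : ∀ P ∈ fibS (χ.comp invE) hχi 0, P.ord (χ RatFunc.X) < 0 := fun P hP =>
    (mem_fib_inv χ P).1 (mem_fibS.1 hP)
  have hsub : fibS (χ.comp invE) hχi 0 ⊆ S := by
    intro P hP
    by_contra hPS
    have h2 := hmem P hP
    have h3 := hL i P
    rw [hm P hPS, ← hχ] at h3
    simp at h3
    omega
  have h2 : (deg χ : ℤ) ≤ 2 := by
    calc (deg χ : ℤ) = ∑ P ∈ fibS (χ.comp invE) hχi 0, - P.ord (χ RatFunc.X) := by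
          rw [Finset.sum_neg_distrib, h1, neg_neg]
      _ ≤ ∑ P ∈ fibS (χ.comp invE) hχi 0, (m P : ℤ) := by
          apply Finset.sum_le_sum
          intro P _
          have := hL i P
          rw [← hχ] at this
          omega
      _ ≤ ∑ P ∈ S, (m P : ℤ) :=
          Finset.sum_le_sum_of_subset_of_nonneg hsub fun P _ _ => by positivity
      _ = 2 := by exact_mod_cast hs
  exact_mod_cast h2

/-- The dimension of the space of the elements with poles bounded by the poles of `φ X`.

Proof.  Let `b`, `d` be a reduced basis (`exists_RB`).  By `RB.sum` and `h`, `∑ d i ≤ deg φ`.  The elements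
`x ^ j * b i` with `j + d i ≤ 1` (`x = φ X`) are linearly independent over `ℂ` (`GB.indep`), they lie in
`Lk φ 1`, and there are `∑ (2 - d i)` (natural subtraction) of them, which is at least
`2 n - ∑ d i ≥ n`, `n = deg φ`.  `Lk φ 1 u` says `P.ord (φ X) ≤ P.ord u` at the places over infinity and
`0 ≤ P.ord u` at the others (`exists_value`). -/
theorem Riem_dim {φ : E →ₐ[ℂ] K} (hφ : FinC φ) (h : GenusLe φ) :
    ∃ v : Fin (deg φ) → K, LinearIndependent ℂ v ∧
      ∀ i, Lm (fun P => (- P.ord (φ RatFunc.X)).toNat) (v i) := by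
  classical
  obtain ⟨b, d, hb⟩ := exists_RB φ hφ
  obtain ⟨T, hT⟩ := RB.sum hφ hb
  have h1 := h T
  rw [← hT] at h1
  have h2 : ∑ i, d i ≤ deg φ := by
    have : ∑ i, (d i : ℤ) ≤ (deg φ : ℤ) := by linarith
    exact_mod_cast this
  have hcard : Fintype.card (Fin (deg φ)) ≤ Fintype.card (Σ i : Fin (deg φ), Fin (2 - d i)) := by
    rw [Fintype.card_sigma]
    simp only [Fintype.card_fin]
    have h3 : ∑ i : Fin (deg φ), 2 ≤ ∑ i, ((2 - d i) + d i) :=
      Finset.sum_le_sum fun i _ => by omega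
    rw [Finset.sum_add_distrib, Finset.sum_const, Finset.card_univ, Fintype.card_fin,
      smul_eq_mul] at h3
    omega
  obtain ⟨f⟩ := Function.Embedding.nonempty_of_card_le hcard
  have hlin : LinearIndependent ℂ (fun p : Σ i : Fin (deg φ), Fin (2 - d i) =>
      φ (algebraMap ℂ[X] E (X ^ (p.2 : ℕ))) * b p.1) := by
    rw [Fintype.linearIndependent_iff]
    intro g hg p
    rw [Fintype.sum_sigma] at hg
    have h4 := hb.gb.indep (fun i => algebraMap ℂ[X] E (∑ j : Fin (2 - d i),
      C (g ⟨i, j⟩) * X ^ (j : ℕ))) (by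
        rw [← hg]
        apply Finset.sum_congr rfl
        intro i _
        rw [map_sum, map_sum, Finset.sum_mul]
        apply Finset.sum_congr rfl
        intro j _
        rw [map_mul, map_mul, ← algC_E, coord_C, mul_assoc, Algebra.smul_def]) p.1
    have h5 : (∑ j : Fin (2 - d p.1), C (g ⟨p.1, j⟩) * X ^ (j : ℕ) : ℂ[X]) = 0 :=
      (map_eq_zero_iff _ (RatFunc.algebraMap_injective ℂ)).1 h4
    have h6 := congrArg (fun q : ℂ[X] => q.coeff (p.2 : ℕ)) h5
    simp only [Polynomial.finsetSum_coeff, Polynomial.coeff_C_mul, Polynomial.coeff_X_pow,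
      Polynomial.coeff_zero] at h6
    rw [Finset.sum_eq_single p.2] at h6
    · simpa using h6
    · intro j _ hj
      rw [if_neg, mul_zero]
      intro h7
      exact hj (Fin.ext h7.symm)
    · intro h7
      exact absurd (Finset.mem_univ _) h7
  refine ⟨fun i => φ (algebraMap ℂ[X] E (X ^ ((f i).2 : ℕ))) * b (f i).1,
    hlin.comp _ f.injective, fun i P => ?_⟩
  have hk : Lk φ 1 (φ (algebraMap ℂ[X] E (X ^ ((f i).2 : ℕ))) * b (f i).1) := by
    apply (hb.mem (f i).1).poly
    rw [Polynomial.natDegree_X_pow]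
    have := (f i).2.2
    omega
  rcases lt_or_ge (P.ord (φ RatFunc.X)) 0 with h3 | h3
  · have := hk.2 P h3
    rw [Nat.cast_one, one_mul] at this
    change -(((- P.ord (φ RatFunc.X)).toNat : ℕ) : ℤ) ≤
      P.ord (φ (algebraMap ℂ[X] E (X ^ ((f i).2 : ℕ))) * b (f i).1)
    omega
  · obtain ⟨a, ha⟩ := exists_value φ hφ P h3
    have := hk.1 a P ha
    change -(((- P.ord (φ RatFunc.X)).toNat : ℕ) : ℤ) ≤
      P.ord (φ (algebraMap ℂ[X] E (X ^ ((f i).2 : ℕ))) * b (f i).1)
    omega

/-- **A coordinate of degree at most two.**  Proof: if `deg φ ≤ 1` take `φ`.  Otherwise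
`Riem_dim`, `Riem_two` with `S` = the places over infinity (`fibS (φ.comp invE) _ 0`, `mem_fib_inv`,
`sum_poles`), `Riem_deg`. -/
theorem exists_deg_two {φ : E →ₐ[ℂ] K} (hφ : FinC φ) (h : GenusLe φ) :
    ∃ χ : E →ₐ[ℂ] K, FinC χ ∧ deg χ ≤ 2 := by
  classical
  by_cases h2 : deg φ ≤ 2
  · exact ⟨φ, hφ, h2⟩
  · have hφi : FinC (φ.comp invE) := finC_comp hφ finC_invE
    have hmem : ∀ P : Pl K, P ∈ fibS (φ.comp invE) hφi 0 ↔ P.ord (φ RatFunc.X) < 0 := fun P =>
      mem_fibS.trans (mem_fib_inv φ P)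
    have hm : ∀ P : Pl K, P ∉ fibS (φ.comp invE) hφi 0 → (- P.ord (φ RatFunc.X)).toNat = 0 := by
      intro P hP
      rw [hmem] at hP
      omega
    obtain ⟨m', hm', hs', h'⟩ := Riem_two hφ (N := deg φ) (by omega) (fibS (φ.comp invE) hφi 0)
      (fun P => (- P.ord (φ RatFunc.X)).toNat) hm (by
        have h3 := sum_poles φ hφ hφi
        have h4 : ((∑ P ∈ fibS (φ.comp invE) hφi 0, (- P.ord (φ RatFunc.X)).toNat : ℕ) : ℤ) =
            (deg φ : ℤ) := by
          push_cast
          rw [← neg_neg ((deg φ : ℤ)), ← h3, ← Finset.sum_neg_distrib]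
          apply Finset.sum_congr rfl
          intro P hP
          have := (hmem P).1 hP
          omega
        exact_mod_cast h4) (Riem_dim hφ h)
    exact Riem_deg hφ _ m' hm' hs' h'

end WildG
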