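import Pool.Agent.helper21.GN.Res
import Pool.Agent.helper21.GN.Red

/-! The sum of the degrees of a reduced basis. (author: helper1) -/

namespace WildG

open Polynomial WildRat WildS WildV

variable {K : Type} [Field K] [Algebra ℂ K]

/-- vanishing at a place -/
def Sum_Sm (P : Pl K) (z : K) : Prop := z = 0 ∨ 0 < P.ord z

theorem Sum_Sm.neg {P : Pl K} {z : K} (h : Sum_Sm P z) : Sum_Sm P (-z) := by
  rcases h with h | h
  · left; rw [h, neg_zero]
  · right; rwa [P.ord_neg]

theorem Sum_Sm.add {P : Pl K} {z w : K} (hz : Sum_Sm P z) (hw : Sum_Sm P w) :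
    Sum_Sm P (z + w) := by
  rcases hz with hz | hz
  · rw [hz, zero_add]; exact hw
  rcases hw with hw | hw
  · rw [hw, add_zero]; exact Or.inr hz
  by_cases h0 : z + w = 0
  · exact Or.inl h0
  right
  rcases P.ord_add h0 with h | h | h
  · exact lt_of_lt_of_le (lt_min hz hw) h
  · rw [h, P.ord_zero] at hz; exact absurd hz (lt_irrefl _)
  · rw [h, P.ord_zero] at hw; exact absurd hw (lt_irrefl _)

theorem Sum_Sm.sub {P : Pl K} {z w : K} (hz : Sum_Sm P z) (hw : Sum_Sm P w) :
    Sum_Sm P (z - w) := by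
  rw [sub_eq_add_neg]; exact hz.add hw.neg

theorem Sum_Sm.sum {P : Pl K} {ι : Type} (s : Finset ι) (f : ι → K)
    (h : ∀ i ∈ s, Sum_Sm P (f i)) : Sum_Sm P (∑ i ∈ s, f i) := by
  classical
  induction s using Finset.induction_on with
  | empty => left; simp
  | insert a s ha ih =>
    rw [Finset.sum_insert ha]
    exact (h a (Finset.mem_insert_self _ _)).add
      (ih fun i hi => h i (Finset.mem_insert_of_mem hi))

theorem Sum_Sm.mul {P : Pl K} {z w : K} (hz : Sum_Sm P z) (hw : 0 ≤ P.ord w) :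
    Sum_Sm P (z * w) := by
  rcases hz with hz | hz
  · left; rw [hz, zero_mul]
  by_cases h1 : z = 0
  · left; rw [h1, zero_mul]
  by_cases h2 : w = 0
  · left; rw [h2, mul_zero]
  right
  rw [P.ord_mul h1 h2]
  omega

theorem Sum_Sm.reg {P : Pl K} {z : K} (hz : Sum_Sm P z) : 0 ≤ P.ord z := by
  rcases hz with hz | hz
  · rw [hz, P.ord_zero]
  · exact hz.le

theorem Sum_Sm.const {P : Pl K} {c : ℂ} (h : Sum_Sm P (algebraMap ℂ K c)) : c = 0 := by
  rcases h with h | h
  · rwa [_root_.map_eq_zero] at h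
  · rw [P.ord_C] at h
    exact absurd h (lt_irrefl _)

theorem Sum_of_or {P : Pl K} {z w : K} (h : z = w ∨ 0 < P.ord (z - w)) : Sum_Sm P (z - w) := by
  rcases h with h | h
  · left; rw [h, sub_self]
  · right; exact h

theorem Sum_or_of {P : Pl K} {z w : K} (h : Sum_Sm P (z - w)) : z = w ∨ 0 < P.ord (z - w) := by
  rcases h with h | h
  · left; exact sub_eq_zero.1 h
  · right; exact h

theorem Sum_reg_sum {P : Pl K} {ι : Type} (s : Finset ι) (f : ι → K)
    (h : ∀ i ∈ s, 0 ≤ P.ord (f i)) : 0 ≤ P.ord (∑ i ∈ s, f i) := by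
  classical
  induction s using Finset.induction_on with
  | empty => simp [P.ord_zero]
  | insert a s ha ih =>
    rw [Finset.sum_insert ha]
    exact P.ord_nonneg_add (h a (Finset.mem_insert_self _ _))
      (ih fun i hi => h i (Finset.mem_insert_of_mem hi))

theorem Sum_lin (a : ℂ) :
    (RatFunc.X - algebraMap ℂ E a : E) = algebraMap ℂ[X] E (X - C a) := by
  rw [map_sub, RatFunc.algebraMap_X, algC_E]

theorem Sum_lin_ne (a : ℂ) : (RatFunc.X - algebraMap ℂ E a : E) ≠ 0 := by
  rw [Sum_lin]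
  intro h
  exact X_sub_C_ne_zero a ((IsFractionRing.injective ℂ[X] E) (by rw [h, map_zero]))

theorem Sum_lin_ord (a b : ℂ) :
    (plE b).ord (RatFunc.X - algebraMap ℂ E a) = if b = a then 1 else 0 := by
  rw [Sum_lin, plE_poly b (X_sub_C_ne_zero a)]
  rw [rootMultiplicity_X_sub_C]
  split_ifs <;> rfl

/-- an element of `E` without finite poles is a polynomial -/
theorem Sum_poly {u : E} (h : ∀ b, 0 ≤ (plE b).ord u) : ∃ p : ℂ[X], u = algebraMap ℂ[X] E p := by
  by_cases hu : u = 0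
  · exact ⟨0, by rw [hu, map_zero]⟩
  have hnum : u.num ≠ 0 := RatFunc.num_ne_zero hu
  have hden : u.denom ≠ 0 := RatFunc.denom_ne_zero u
  have hd : u.denom.natDegree = 0 := by
    by_contra hd
    obtain ⟨b, hb⟩ := IsAlgClosed.exists_root u.denom
      (fun h0 => hd (natDegree_eq_of_degree_eq_some h0))
    have hb' : ¬ u.num.IsRoot b := by
      intro hn
      have hc := RatFunc.isCoprime_num_denom u
      obtain ⟨s, t, hst⟩ := hc
      have := congrArg (eval b) hst
      simp only [eval_add, eval_mul, eval_one] at this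
      rw [IsRoot.def.1 hn, IsRoot.def.1 hb] at this
      simp at this
    have h1 := h b
    have hne : ∀ p : ℂ[X], p ≠ 0 → algebraMap ℂ[X] E p ≠ 0 := fun p hp h0 =>
      hp ((IsFractionRing.injective ℂ[X] E) (by rw [h0, map_zero]))
    rw [← RatFunc.num_div_denom u, (plE b).ord_div (hne _ hnum) (hne _ hden), plE_poly b hnum,
      plE_poly b hden, rootMultiplicity_eq_zero hb'] at h1
    have h2 : 0 < u.denom.rootMultiplicity b := (rootMultiplicity_pos hden).2 hb
    omega
  have h1 : u.denom = 1 := by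
    have := RatFunc.monic_denom u
    exact this.natDegree_eq_zero.1 hd
  refine ⟨u.num, ?_⟩
  conv_lhs => rw [← RatFunc.num_div_denom u, h1, map_one, div_one]

theorem Sum_X_ord : (plE 0).ord (RatFunc.X : E) = 1 := by
  have := Sum_lin_ord 0 0
  rwa [map_zero, sub_zero, if_pos rfl] at this

theorem Sum_inv_ord {p : ℂ[X]} (hp : p ≠ 0) :
    (plE 0).ord (invE (algebraMap ℂ[X] E p)) = - (p.natDegree : ℤ) := by
  have h1 : (plE 0).ord (invE RatFunc.X) = -1 := by
    rw [invE_X, (plE 0).ord_inv, Sum_X_ord]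
  rw [ord_coord_pole (φ := invE) (by rw [h1]; norm_num) hp, h1]
  ring

theorem Sum_one_sub (a : ℂ) : (1 - algebraMap ℂ E a * RatFunc.X : E) ≠ 0 ∧
    (plE 0).ord (1 - algebraMap ℂ E a * RatFunc.X) = 0 := by
  have h1 : (1 - algebraMap ℂ E a * RatFunc.X : E) = algebraMap ℂ[X] E (1 - C a * X) := by
    rw [map_sub, map_mul, map_one, RatFunc.algebraMap_X, algC_E]
  have h2 : (1 - C a * X : ℂ[X]).eval 0 = 1 := by simp
  have h3 : (1 - C a * X : ℂ[X]) ≠ 0 := by
    intro h
    rw [h] at h2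
    simp at h2
  constructor
  · rw [h1]
    intro h
    exact h3 ((IsFractionRing.injective ℂ[X] E) (by rw [h, map_zero]))
  · rw [h1, plE_poly 0 h3, rootMultiplicity_eq_zero]
    · rfl
    · rw [IsRoot.def, h2]
      exact one_ne_zero

theorem Sum_inv_lin (a : ℂ) : invE (RatFunc.X * (RatFunc.X - algebraMap ℂ E a)⁻¹) =
    (1 - algebraMap ℂ E a * RatFunc.X)⁻¹ := by
  have hX : (RatFunc.X : E) ≠ 0 := RatFunc.X_ne_zero
  rw [map_mul, map_inv₀, map_sub, invE_X, AlgHom.commutes]
  have h1 : (RatFunc.X : E)⁻¹ - algebraMap ℂ E a =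
      (1 - algebraMap ℂ E a * RatFunc.X) * (RatFunc.X : E)⁻¹ := by
    field_simp
  rw [h1, mul_inv, inv_inv]
  field_simp

/-- Partial fractions: an element of `E` which has at every finite point at most a simple pole with
residue `r a`, and for which `X * τ` has at infinity the value `s`: the sum of the residues is `s`.

Proof.  Let `A` be a finite set containing all `a` with `(plE a).ord τ ≠ 0` (`plE_support`; if `τ = 0` take
`A` empty).  For `a ∉ A` the order of `(X - a) τ` is one (or `τ = 0`), so `r a = 0` (`hr` and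
`Pl.value_unique`).  Put `ρ = τ - ∑ a ∈ A, r a / (X - a)`.  At every `b`, `ρ` is regular: `(X - b) ρ` has a
positive order or vanishes (the terms with `a ≠ b` are regular at `b`).  So `ρ` is a polynomial (its
denominator has no root; compare `RatFunc`, `plE_poly`).  `X ρ` is regular at infinity
(`(plE 0).ord (invE (X ρ)) ≥ 0`, because this holds for `X τ` and `X / (X - a)`), so `ρ = 0` (a nonzero
polynomial `p` has `(plE 0).ord (invE (X p)) = - natDegree p - 1`).  So
`X τ = ∑ r a X / (X - a)`, whose value at infinity is `∑ r a`. -/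
theorem residues {τ : E} (r : ℂ → ℂ) {s : ℂ}
    (hr : ∀ a, (RatFunc.X - algebraMap ℂ E a) * τ = algebraMap ℂ E (r a) ∨
      0 < (plE a).ord ((RatFunc.X - algebraMap ℂ E a) * τ - algebraMap ℂ E (r a)))
    (hs : invE (RatFunc.X * τ) = algebraMap ℂ E s ∨
      0 < (plE 0).ord (invE (RatFunc.X * τ) - algebraMap ℂ E s)) :
    ∃ A : Finset ℂ, (∀ a, r a ≠ 0 → a ∈ A) ∧ ∑ a ∈ A, r a = s := by
  classical
  have hfin : {a : ℂ | (plE a).ord τ ≠ 0}.Finite := by
    by_cases h0 : τ = 0
    · have : {a : ℂ | (plE a).ord τ ≠ 0} = ∅ := by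
        ext a
        simp [h0, (plE a).ord_zero]
      rw [this]
      exact Set.finite_empty
    · exact plE_support τ h0
  have hr' : ∀ a, Sum_Sm (plE a) ((RatFunc.X - algebraMap ℂ E a) * τ - algebraMap ℂ E (r a)) :=
    fun a => Sum_of_or (hr a)
  have hs' := Sum_of_or hs
  have hA : ∀ a, r a ≠ 0 → a ∈ hfin.toFinset := by
    intro a ha
    rw [Set.Finite.mem_toFinset]
    intro h0
    apply ha
    have h1 : Sum_Sm (plE a) ((RatFunc.X - algebraMap ℂ E a) * τ) := by
      refine Sum_Sm.mul (Or.inr ?_) h0.ge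
      rw [Sum_lin_ord, if_pos rfl]
      norm_num
    have h2 := h1.sub (hr' a)
    rw [sub_sub_cancel] at h2
    exact h2.const
  refine ⟨hfin.toFinset, hA, ?_⟩
  set A := hfin.toFinset with hAdef
  let c : ℂ → E := fun a => algebraMap ℂ E (r a) * (RatFunc.X - algebraMap ℂ E a)⁻¹
  have hcb : ∀ b, 0 ≤ (plE b).ord (τ - c b) := by
    intro b
    have h1 : (RatFunc.X - algebraMap ℂ E b) * (τ - c b) =
        (RatFunc.X - algebraMap ℂ E b) * τ - algebraMap ℂ E (r b) := by
      have := Sum_lin_ne b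
      simp only [c]
      field_simp
    by_cases h0 : τ - c b = 0
    · rw [h0, (plE b).ord_zero]
    have h2 := hr' b
    rw [← h1] at h2
    rcases h2 with h2 | h2
    · exact absurd h2 (mul_ne_zero (Sum_lin_ne b) h0)
    · rw [(plE b).ord_mul (Sum_lin_ne b) h0, Sum_lin_ord, if_pos rfl] at h2
      omega
  have hcab : ∀ a b, a ≠ b → 0 ≤ (plE b).ord (c a) := by
    intro a b hab
    refine (plE b).ord_nonneg_mul ?_ ?_
    · rw [(plE b).ord_C]
    · rw [(plE b).ord_inv, Sum_lin_ord, if_neg (Ne.symm hab)]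
      norm_num
  have hρ : ∀ b, 0 ≤ (plE b).ord (τ - ∑ a ∈ A, c a) := by
    intro b
    by_cases hb : b ∈ A
    · rw [← Finset.add_sum_erase A c hb, ← sub_sub]
      refine (plE b).ord_nonneg_sub (hcb b) (Sum_reg_sum _ _ fun a ha => ?_)
      exact hcab a b (Finset.ne_of_mem_erase ha)
    · have hrb : r b = 0 := by
        by_contra h
        exact hb (hA b h)
      have hcb0 : c b = 0 := by
        simp only [c, hrb, map_zero, zero_mul]
      have h1 := hcb b
      rw [hcb0, sub_zero] at h1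
      refine (plE b).ord_nonneg_sub h1 (Sum_reg_sum _ _ fun a ha => ?_)
      exact hcab a b (fun h => hb (h ▸ ha))
  obtain ⟨p, hp⟩ := Sum_poly hρ
  have hcinf : ∀ a, invE (RatFunc.X * c a) =
      algebraMap ℂ E (r a) * (1 - algebraMap ℂ E a * RatFunc.X)⁻¹ := by
    intro a
    have : RatFunc.X * c a = algebraMap ℂ E (r a) *
        (RatFunc.X * (RatFunc.X - algebraMap ℂ E a)⁻¹) := by
      simp only [c]
      ring
    rw [this, map_mul, AlgHom.commutes, Sum_inv_lin]
  have hτ : τ = ∑ a ∈ A, c a := by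
    have hp0 : p = 0 := by
      by_contra hp0
      have h1 : 0 ≤ (plE 0).ord (invE (RatFunc.X * (τ - ∑ a ∈ A, c a))) := by
        rw [mul_sub, map_sub, Finset.mul_sum, map_sum]
        refine (plE 0).ord_nonneg_sub ?_ (Sum_reg_sum _ _ fun a _ => ?_)
        · have h2 : invE (RatFunc.X * τ) = (invE (RatFunc.X * τ) - algebraMap ℂ E s) +
              algebraMap ℂ E s := by ring
          rw [h2]
          exact (plE 0).ord_nonneg_add hs'.reg ((plE 0).ord_C s).ge
        · rw [hcinf]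
          refine (plE 0).ord_nonneg_mul ((plE 0).ord_C _).ge ?_
          rw [(plE 0).ord_inv, (Sum_one_sub a).2]
          norm_num
      rw [hp, ← RatFunc.algebraMap_X, ← map_mul, Sum_inv_ord (mul_ne_zero X_ne_zero hp0),
        natDegree_X_mul hp0] at h1
      push_cast at h1
      omega
    rw [hp0, map_zero] at hp
    exact sub_eq_zero.1 hp
  have hfinal : Sum_Sm (plE 0) (algebraMap ℂ E (∑ a ∈ A, r a - s)) := by
    have h1 : invE (RatFunc.X * τ) - algebraMap ℂ E (∑ a ∈ A, r a) =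
        ∑ a ∈ A, (algebraMap ℂ E (r a) * algebraMap ℂ E a * RatFunc.X) *
          (1 - algebraMap ℂ E a * RatFunc.X)⁻¹ := by
      rw [hτ, Finset.mul_sum, map_sum, map_sum, ← Finset.sum_sub_distrib]
      refine Finset.sum_congr rfl fun a _ => ?_
      rw [hcinf]
      have := (Sum_one_sub a).1
      field_simp
      ring
    have h2 : Sum_Sm (plE 0) (invE (RatFunc.X * τ) - algebraMap ℂ E (∑ a ∈ A, r a)) := by
      rw [h1]
      refine Sum_Sm.sum _ _ fun a _ => Sum_Sm.mul ?_ ?_
      · rw [mul_comm]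
        refine Sum_Sm.mul (Or.inr (by rw [Sum_X_ord]; norm_num)) ?_
        exact (plE 0).ord_nonneg_mul ((plE 0).ord_C _).ge ((plE 0).ord_C _).ge
      · rw [(plE 0).ord_inv, (Sum_one_sub a).2]
        norm_num
    have h3 := hs'.sub h2
    have h4 : invE (RatFunc.X * τ) - algebraMap ℂ E s -
        (invE (RatFunc.X * τ) - algebraMap ℂ E (∑ a ∈ A, r a)) =
        algebraMap ℂ E (∑ a ∈ A, r a - s) := by
      rw [map_sub]
      ring
    rwa [h4] at h3
  exact sub_eq_zero.1 hfinal.const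

theorem Sum_deriv_inv_pow {x : K} (hx : x ≠ 0) (D : Derivation ℂ K K) (hD : D x = 1) (k : ℕ) :
    D (x⁻¹ ^ k) = -(k : K) * x⁻¹ ^ (k + 1) := by
  have hinv : D x⁻¹ = -x⁻¹ ^ 2 := by
    have h1 : D (x * x⁻¹) = 0 := by
      rw [mul_inv_cancel₀ hx]
      exact D.map_one_eq_zero
    rw [D.leibniz, hD, smul_eq_mul, smul_eq_mul, mul_one] at h1
    have h2 : x * D x⁻¹ = -x⁻¹ := by linear_combination h1
    have h3 : D x⁻¹ = x⁻¹ * (x * D x⁻¹) := by
      rw [← mul_assoc, inv_mul_cancel₀ hx, one_mul]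
    rw [h3, h2]
    ring
  induction k with
  | zero => simp [D.map_one_eq_zero]
  | succ k ih =>
    rw [pow_succ, D.leibniz, ih, hinv, smul_eq_mul, smul_eq_mul]
    push_cast
    ring

/-- **The genus formula for a reduced basis.**

Proof.  Let `D` be the derivation with `D (φ X) = 1` (`exists_deriv`), `D (b i) = ∑ φ (M i j) b j`
(`LB.coord` for the local basis `GB.lb`), `τ = ∑ M i i`.  `res_basis` at every `a` (`GB.lb`): `(X - a) τ`
has the value `r a = ∑ P over a, (ram P - 1) / 2`.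
At infinity: `φ' = φ.comp invE`, `x = φ X`, the derivation `D' = - x ^ 2 D` (`(-x ^ 2) • D`) has
`D' (φ' X) = D' (x⁻¹) = 1`.  For `c i = x⁻¹ ^ d i * b i` (`RB.inf`):
`D' (c i) = d i x c i - x ^ 2 ∑ x ^ (d j - d i) φ (M i j) c j` (integer exponents), so the connection
matrix is `M' i j = invE (δ_ij d i X - X ^ 2 X ^ (d j - d i) M i j)`, its trace is
`invE (X ∑ d i - X ^ 2 τ)`, and `res_basis` for `φ'`, `a = 0`: `X * trace M' = invE (∑ d i - X τ)` has at `0`
the value `r' = ∑ P over infinity, (ram φ' P - 1) / 2`.  So `invE (X τ)` has the value `s = ∑ d i - r'`.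
`residues`: `∑ a ∈ A, r a = ∑ d i - r'`.  Take `T` = the union of the (disjoint) fibres over `A` and of the
fibre over infinity; `ram φ' = ram φ` (`ram_inv`).  All terms are real; compare in `ℂ`, then cast. -/
theorem RB.sum {φ : E →ₐ[ℂ] K} (hφ : FinC φ) {n : ℕ} {b : Fin n → K} {d : Fin n → ℕ}
    (h : RB φ b d) : ∃ T : Finset (Pl K), 2 * ∑ i, (d i : ℤ) = ∑ P ∈ T, (ram φ P - 1) := by
  classical
  have hφ' : FinC (φ.comp invE) := finC_comp hφ finC_invE
  obtain ⟨D, hD, -⟩ := exists_deriv φ hφ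
  have hM0 : ∀ i, ∃ q : Fin n → E, D (b i) = ∑ j, φ (q j) * b j := fun i =>
    LB.coord hφ (h.gb.lb hφ 0) (D (b i))
  choose M hM using hM0
  set x : K := φ RatFunc.X with hx
  have hx0 : x ≠ 0 := by
    have := coord_sub_ne φ 0
    rwa [map_zero, sub_zero] at this
  have hφX : (φ.comp invE) RatFunc.X = x⁻¹ := by
    rw [AlgHom.comp_apply, invE_X, map_inv₀]
  have hφi : ∀ w, (φ.comp invE) (invE w) = φ w := by
    intro w
    rw [AlgHom.comp_apply, invE_invE]
  let D' : Derivation ℂ K K := (-x ^ 2) • D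
  have hD'a : ∀ u, D' u = -x ^ 2 * D u := fun u => rfl
  have hD' : D' ((φ.comp invE) RatFunc.X) = 1 := by
    have h1 := Sum_deriv_inv_pow hx0 D hD 1
    rw [pow_one] at h1
    have h2 : x ^ 2 * x⁻¹ ^ 2 = 1 := by
      rw [← mul_pow, mul_inv_cancel₀ hx0, one_pow]
    rw [hφX, hD'a, h1]
    push_cast
    linear_combination h2
  let M' : Fin n → Fin n → E := fun i j =>
    invE ((if i = j then (d i : E) * RatFunc.X else 0) -
      RatFunc.X ^ 2 * (RatFunc.X⁻¹ ^ d i * RatFunc.X ^ d j * M i j))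
  have hM' : ∀ i, D' (x⁻¹ ^ d i * b i) =
      ∑ j, (φ.comp invE) (M' i j) * (x⁻¹ ^ d j * b j) := by
    intro i
    have h1 : ∀ j, (φ.comp invE) (M' i j) * (x⁻¹ ^ d j * b j) =
        (if i = j then (d i : K) * x * (x⁻¹ ^ d j * b j) else 0) -
          x ^ 2 * x⁻¹ ^ d i * (φ (M i j) * b j) := by
      intro j
      simp only [M']
      rw [hφi]
      rw [map_sub, map_mul, map_mul, map_mul, map_pow, map_pow, map_pow, map_inv₀, ← hx]
      have h2 : x ^ d j * x⁻¹ ^ d j = 1 := by
        rw [← mul_pow, mul_inv_cancel₀ hx0, one_pow]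
      have h3 : φ (if i = j then (d i : E) * RatFunc.X else 0) =
          if i = j then (d i : K) * x else 0 := by
        split_ifs
        · rw [map_mul, map_natCast]
        · rw [map_zero]
      rw [h3]
      split_ifs
      · linear_combination (-(x ^ 2 * x⁻¹ ^ d i * φ (M i j) * b j)) * h2
      · linear_combination (-(x ^ 2 * x⁻¹ ^ d i * φ (M i j) * b j)) * h2
    rw [Finset.sum_congr rfl fun j _ => h1 j, Finset.sum_sub_distrib, Finset.sum_ite_eq,
      if_pos (Finset.mem_univ i), ← Finset.mul_sum, ← hM i, hD'a, D.leibniz,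
      Sum_deriv_inv_pow hx0 D hD, smul_eq_mul, smul_eq_mul, pow_succ]
    have h4 : x * x⁻¹ = 1 := mul_inv_cancel₀ hx0
    linear_combination (b i * (d i : K) * x⁻¹ ^ d i * x) * h4
  let r : ℂ → ℂ := fun a => ∑ P ∈ fibS φ hφ a, ((ram φ P : ℂ) - 1) / 2
  let r' : ℂ := ∑ P ∈ fibS (φ.comp invE) hφ' 0, ((ram (φ.comp invE) P : ℂ) - 1) / 2
  have hr : ∀ a, (RatFunc.X - algebraMap ℂ E a) * ∑ i, M i i = algebraMap ℂ E (r a) ∨
      0 < (plE a).ord ((RatFunc.X - algebraMap ℂ E a) * ∑ i, M i i - algebraMap ℂ E (r a)) :=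
    fun a => res_basis hφ D hD (h.gb.lb hφ a) hM
  have hinf := Sum_of_or (res_basis hφ' D' hD' (h.inf hφ) hM')
  have htr : (RatFunc.X - algebraMap ℂ E 0) * ∑ i, M' i i =
      algebraMap ℂ E (∑ i, (d i : ℂ)) - invE (RatFunc.X * ∑ i, M i i) := by
    have hX : (RatFunc.X : E) ≠ 0 := RatFunc.X_ne_zero
    have h1 : ∀ i, M' i i = invE ((d i : E) * RatFunc.X - RatFunc.X ^ 2 * M i i) := by
      intro i
      simp only [M', if_true]
      have h2 : (RatFunc.X : E)⁻¹ ^ d i * RatFunc.X ^ d i = 1 := by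
        rw [← mul_pow, inv_mul_cancel₀ hX, one_pow]
      rw [h2, one_mul]
    have h3 : (RatFunc.X : E) = invE (RatFunc.X⁻¹) := by
      rw [map_inv₀, invE_X, inv_inv]
    rw [Finset.sum_congr rfl fun i _ => h1 i, map_zero, sub_zero]
    nth_rewrite 1 [h3]
    rw [← map_sum, ← map_mul, Finset.mul_sum]
    have h4 : ∀ i, (RatFunc.X : E)⁻¹ * ((d i : E) * RatFunc.X - RatFunc.X ^ 2 * M i i) =
        (d i : E) - RatFunc.X * M i i := by
      intro i
      field_simp
    rw [Finset.sum_congr rfl fun i _ => h4 i, Finset.sum_sub_distrib, map_sub, ← Finset.mul_sum]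
    congr 1
    rw [map_sum, map_sum]
    refine Finset.sum_congr rfl fun i _ => ?_
    rw [map_natCast, map_natCast]
  have hs : invE (RatFunc.X * ∑ i, M i i) = algebraMap ℂ E (∑ i, (d i : ℂ) - r') ∨
      0 < (plE 0).ord (invE (RatFunc.X * ∑ i, M i i) - algebraMap ℂ E (∑ i, (d i : ℂ) - r')) := by
    refine Sum_or_of ?_
    rw [htr] at hinf
    have h1 := hinf.neg
    have h2 : -(algebraMap ℂ E (∑ i, (d i : ℂ)) - invE (RatFunc.X * ∑ i, M i i) -
        algebraMap ℂ E r') =
        invE (RatFunc.X * ∑ i, M i i) - algebraMap ℂ E (∑ i, (d i : ℂ) - r') := by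
      rw [map_sub]
      ring
    rw [h2] at h1
    exact h1
  obtain ⟨A, -, hAs⟩ := residues r hr hs
  have memi : ∀ P : Pl K, P ∈ fibS (φ.comp invE) hφ' 0 ↔ P.ord (φ RatFunc.X) < 0 := fun P => by
    rw [mem_fibS]
    exact mem_fib_inv φ P
  have hdis : Disjoint (A.biUnion fun a => fibS φ hφ a) (fibS (φ.comp invE) hφ' 0) := by
    rw [Finset.disjoint_left]
    intro P hP hP'
    obtain ⟨a, -, ha⟩ := Finset.mem_biUnion.1 hP
    rw [mem_fibS] at ha
    have h1 : 0 ≤ P.ord (φ RatFunc.X) := P.ord_nonneg_of_value ha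
    have h2 := (memi P).1 hP'
    omega
  refine ⟨(A.biUnion fun a => fibS φ hφ a) ∪ fibS (φ.comp invE) hφ' 0, ?_⟩
  have hinj : ((2 * ∑ i, (d i : ℤ) : ℤ) : ℂ) =
      ((∑ P ∈ (A.biUnion fun a => fibS φ hφ a) ∪ fibS (φ.comp invE) hφ' 0, (ram φ P - 1) : ℤ) : ℂ) := by
    rw [Finset.sum_union hdis, Finset.sum_biUnion]
    · push_cast
      have h1 : ∀ a, ∑ P ∈ fibS φ hφ a, ((ram φ P : ℂ) - 1) = 2 * r a := by
        intro a
        simp only [r]
        rw [Finset.mul_sum]
        refine Finset.sum_congr rfl fun P _ => ?_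
        ring
      have h2 : ∑ P ∈ fibS (φ.comp invE) hφ' 0, ((ram φ P : ℂ) - 1) = 2 * r' := by
        simp only [r']
        rw [Finset.mul_sum]
        refine Finset.sum_congr rfl fun P _ => ?_
        rw [ram_inv hφ P]
        ring
      rw [Finset.sum_congr rfl fun a _ => h1 a, h2, ← Finset.mul_sum, hAs]
      ring
    · intro a _ a' _ haa
      rw [Function.onFun, Finset.disjoint_left]
      intro P hP hP'
      rw [mem_fibS] at hP hP'
      exact haa (P.value_unique hP hP')
  exact_mod_cast hinj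

end WildG
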